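import Mathlib

set_option autoImplicit false

open Polynomial

/-!
Definitions and statements for MP_49a735_an (nonreal zeros of iterated central differences).
-/

namespace Pool.Agent.H220CDD

/-- The basic function `exp(π i z) Γ(a+z) Γ(a-z)`. -/
noncomputable def G (a : ℝ) (z : ℂ) : ℂ :=
  Complex.exp (Real.pi * Complex.I * z) * Complex.Gamma (a + z) * Complex.Gamma (a - z)

/-- Iterated (unnormalised) central difference of `G a` with step `l`. -/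
noncomputable def U (l a : ℝ) : ℕ → ℂ → ℂ
  | 0, z => G a z
  | n + 1, z => U l a n (z + l) - U l a n (z - l)

/-- Central difference of a real polynomial. -/
noncomputable def T (l : ℝ) (g : ℝ[X]) : ℝ[X] := g.comp (X + C l) - g.comp (X - C l)

/-- `∏_{k=-N}^{N} (X - k)`. -/
noncomputable def pN (N : ℕ) : ℝ[X] := ∏ k ∈ Finset.Icc (-(N : ℤ)) (N : ℤ), (X - C (k : ℝ))

/-- The iterated central difference of `pN N`. -/
noncomputable def f (l : ℝ) (N n : ℕ) : ℝ[X] := (T l)^[n] (pN N)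

/-- `U` has no zeros with `0 < re z < R + 1/2`, where `R = a - n l` (except that the value at the pole `R`
is not considered). -/
def ZF (l a : ℝ) (n : ℕ) : Prop :=
  ∀ z : ℂ, 0 < z.re → z.re < a - n * l + 1 / 2 → z ≠ ((a - n * l : ℝ) : ℂ) → U l a n z ≠ 0

/-- half-step inequality off the real axis -/
def TH2 (l a : ℝ) (n : ℕ) : Prop :=
  ∀ z : ℂ, z.im ≠ 0 → 0 < z.re → z.re < a - n * l →
    ‖U l a n (z - 1 / 2)‖ < ‖U l a n (z + 1 / 2)‖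

/-- inequality with centre `c` and half-width `x < 1/2` -/
def CC (l a : ℝ) (n : ℕ) : Prop :=
  ∀ c x y : ℝ, 0 < c → c < a - n * l → 0 < x → x < 1 / 2 →
    (⟨c + x, y⟩ : ℂ) ≠ ((a - n * l : ℝ) : ℂ) →
    ‖U l a n ⟨c - x, y⟩‖ < ‖U l a n ⟨c + x, y⟩‖

/-- inequality with step `l` -/
def EE (l a : ℝ) (n : ℕ) : Prop :=
  ∀ z : ℂ, 0 < z.re → z.re < a - n * l - l + 1 / 2 → z + l ≠ ((a - n * l : ℝ) : ℂ) →
    ‖U l a n (z - l)‖ < ‖U l a n (z + l)‖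

/-- symmetry -/
def S_SYM : Prop := ∀ (l a : ℝ) (n : ℕ) (z : ℂ),
  U l a n (-(starRingEnd ℂ z)) = (-1) ^ n * starRingEnd ℂ (U l a n z)

/-- the half-step identity (for `n = 0` the second term is `0`) -/
def S_TID : Prop := ∀ (l a : ℝ) (n : ℕ) (z : ℂ), z.im ≠ 0 →
  ‖U l a n (z + 1 / 2)‖ ^ 2 - ‖U l a n (z - 1 / 2)‖ ^ 2 =
    4 * (a - 1 / 2) * (z.re * ‖U l (a - 1 / 2) n z‖ ^ 2 +
      n * l * (‖U l (a - 1 / 2) (n - 1) (z + l)‖ ^ 2 - ‖U l (a - 1 / 2) (n - 1) (z - l)‖ ^ 2))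

/-- growth bounds for half integral `a = m/2` -/
def S_GR : Prop := ∀ (l : ℝ) (m n : ℕ), 1 ≤ m →
  (∃ z : ℂ, z.im ≠ 0 ∧ U l ((m : ℝ) / 2) n z ≠ 0) → ∀ K : ℝ, ∃ c C k Y : ℝ,
    0 < c ∧ 0 < C ∧ 0 < k ∧ 0 < Y ∧ ∀ z : ℂ, |z.re| ≤ K → Y ≤ |z.im| →
      c * Real.exp (-(k * |z.im|)) ≤ ‖U l ((m : ℝ) / 2) n z‖ ∧
      ‖U l ((m : ℝ) / 2) n z‖ ≤ C * Real.exp (k * |z.im|)

/-- `U` divided by the pole: with `R = a - n l`, `F = U / Γ(R - ·)` extends to a differentiable function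
on `-R < re < R + 1`, not zero at `R`. -/
def S_F : Prop := ∀ (l a : ℝ) (n : ℕ), 1 / 2 ≤ l → 0 < a - n * l →
  ∃ F : ℂ → ℂ, (∀ z : ℂ, -(a - n * l) < z.re → z.re < a - n * l + 1 →
      DifferentiableAt ℂ F z ∧
      (z ≠ ((a - n * l : ℝ) : ℂ) → F z = U l a n z * (Complex.Gamma (((a - n * l : ℝ) : ℂ) - z))⁻¹)) ∧
    F ((a - n * l : ℝ) : ℂ) ≠ 0

/-- `U` is differentiable for `|re z| < a - n l` -/
def S_DIFF : Prop := ∀ (l a : ℝ) (n : ℕ), 0 ≤ l → ∀ z : ℂ, |z.re| < a - n * l →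
  DifferentiableAt ℂ (U l a n) z

/-- Phragmen-Lindelof step -/
def S_C : Prop := ∀ (l : ℝ) (m n : ℕ), 1 / 2 ≤ l → 1 ≤ m → 1 / 2 < (m : ℝ) / 2 - n * l →
  ZF l ((m : ℝ) / 2) n → TH2 l ((m : ℝ) / 2) n → CC l ((m : ℝ) / 2) n

/-- from centre inequality to step `l` -/
def S_CE : Prop := ∀ (l a : ℝ) (n : ℕ), 1 / 2 ≤ l → l < a - n * l → CC l a n → EE l a n

/-- main analytic output -/
def S_LA : Prop := ∀ (l : ℝ) (m n : ℕ), 1 / 2 ≤ l →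
  (0 < (m : ℝ) / 2 - n * l → ZF l ((m : ℝ) / 2) n) ∧
  (l < (m : ℝ) / 2 - n * l → EE l ((m : ℝ) / 2) n)

/-- relation of the imaginary part with the polynomial -/
def S_IM : Prop := ∀ (l : ℝ) (N n : ℕ), 0 ≤ l → ∀ x : ℝ, |x| < (N : ℝ) + 1 - n * l →
  (U l ((N : ℝ) + 1) n (x : ℂ)).im = Real.pi * (-1) ^ N * (f l N n).eval x

/-- continuous argument of `(-1)^N U` on `(0, R_n)` -/
noncomputable def th (l : ℝ) (N : ℕ) : ℕ → ℝ → ℝ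
  | 0, x => Real.pi * (x + N)
  | n + 1, x => th l N n (x + l) +
      Complex.arg (1 - U l ((N : ℝ) + 1) n ((x - l : ℝ) : ℂ) / U l ((N : ℝ) + 1) n ((x + l : ℝ) : ℂ))

/-- properties of the argument function -/
def S_TH : Prop := ∀ (l : ℝ) (N : ℕ), 1 / 2 ≤ l →
  (∀ (n : ℕ) (x : ℝ), 0 < x → x < (N : ℝ) + 1 - n * l - l →
    ‖U l ((N : ℝ) + 1) n ((x - l : ℝ) : ℂ)‖ < ‖U l ((N : ℝ) + 1) n ((x + l : ℝ) : ℂ)‖) →
  ∀ n : ℕ, 0 < (N : ℝ) + 1 - n * l →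
    ContinuousOn (th l N n) (Set.Ioo 0 ((N : ℝ) + 1 - n * l)) ∧
    (∀ x ∈ Set.Ioo 0 ((N : ℝ) + 1 - n * l), U l ((N : ℝ) + 1) n (x : ℂ) ≠ 0 ∧
      (-1) ^ N * U l ((N : ℝ) + 1) n (x : ℂ) =
        ‖U l ((N : ℝ) + 1) n (x : ℂ)‖ * Complex.exp (Complex.I * th l N n x)) ∧
    Filter.Tendsto (th l N n) (nhdsWithin ((N : ℝ) + 1 - n * l) (Set.Iio ((N : ℝ) + 1 - n * l)))
      (nhds (Real.pi * (2 * N + 1))) ∧
    (∀ x : ℝ, 0 < x → x < (N : ℝ) + 1 - n * l - l → |th l N (n + 1) x - th l N n (x + l)| < Real.pi / 2)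

/-- all zeros are real or purely imaginary -/
def WR (g : ℝ[X]) : Prop := ∀ z : ℂ, aeval z g = 0 → z.im = 0 ∨ z.re = 0

/-- parity -/
def Par (g : ℝ[X]) : Prop := ∃ e : ℕ, g.comp (-X) = (-1) ^ e * g

open Classical in
/-- number of real roots `≥ t`, with multiplicity -/
noncomputable def Nge (g : ℝ[X]) (t : ℝ) : ℕ := (g.roots.filter (fun r => t ≤ r)).card

/-- Hermite-Biehler type count: many zeros of `T l g` on the imaginary axis -/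
def S_HB : Prop := ∀ (g : ℝ[X]) (l : ℝ), 0 < l → g ≠ 0 → Par g → WR g →
  ∃ s : Finset ℝ, g.natDegree ≤ s.card + 1 + 2 * Nge g l ∧
    ∀ y ∈ s, aeval ((y : ℂ) * Complex.I) (T l g) = 0

/-- the induction step for the zeros (`M` odd) -/
def S_J : Prop := ∀ (g : ℝ[X]) (l R : ℝ) (M : ℕ) (θ θ' ρ' : ℝ → ℝ),
  0 < l → l < R → Odd M → 1 ≤ g.natDegree → 0 < g.leadingCoeff → Par g → WR g →
  ContinuousOn θ (Set.Ioo 0 R) →
  (∀ t ∈ Set.Ioo 0 R, (Nge g t : ℝ) + θ t / Real.pi ≤ M) →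
  ContinuousOn θ' (Set.Ioo 0 (R - l)) →
  (∀ x ∈ Set.Ioo 0 (R - l), 0 < ρ' x ∧ (T l g).eval x = ρ' x * Real.sin (θ' x)) →
  Filter.Tendsto θ' (nhdsWithin (R - l) (Set.Iio (R - l))) (nhds (Real.pi * M)) →
  (∀ x ∈ Set.Ioo 0 (R - l), |θ' x - θ (x + l)| < Real.pi / 2) →
  (∃ s : Finset ℝ, g.natDegree ≤ s.card + 1 + 2 * Nge g l ∧
    ∀ y ∈ s, aeval ((y : ℂ) * Complex.I) (T l g) = 0) →
  WR (T l g) ∧ ∀ t ∈ Set.Ioo 0 (R - l), (Nge (T l g) t : ℝ) + θ' t / Real.pi ≤ M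

/-- degree and leading coefficient of `T l g` -/
def S_TDEG : Prop := ∀ (g : ℝ[X]) (l : ℝ), l ≠ 0 → 1 ≤ g.natDegree →
  (T l g).natDegree = g.natDegree - 1 ∧
  (T l g).leadingCoeff = 2 * l * g.natDegree * g.leadingCoeff

/-- parity of `T l g` -/
def S_TPAR : Prop := ∀ (g : ℝ[X]) (l : ℝ), Par g → Par (T l g)

/-- base of the induction -/
def S_J0 : Prop := ∀ (N : ℕ) (t : ℝ), 0 < t → t < N + 1 → (Nge (pN N) t : ℝ) + t ≤ N + 1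

/-- degree, leading coefficient, parity -/
def S_DEG : Prop := ∀ (l : ℝ) (N n : ℕ), 0 < l → n ≤ 2 * N + 1 →
  (f l N n).natDegree = 2 * N + 1 - n ∧ 0 < (f l N n).leadingCoeff ∧ Par (f l N n)

/-- the elementary case `l < 1/2`: all zeros are real -/
def S_MESH : Prop := ∀ (l : ℝ) (N n : ℕ), 0 < l → l < 1 / 2 → n ≤ 2 * N + 1 →
  ∀ z : ℂ, aeval z (f l N n) = 0 → z.im = 0

/-- the main theorem for polynomials -/
def S_MAIN : Prop := ∀ (l : ℝ) (N n : ℕ), 0 < l → n ≤ 2 * N + 1 → WR (f l N n)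

/-- the frozen statement -/
def S_FROZEN : Prop :=
    ∀ N : ℕ, ∀ l : ℝ, ∀ n : ℕ, n ≤ 2 * N + 1 → ∀ z : ℂ,
      ((fun (f : ℂ → ℂ) (w : ℂ) =>
          if l = 0 then deriv f w
          else (f (w + (l : ℂ)) - f (w - (l : ℂ))) / (2 * (l : ℂ)))^[n]
        (fun w : ℂ => ∏ k ∈ Finset.Icc (-(N : ℤ)) (N : ℤ), (w - (k : ℂ)))) z = 0 →
      z.im ≠ 0 → z.re = 0

end Pool.Agent.H220CDD
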