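import Pool.Agent.H220CDD.Stm

set_option autoImplicit false

open Complex Set Filter Topology Polynomial

namespace Pool.Agent.H220CDD

namespace TASM

lemma imag_all (F : ℝ[X]) (hF : F ≠ 0) (s : Finset ℝ) (hs : F.natDegree ≤ s.card)
    (hz : ∀ y ∈ s, aeval ((y : ℂ) * Complex.I) F = 0) (z : ℂ) (h : aeval z F = 0) : z.re = 0 := by
  by_contra hre
  let FC : ℂ[X] := F.map (algebraMap ℝ ℂ)
  have hFC : FC ≠ 0 := by
    simpa [FC] using (Polynomial.map_ne_zero_iff (algebraMap ℝ ℂ).injective).mpr hF
  have hdeg : FC.natDegree = F.natDegree := Polynomial.natDegree_map _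
  have hroot : ∀ w : ℂ, aeval w F = 0 → w ∈ FC.roots.toFinset := by
    intro w hw
    rw [Multiset.mem_toFinset, Polynomial.mem_roots hFC, Polynomial.IsRoot.def, Polynomial.eval_map]
    simpa [Polynomial.aeval_def] using hw
  let S : Finset ℂ := insert z (s.image (fun y : ℝ => (y : ℂ) * Complex.I))
  have hcard : S.card = s.card + 1 := by
    rw [Finset.card_insert_of_notMem, Finset.card_image_of_injective]
    · intro x y hxy
      have h1 : (x : ℂ) * Complex.I = (y : ℂ) * Complex.I := hxy
      have h2 := mul_right_cancel₀ Complex.I_ne_zero h1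
      exact_mod_cast h2
    · intro hmem
      rw [Finset.mem_image] at hmem
      obtain ⟨y, -, hy⟩ := hmem
      apply hre
      rw [← hy]; simp
  have hsub : S ⊆ FC.roots.toFinset := by
    intro w hw
    rw [Finset.mem_insert, Finset.mem_image] at hw
    rcases hw with rfl | ⟨y, hy, rfl⟩
    · exact hroot _ h
    · exact hroot _ (hz y hy)
  have h1 := Finset.card_le_card hsub
  have h2 : FC.roots.toFinset.card ≤ FC.natDegree :=
    le_trans (Multiset.toFinset_card_le _) (Polynomial.card_roots' _)
  omega

lemma Nge_mono (g : ℝ[X]) {s t : ℝ} (h : s ≤ t) : Nge g t ≤ Nge g s := by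
  classical
  unfold Nge
  apply Multiset.card_le_card
  apply Multiset.monotone_filter_right
  intro r hr
  exact le_trans h hr

lemma Nge_zero_of_re (F : ℝ[X]) (h : ∀ z : ℂ, aeval z F = 0 → z.re = 0) {t : ℝ} (ht : 0 < t) :
    Nge F t = 0 := by
  classical
  unfold Nge
  rw [Multiset.card_eq_zero, Multiset.filter_eq_nil]
  intro r hr htr
  by_cases hF : F = 0
  · subst hF; simp at hr
  · have h1 : F.eval r = 0 := (Polynomial.mem_roots hF).mp hr
    have h2 : aeval (r : ℂ) F = 0 := by
      have := Polynomial.aeval_algebraMap_apply ℂ r F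
      simp at this
      rw [this, h1]; simp
    have := h _ h2
    simp at this
    linarith

end TASM

open TASM in
theorem t_ASM : S_LA → S_IM → S_TH → S_HB → S_J → S_DEG → S_TPAR → S_J0 → S_TDEG → S_MESH →
    S_MAIN := by
  intro hLA hIM hTH hHB hJ hDEG hTPAR hJ0 hTDEG hMESH l N n hl hn
  rcases lt_or_ge l (1 / 2) with hlt | hge
  · intro z hz
    exact Or.inl (hMESH l N n hl hlt hn z hz)
  -- the inequality on the real line
  have hm : (((2 * N + 2 : ℕ) : ℝ)) / 2 = (N : ℝ) + 1 := by push_cast; ring
  have hEA : ∀ (k : ℕ) (x : ℝ), 0 < x → x < (N : ℝ) + 1 - k * l - l →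
      ‖U l ((N : ℝ) + 1) k ((x - l : ℝ) : ℂ)‖ < ‖U l ((N : ℝ) + 1) k ((x + l : ℝ) : ℂ)‖ := by
    intro k x hx0 hx1
    have h1 := (hLA l (2 * N + 2) k hge).2
    rw [hm] at h1
    have h2 := h1 (by linarith) (x : ℂ) (by simpa using hx0) (by simp; linarith) (by
      intro h
      have := congrArg Complex.re h
      simp at this
      linarith)
    have e1 : ((x - l : ℝ) : ℂ) = (x : ℂ) - l := by push_cast; ring
    have e2 : ((x + l : ℝ) : ℂ) = (x : ℂ) + l := by push_cast; ring
    rw [e1, e2]
    exact h2
  have hth := hTH l N hge hEA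
  have hfs : ∀ k, f l N (k + 1) = T l (f l N k) := by
    intro k; unfold f; rw [Function.iterate_succ_apply']
  -- main induction
  have key : ∀ k : ℕ, k ≤ 2 * N + 1 → WR (f l N k) ∧
      (0 < (N : ℝ) + 1 - k * l → ∀ t ∈ Set.Ioo 0 ((N : ℝ) + 1 - k * l),
        (Nge (f l N k) t : ℝ) + th l N k t / Real.pi ≤ ((2 * N + 1 : ℕ) : ℝ)) ∧
      ((N : ℝ) + 1 - k * l ≤ 0 → ∀ t : ℝ, 0 < t → Nge (f l N k) t = 0) := by
    intro k
    induction k with
    | zero =>
      intro _
      refine ⟨?_, ?_, ?_⟩
      · intro z hz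
        left
        have h1 : aeval z (pN N) = ∏ j ∈ Finset.Icc (-(N : ℤ)) (N : ℤ), (z - ((j : ℝ) : ℂ)) := by
          unfold pN
          rw [map_prod]
          apply Finset.prod_congr rfl
          intro j _
          rw [map_sub, aeval_X, aeval_C]; rfl
        have h2 : f l N 0 = pN N := rfl
        rw [h2, h1, Finset.prod_eq_zero_iff] at hz
        obtain ⟨j, -, hj⟩ := hz
        have : z = ((j : ℝ) : ℂ) := sub_eq_zero.mp hj
        rw [this]; exact Complex.ofReal_im _
      · intro _ t ht
        have h2 : f l N 0 = pN N := rfl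
        rw [h2]
        have h3 := hJ0 N t ht.1 (by have := ht.2; simp at this; linarith)
        have h4 : th l N 0 t / Real.pi = t + N := by
          show Real.pi * (t + N) / Real.pi = t + N
          field_simp
        rw [h4]; push_cast; linarith
      · intro h
        exfalso
        have : (0 : ℝ) ≤ N := Nat.cast_nonneg N
        simp at h
        linarith
    | succ k ih =>
      intro hk
      obtain ⟨ihW, ihJ, ihZ⟩ := ih (by omega)
      obtain ⟨hd1, hd2, hd3⟩ := hDEG l N k hl (by omega)
      have hdeg1 : 1 ≤ (f l N k).natDegree := by rw [hd1]; omega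
      have hg0 : f l N k ≠ 0 := by
        intro h; rw [h] at hdeg1; simp at hdeg1
      obtain ⟨s, hs1, hs2⟩ := hHB (f l N k) l hl hg0 hd3 ihW
      have hcast : (N : ℝ) + 1 - ((k + 1 : ℕ) : ℝ) * l = ((N : ℝ) + 1 - k * l) - l := by
        push_cast; ring
      rw [hfs k, hcast]
      rcases lt_or_ge l ((N : ℝ) + 1 - k * l) with hA | hB
      · -- case A
        obtain ⟨c1, c2, c3, c4⟩ := hth k (by linarith)
        obtain ⟨d1, d2, d3, d4⟩ := hth (k + 1) (by rw [hcast]; linarith)
        rw [hcast] at d1 d2 d3
        have hJ' := hJ (f l N k) l ((N : ℝ) + 1 - k * l) (2 * N + 1) (th l N k) (th l N (k + 1))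
          (fun x => ‖U l ((N : ℝ) + 1) (k + 1) (x : ℂ)‖ / Real.pi) hl hA ⟨N, rfl⟩ hdeg1 hd2 hd3 ihW c1
          (ihJ (by linarith)) d1 (by
            intro x hx
            obtain ⟨u1, u2⟩ := d2 x hx
            refine ⟨div_pos (norm_pos_iff.mpr u1) Real.pi_pos, ?_⟩
            have v1 := hIM l N (k + 1) hl.le x (by
              rw [hcast, abs_of_pos hx.1]; exact hx.2)
            rw [hfs k] at v1
            have v2 := congrArg Complex.im u2
            have v3 : ((-1 : ℂ) ^ N * U l ((N : ℝ) + 1) (k + 1) (x : ℂ)).im =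
                (-1 : ℝ) ^ N * (U l ((N : ℝ) + 1) (k + 1) (x : ℂ)).im := by
              have : ((-1 : ℂ) ^ N) = (((-1 : ℝ) ^ N : ℝ) : ℂ) := by push_cast; rfl
              rw [this, Complex.im_ofReal_mul]
            have v4 : ((‖U l ((N : ℝ) + 1) (k + 1) (x : ℂ)‖ : ℂ) *
                Complex.exp (Complex.I * (th l N (k + 1) x : ℝ))).im =
                ‖U l ((N : ℝ) + 1) (k + 1) (x : ℂ)‖ * Real.sin (th l N (k + 1) x) := by
              rw [Complex.im_ofReal_mul, mul_comm Complex.I, Complex.exp_ofReal_mul_I_im]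
            rw [v3, v4, v1] at v2
            have v5 : ((-1 : ℝ) ^ N) * ((-1 : ℝ) ^ N) = 1 := by
              rw [← mul_pow]; norm_num
            have v6 : Real.pi * (T l (f l N k)).eval x =
                ‖U l ((N : ℝ) + 1) (k + 1) (x : ℂ)‖ * Real.sin (th l N (k + 1) x) := by
              rw [← v2]
              calc Real.pi * (T l (f l N k)).eval x
                  = (((-1 : ℝ) ^ N) * ((-1 : ℝ) ^ N)) * (Real.pi * (T l (f l N k)).eval x) := by
                    rw [v5]; ring
                _ = _ := by ring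
            have hpi := Real.pi_ne_zero
            field_simp
            linarith)
          (by
            have e : Real.pi * ((2 * N + 1 : ℕ) : ℝ) = Real.pi * (2 * (N : ℝ) + 1) := by push_cast; ring
            rw [e]; exact d3)
          (by intro x hx; exact c4 x hx.1 hx.2) ⟨s, hs1, hs2⟩
        refine ⟨hJ'.1, fun _ => hJ'.2, fun h => ?_⟩
        exfalso; linarith
      · -- case B
        have hN0 : Nge (f l N k) l = 0 := by
          rcases le_or_gt ((N : ℝ) + 1 - k * l) 0 with h0 | h0
          · exact ihZ h0 l hl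
          · obtain ⟨c1, c2, c3, c4⟩ := hth k h0
            have hev : ∀ᶠ t in nhdsWithin ((N : ℝ) + 1 - k * l) (Set.Iio ((N : ℝ) + 1 - k * l)),
                Real.pi * (2 * N + 1) - Real.pi / 2 < th l N k t :=
              c3.eventually (lt_mem_nhds (by linarith [Real.pi_pos]))
            have hev2 : ∀ᶠ t in nhdsWithin ((N : ℝ) + 1 - k * l) (Set.Iio ((N : ℝ) + 1 - k * l)),
                t ∈ Set.Ioo 0 ((N : ℝ) + 1 - k * l) :=
              Ioo_mem_nhdsLT h0
            obtain ⟨t, ht1, ht2⟩ := (hev.and hev2).exists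
            have h3 := ihJ h0 t ht2
            have h4 : (2 * (N : ℝ) + 1) - 1 / 2 < th l N k t / Real.pi := by
              rw [lt_div_iff₀ Real.pi_pos]; linarith
            have h5 : (Nge (f l N k) t : ℝ) < 1 := by push_cast at h3; linarith
            have h6 : Nge (f l N k) t = 0 := by
              have : Nge (f l N k) t < 1 := by exact_mod_cast h5
              omega
            have h7 := Nge_mono (f l N k) (s := t) (t := l) (by linarith [ht2.2])
            omega
        have hT := hTDEG (f l N k) l hl.ne' hdeg1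
        have hT0 : T l (f l N k) ≠ 0 := by
          intro h
          have h1 := hT.2
          rw [h, Polynomial.leadingCoeff_zero] at h1
          have h2 : 0 < 2 * l * ((f l N k).natDegree : ℝ) * (f l N k).leadingCoeff := by
            have : (0 : ℝ) < (f l N k).natDegree := by exact_mod_cast hdeg1
            positivity
          linarith
        have him := imag_all (T l (f l N k)) hT0 s (by rw [hT.1]; omega) hs2
        refine ⟨fun z hz => Or.inr (him z hz), fun h => ?_, fun _ t ht => Nge_zero_of_re _ him ht⟩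
        exfalso; linarith
  exact (key n hn).1

end Pool.Agent.H220CDD
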