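import Pool.Agent.H220CDD.Stm

set_option autoImplicit false

open Complex Set Filter Topology

namespace Pool.Agent.H220CDD

namespace TC

lemma norm_sym (h : S_SYM) (l a : ℝ) (n : ℕ) (x y : ℝ) :
    ‖U l a n ⟨-x, y⟩‖ = ‖U l a n ⟨x, y⟩‖ := by
  have h1 := h l a n ⟨x, y⟩
  have h2 : (-(starRingEnd ℂ (⟨x, y⟩ : ℂ))) = ⟨-x, y⟩ := by
    apply Complex.ext <;> simp
  rw [h2] at h1
  rw [h1, norm_mul, norm_pow, norm_neg, norm_one, one_pow, one_mul, RCLike.norm_conj]

lemma strict_max {q : ℂ → ℂ} (hd : ∀ z : ℂ, 0 ≤ z.re → z.re ≤ 1 / 2 → DifferentiableAt ℂ q z)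
    (hB : ∃ c < Real.pi / (1 / 2 - 0), ∃ B, q =O[comap (_root_.abs ∘ im) atTop ⊓ 𝓟 (re ⁻¹' Ioo 0 (1 / 2))]
      fun z => Real.exp (B * Real.exp (c * |z.im|)))
    (h0 : ∀ z : ℂ, z.re = 0 → ‖q z‖ ≤ 1) (h1 : ∀ z : ℂ, z.re = 1 / 2 → ‖q z‖ ≤ 1)
    (h2 : ∃ z : ℂ, z.re = 1 / 2 ∧ ‖q z‖ < 1) (z : ℂ) (hz0 : 0 < z.re) (hz1 : z.re < 1 / 2) :
    ‖q z‖ < 1 := by
  have hcl : closure (re ⁻¹' Ioo (0 : ℝ) (1 / 2)) = re ⁻¹' Icc (0 : ℝ) (1 / 2) := by
    rw [Complex.closure_preimage_re, closure_Ioo (by norm_num)]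
  have hdc : DiffContOnCl ℂ q (re ⁻¹' Ioo (0 : ℝ) (1 / 2)) := by
    apply DifferentiableOn.diffContOnCl
    rw [hcl]
    intro w hw
    exact (hd w hw.1 hw.2).differentiableWithinAt
  have hle : ∀ w : ℂ, 0 ≤ w.re → w.re ≤ 1 / 2 → ‖q w‖ ≤ 1 := fun w hw0 hw1 =>
    PhragmenLindelof.vertical_strip hdc hB h0 h1 hw0 hw1
  refine lt_of_le_of_ne (hle z hz0.le hz1.le) ?_
  intro heq
  have hpre : IsPreconnected (re ⁻¹' Ioo (0 : ℝ) (1 / 2)) := by
    have : Convex ℝ (re ⁻¹' Ioo (0 : ℝ) (1 / 2)) := (convex_Ioo _ _).linear_preimage Complex.reLm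
    exact this.isPreconnected
  have hopen : IsOpen (re ⁻¹' Ioo (0 : ℝ) (1 / 2)) := isOpen_Ioo.preimage Complex.continuous_re
  have hmax : IsMaxOn (norm ∘ q) (re ⁻¹' Ioo (0 : ℝ) (1 / 2)) z := by
    intro w hw
    show ‖q w‖ ≤ ‖q z‖
    rw [heq]
    exact hle w hw.1.le hw.2.le
  have hEq := Complex.norm_eqOn_closure_of_isPreconnected_of_isMaxOn hpre hopen hdc
    (show z ∈ re ⁻¹' Ioo (0 : ℝ) (1 / 2) from ⟨hz0, hz1⟩) hmax
  obtain ⟨w, hw, hw1⟩ := h2
  have hwc : w ∈ closure (re ⁻¹' Ioo (0 : ℝ) (1 / 2)) := by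
    rw [hcl]
    exact ⟨by rw [hw]; norm_num, by rw [hw]⟩
  have := hEq hwc
  simp only [Function.comp, Function.const] at this
  rw [this, heq] at hw1
  exact lt_irrefl _ hw1

end TC

open TC in
theorem t_C : S_SYM → S_DIFF → S_F → S_GR → S_C := by
  intro hsym hdiff hF hgr l m n hl hm hR hZ hT c x y hc0 hcR hx0 hx1 hne
  set a : ℝ := (m : ℝ) / 2 with ha
  set R : ℝ := a - n * l with hRdef
  obtain ⟨F, hF1, hF2⟩ := hF l a n hl (by linarith)
  rw [← hRdef] at hF1 hF2
  -- nonvanishing of F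
  have hFne : ∀ w : ℂ, 0 < w.re → w.re < R + 1 / 2 → F w ≠ 0 := by
    intro w hw0 hw1
    by_cases hwR : w = (R : ℂ)
    · rw [hwR]; exact hF2
    · rw [(hF1 w (by linarith) (by linarith)).2 hwR]
      refine mul_ne_zero (hZ w hw0 hw1 hwR) (inv_ne_zero ?_)
      apply Complex.Gamma_ne_zero
      intro k hk
      rcases Nat.eq_zero_or_pos k with h0 | h0
      · subst h0
        apply hwR
        have : (R : ℂ) - w = 0 := by simpa using hk
        linear_combination -this
      · have h3 := congrArg Complex.re hk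
        simp at h3
        have : (1 : ℝ) ≤ k := by exact_mod_cast h0
        linarith
  let q : ℂ → ℂ := fun z => U l a n (z - c) * (Complex.Gamma ((R : ℂ) - c - z))⁻¹ / F (z + c)
  have hq : ∀ z : ℂ, 0 ≤ z.re → z.re ≤ 1 / 2 → z + c ≠ (R : ℂ) →
      q z = U l a n (z - c) / U l a n (z + c) := by
    intro z hz0 hz1 hz
    have hzre : (z + c).re = z.re + c := by simp
    show U l a n (z - c) * (Complex.Gamma ((R : ℂ) - c - z))⁻¹ / F (z + c) = _
    rw [(hF1 (z + c) (by rw [hzre]; linarith) (by rw [hzre]; linarith)).2 hz]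
    have hG : Complex.Gamma ((R : ℂ) - c - z) ≠ 0 := by
      apply Complex.Gamma_ne_zero
      intro k hk
      rcases Nat.eq_zero_or_pos k with h0 | h0
      · subst h0
        apply hz
        have : (R : ℂ) - c - z = 0 := by simpa using hk
        linear_combination -this
      · have h3 := congrArg Complex.re hk
        simp at h3
        have : (1 : ℝ) ≤ k := by exact_mod_cast h0
        linarith
    have hG2 : (R : ℂ) - (z + c) = (R : ℂ) - c - z := by ring
    rw [hG2]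
    have hU : U l a n (z + c) ≠ 0 := hZ (z + c) (by rw [hzre]; linarith) (by rw [hzre]; linarith) hz
    field_simp
  have hqd : ∀ z : ℂ, 0 ≤ z.re → z.re ≤ 1 / 2 → DifferentiableAt ℂ q z := by
    intro z hz0 hz1
    have hzre : (z + c).re = z.re + c := by simp
    have hzre2 : (z - c).re = z.re - c := by simp
    have e1 : DifferentiableAt ℂ (fun z : ℂ => U l a n (z - c)) z := by
      have := hdiff l a n (by linarith) (z - c) (by
        rw [hzre2, abs_lt]; constructor <;> [skip; skip] <;> linarith)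
      exact this.comp z (by fun_prop)
    have e2 : DifferentiableAt ℂ (fun z : ℂ => (Complex.Gamma ((R : ℂ) - c - z))⁻¹) z := by
      have := Complex.differentiable_one_div_Gamma ((R : ℂ) - c - z)
      exact this.comp z (by fun_prop)
    have e3 : DifferentiableAt ℂ (fun z : ℂ => F (z + c)) z := by
      have := (hF1 (z + c) (by rw [hzre]; linarith) (by rw [hzre]; linarith)).1
      exact this.comp z (by fun_prop)
    exact (e1.mul e2).div e3 (hFne _ (by rw [hzre]; linarith) (by rw [hzre]; linarith))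
  -- boundary 1/2, off the real axis
  have hb : ∀ t : ℝ, t ≠ 0 → ‖q ⟨1 / 2, t⟩‖ < 1 := by
    intro t ht
    have hne' : (⟨1 / 2, t⟩ : ℂ) + c ≠ (R : ℂ) := by
      intro h
      have := congrArg Complex.im h
      simp at this
      exact ht this
    rw [hq _ (by norm_num) (by norm_num) hne', norm_div]
    have h3 := hT ⟨c, t⟩ ht hc0 hcR
    have e1 : (⟨c, t⟩ : ℂ) - 1 / 2 = ⟨c - 1 / 2, t⟩ := by apply Complex.ext <;> simp
    have e2 : (⟨c, t⟩ : ℂ) + 1 / 2 = ⟨1 / 2, t⟩ + (c : ℂ) := by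
      apply Complex.ext
      · simp; ring
      · simp
    have e3 : (⟨1 / 2, t⟩ : ℂ) - (c : ℂ) = ⟨-(c - 1 / 2), t⟩ := by apply Complex.ext <;> simp
    rw [e1, e2] at h3
    rw [e3, norm_sym hsym]
    rw [div_lt_one (lt_of_le_of_lt (norm_nonneg _) h3)]
    exact h3
  have h0 : ∀ z : ℂ, z.re = 0 → ‖q z‖ ≤ 1 := by
    intro z hz
    have hne' : z + c ≠ (R : ℂ) := by
      intro h
      have := congrArg Complex.re h
      simp [hz] at this
      linarith
    rw [hq z (by linarith) (by linarith) hne', norm_div]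
    have e1 : z - (c : ℂ) = ⟨-c, z.im⟩ := by apply Complex.ext <;> simp [hz]
    have e2 : z + (c : ℂ) = ⟨c, z.im⟩ := by apply Complex.ext <;> simp [hz]
    rw [e1, e2, norm_sym hsym]
    exact div_self_le_one _
  have h1 : ∀ z : ℂ, z.re = 1 / 2 → ‖q z‖ ≤ 1 := by
    intro z hz
    have hz' : z = ⟨1 / 2, z.im⟩ := by apply Complex.ext <;> simp [hz]
    rw [hz']
    by_cases ht : z.im = 0
    · rw [ht]
      have hcont : ContinuousAt (fun t : ℝ => ‖q ⟨1 / 2, t⟩‖) 0 := by
        have c1 : ContinuousAt q (⟨1 / 2, 0⟩ : ℂ) := (hqd _ (by norm_num) (by norm_num)).continuousAt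
        have c2 : Continuous (fun t : ℝ => (⟨1 / 2, t⟩ : ℂ)) := by
          have : (fun t : ℝ => (⟨1 / 2, t⟩ : ℂ)) = fun t : ℝ => (1 / 2 : ℂ) + (t : ℂ) * Complex.I := by
            funext t; apply Complex.ext <;> simp
          rw [this]; fun_prop
        exact (ContinuousAt.comp (f := fun t : ℝ => (⟨1 / 2, t⟩ : ℂ)) c1 c2.continuousAt).norm
      have hlim : Tendsto (fun t : ℝ => ‖q ⟨1 / 2, t⟩‖) (𝓝[≠] 0) (𝓝 ‖q ⟨1 / 2, 0⟩‖) :=
        hcont.tendsto.mono_left nhdsWithin_le_nhds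
      refine le_of_tendsto hlim ?_
      filter_upwards [self_mem_nhdsWithin] with t ht
      exact (hb t ht).le
    · exact (hb _ ht).le
  have h2 : ∃ z : ℂ, z.re = 1 / 2 ∧ ‖q z‖ < 1 := ⟨⟨1 / 2, 1⟩, rfl, hb 1 one_ne_zero⟩
  -- growth
  have hB : ∃ c' < Real.pi / (1 / 2 - 0), ∃ B, q =O[comap (_root_.abs ∘ im) atTop ⊓ 𝓟 (re ⁻¹' Ioo 0 (1 / 2))]
      fun z => Real.exp (B * Real.exp (c' * |z.im|)) := by
    have hnz : ∃ z : ℂ, z.im ≠ 0 ∧ U l a n z ≠ 0 := by
      refine ⟨⟨1 / 2, 1⟩, by norm_num, hZ _ (by norm_num) (by simp only; linarith) ?_⟩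
      intro h
      have := congrArg Complex.im h
      simp at this
    obtain ⟨c₀, C, k, Y, hc₀, hC, hk, hY, hb2⟩ := hgr l m n hm hnz (R + 1)
    refine ⟨1, ?_, 2 * k, ?_⟩
    · have := Real.pi_gt_three
      rw [lt_div_iff₀ (by norm_num)]; linarith
    · refine Asymptotics.IsBigO.of_bound (C / c₀) ?_
      rw [eventually_inf_principal]
      have : ∀ᶠ z : ℂ in comap (_root_.abs ∘ im) atTop, Y ≤ |z.im| := by
        exact (eventually_ge_atTop Y).comap _ |>.mono (fun z hz => hz)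
      filter_upwards [this] with z hzY hzs
      have hz0 : 0 < z.re := hzs.1
      have hz1 : z.re < 1 / 2 := hzs.2
      have him : z.im ≠ 0 := by
        intro h; rw [h, abs_zero] at hzY; linarith
      have hne' : z + c ≠ (R : ℂ) := by
        intro h
        have := congrArg Complex.im h
        simp at this
        exact him this
      rw [hq z hz0.le hz1.le hne', norm_div]
      have hr1 : (z - (c : ℂ)).re = z.re - c := by simp
      have hr2 : (z + (c : ℂ)).re = z.re + c := by simp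
      have hi1 : (z - (c : ℂ)).im = z.im := by simp
      have hi2 : (z + (c : ℂ)).im = z.im := by simp
      have u1 := (hb2 (z - c) (by rw [hr1, abs_le]; constructor <;> linarith) (by rw [hi1]; exact hzY)).2
      have u2 := (hb2 (z + c) (by rw [hr2, abs_le]; constructor <;> linarith) (by rw [hi2]; exact hzY)).1
      rw [hi1] at u1
      rw [hi2] at u2
      have hpos : 0 < c₀ * Real.exp (-(k * |z.im|)) := by positivity
      rw [Real.norm_of_nonneg (Real.exp_pos _).le]
      calc ‖U l a n (z - c)‖ / ‖U l a n (z + c)‖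
          ≤ (C * Real.exp (k * |z.im|)) / (c₀ * Real.exp (-(k * |z.im|))) := by
            apply div_le_div₀ (by positivity) u1 hpos u2
        _ = (C / c₀) * Real.exp (2 * k * |z.im|) := by
            rw [mul_div_mul_comm, ← Real.exp_sub]
            congr 2; ring
        _ ≤ (C / c₀) * Real.exp (2 * k * Real.exp (1 * |z.im|)) := by
            apply mul_le_mul_of_nonneg_left _ (by positivity)
            apply Real.exp_le_exp.mpr
            apply mul_le_mul_of_nonneg_left _ (by positivity)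
            rw [one_mul]
            linarith [Real.add_one_le_exp (|z.im|)]
  have hfin := strict_max hqd hB h0 h1 h2 ⟨x, y⟩ hx0 hx1
  have e2 : (⟨x, y⟩ : ℂ) + (c : ℂ) = ⟨c + x, y⟩ := by
    apply Complex.ext
    · simp; ring
    · simp
  have e3 : (⟨x, y⟩ : ℂ) - (c : ℂ) = ⟨-(c - x), y⟩ := by apply Complex.ext <;> simp
  rw [hq _ hx0.le hx1.le (by rw [e2]; exact hne), norm_div, e2, e3, norm_sym hsym] at hfin
  have hpos : 0 < ‖U l a n ⟨c + x, y⟩‖ := by
    rw [norm_pos_iff]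
    exact hZ _ (by simp only; linarith) (by simp only; linarith) hne
  rwa [div_lt_one hpos] at hfin

end Pool.Agent.H220CDD
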