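import Pool.Agent.H220CDD.Stm

set_option autoImplicit false

/-!
Project CDD: from the centre inequality to step `l`.
-/

namespace Pool.Agent.H220CDD

namespace TCE

theorem even_norm (h : S_SYM) (l a : ℝ) (n : ℕ) (t y : ℝ) :
    ‖U l a n ⟨-t, y⟩‖ = ‖U l a n ⟨t, y⟩‖ := by
  have h1 := h l a n ⟨t, y⟩
  have h2 : -(starRingEnd ℂ (⟨t, y⟩ : ℂ)) = ⟨-t, y⟩ := by
    apply Complex.ext <;> simp
  rw [h2] at h1
  rw [h1, norm_mul, norm_pow, norm_neg, norm_one, one_pow, one_mul, RCLike.norm_conj]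

theorem abs_norm (h : S_SYM) (l a : ℝ) (n : ℕ) (t y : ℝ) :
    ‖U l a n ⟨|t|, y⟩‖ = ‖U l a n ⟨t, y⟩‖ := by
  rcases le_total 0 t with ht | ht
  · rw [abs_of_nonneg ht]
  · rw [abs_of_nonpos ht, even_norm h]

theorem ne_of_lt {t y R : ℝ} (ht : t < R) : (⟨t, y⟩ : ℂ) ≠ ((R : ℝ) : ℂ) := by
  intro h
  have := congrArg Complex.re h
  simp at this
  linarith

theorem mono_step {l a : ℝ} {n : ℕ} (hC : CC l a n) (y : ℝ) (k : ℕ) :
    ∀ s t : ℝ, 0 ≤ s → s < t → t < a - n * l → t - s < 2 ^ k →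
      ‖U l a n ⟨s, y⟩‖ < ‖U l a n ⟨t, y⟩‖ := by
  induction k with
  | zero =>
    intro s t hs hst ht h1
    have h2 := hC ((s + t) / 2) ((t - s) / 2) y (by linarith) (by linarith) (by linarith)
      (by rw [pow_zero] at h1; linarith)
    have e1 : (s + t) / 2 + (t - s) / 2 = t := by ring
    have e2 : (s + t) / 2 - (t - s) / 2 = s := by ring
    rw [e1, e2] at h2
    exact h2 (ne_of_lt ht)
  | succ k ih =>
    intro s t hs hst ht h1
    rw [pow_succ] at h1
    exact (ih s ((s + t) / 2) hs (by linarith) (by linarith) (by linarith)).trans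
      (ih ((s + t) / 2) t (by linarith) (by linarith) ht (by linarith))

theorem mono {l a : ℝ} {n : ℕ} (hC : CC l a n) (y : ℝ) (s t : ℝ) (hs : 0 ≤ s) (hst : s < t)
    (ht : t < a - n * l) : ‖U l a n ⟨s, y⟩‖ < ‖U l a n ⟨t, y⟩‖ := by
  obtain ⟨k, hk⟩ := pow_unbounded_of_one_lt (t - s) (one_lt_two : (1 : ℝ) < 2)
  exact mono_step hC y k s t hs hst ht hk

end TCE

open TCE in
theorem t_CE (h : S_SYM) : S_CE := by
  intro l a n hl hR hC z hz0 hz1 hzne
  have hl0 : 0 < l := by linarith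
  set R := a - n * l with hRdef
  set x := z.re with hx
  set y := z.im with hy
  have hz : z = ⟨x, y⟩ := rfl
  have ep : z + (l : ℂ) = ⟨x + l, y⟩ := by
    apply Complex.ext <;> simp [hx, hy]
  have em : z - (l : ℂ) = ⟨x - l, y⟩ := by
    apply Complex.ext <;> simp [hx, hy]
  rw [ep] at hzne ⊢
  rw [em, ← abs_norm h]
  have habs : |x - l| < x + l := by
    rw [abs_lt]; constructor <;> linarith
  rcases lt_or_ge (x + l) R with ht | ht
  · exact mono hC y _ _ (abs_nonneg _) habs ht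
  · rcases lt_or_ge x (1 / 2) with hx2 | hx2
    · have h1 := hC l x y hl0 hR hz0 hx2 (by rw [add_comm l x]; exact hzne)
      rw [← abs_norm h l a n (l - x) y, abs_sub_comm, add_comm l x] at h1
      exact h1
    · have h1 := hC ((x + l + R - 1 / 2) / 2) ((x + l - R + 1 / 2) / 2) y (by linarith)
        (by linarith) (by linarith) (by linarith)
      have e1 : (x + l + R - 1 / 2) / 2 + (x + l - R + 1 / 2) / 2 = x + l := by ring
      have e2 : (x + l + R - 1 / 2) / 2 - (x + l - R + 1 / 2) / 2 = R - 1 / 2 := by ring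
      rw [e1, e2] at h1
      have h2 := h1 hzne
      have h3 : |x - l| < R - 1 / 2 := by
        rw [abs_lt]; constructor <;> linarith
      exact (mono hC y _ _ (abs_nonneg _) h3 (by linarith)).trans h2

end Pool.Agent.H220CDD
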