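import Pool.Agent.H220CDD.Stm

set_option autoImplicit false

open Polynomial

/-!
Degrees, parity and the base of the induction (MP_49a735_an).
-/

namespace Pool.Agent.H220CDD

namespace TDEG

theorem T_coeff (l : ℝ) (g : ℝ[X]) (n : ℕ) :
    (T l g).coeff n = (hasseDeriv n g).eval l - (hasseDeriv n g).eval (-l) := by
  unfold T
  rw [coeff_sub]
  have h1 : g.comp (X + C l) = taylor l g := (taylor_apply l g).symm
  have h2 : g.comp (X - C l) = taylor (-l) g := by
    rw [taylor_apply, C_neg, sub_eq_add_neg]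
  rw [h1, h2, taylor_coeff, taylor_coeff]

theorem coeff_top (l : ℝ) (g : ℝ[X]) (n : ℕ) (hn : g.natDegree ≤ n) : (T l g).coeff n = 0 := by
  rw [T_coeff]
  have h1 := natDegree_hasseDeriv_le g n
  have h2 : (hasseDeriv n g).natDegree ≤ 0 := by omega
  rw [eq_C_of_natDegree_le_zero h2, eval_C, eval_C, sub_self]

theorem coeff_next (l : ℝ) (g : ℝ[X]) (hg : 1 ≤ g.natDegree) :
    (T l g).coeff (g.natDegree - 1) = 2 * l * g.natDegree * g.leadingCoeff := by
  rw [T_coeff]
  have h1 := natDegree_hasseDeriv_le g (g.natDegree - 1)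
  have h2 : (hasseDeriv (g.natDegree - 1) g).natDegree ≤ 1 := by omega
  have h3 := eq_X_add_C_of_natDegree_le_one h2
  have h4 : (hasseDeriv (g.natDegree - 1) g).coeff 1 = g.natDegree * g.leadingCoeff := by
    rw [hasseDeriv_coeff, leadingCoeff]
    have e1 : 1 + (g.natDegree - 1) = g.natDegree := by omega
    rw [e1]
    congr 2
    obtain ⟨m, hm⟩ : ∃ m, g.natDegree = m + 1 := ⟨g.natDegree - 1, by omega⟩
    rw [hm]
    simp
  rw [h3]
  simp only [eval_add, eval_mul, eval_C, eval_X]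
  rw [h4]
  ring

theorem pN_eq (N : ℕ) : pN N =
    ∏ a ∈ (Finset.Icc (-(N : ℤ)) (N : ℤ)).map ⟨fun k : ℤ => (k : ℝ), Int.cast_injective⟩,
      (X - C a) := by
  unfold pN
  rw [Finset.prod_map]
  rfl

theorem pN_roots (N : ℕ) : (pN N).roots =
    ((Finset.Icc (-(N : ℤ)) (N : ℤ)).map ⟨fun k : ℤ => (k : ℝ), Int.cast_injective⟩).val := by
  rw [pN_eq, roots_prod_X_sub_C]

theorem card_Icc (N : ℕ) : (Finset.Icc (-(N : ℤ)) (N : ℤ)).card = 2 * N + 1 := by
  rw [Int.card_Icc]
  omega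

theorem pN_deg (N : ℕ) : (pN N).natDegree = 2 * N + 1 := by
  unfold pN
  rw [natDegree_prod_of_monic _ _ fun k _ => monic_X_sub_C _]
  simp only [natDegree_X_sub_C, Finset.sum_const, smul_eq_mul, mul_one]
  exact card_Icc N

theorem pN_monic (N : ℕ) : (pN N).Monic := monic_prod_of_monic _ _ fun k _ => monic_X_sub_C _

theorem pN_par (N : ℕ) : Par (pN N) := by
  refine ⟨2 * N + 1, ?_⟩
  unfold pN
  rw [Polynomial.prod_comp]
  have h1 : ∀ k : ℤ, (X - C (k : ℝ)).comp (-X) = (-1 : ℝ[X]) * (X - C ((-k : ℤ) : ℝ)) := by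
    intro k
    simp only [sub_comp, X_comp, C_comp]
    push_cast
    simp only [C_neg]
    ring
  rw [Finset.prod_congr rfl fun k _ => h1 k, Finset.prod_mul_distrib, Finset.prod_const, card_Icc]
  congr 1
  refine Finset.prod_bij' (fun k _ => -k) (fun k _ => -k) ?_ ?_ ?_ ?_ ?_
  · intro k hk
    rw [Finset.mem_Icc] at hk ⊢
    omega
  · intro k hk
    rw [Finset.mem_Icc] at hk ⊢
    omega
  · intro k _
    exact neg_neg k
  · intro k _
    exact neg_neg k
  · intro k _
    rfl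

end TDEG

open TDEG

theorem t_TDEG : S_TDEG := by
  intro g l hl hg
  have hlc : g.leadingCoeff ≠ 0 := by
    intro h
    rw [leadingCoeff_eq_zero] at h
    rw [h, natDegree_zero] at hg
    omega
  have h1 := coeff_next l g hg
  have hne : (T l g).coeff (g.natDegree - 1) ≠ 0 := by
    rw [h1]
    have : (g.natDegree : ℝ) ≠ 0 := by
      have : g.natDegree ≠ 0 := by omega
      exact_mod_cast this
    positivity
  have hle : (T l g).natDegree ≤ g.natDegree - 1 := by
    rw [natDegree_le_iff_coeff_eq_zero]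
    intro n hn
    exact coeff_top l g n (by omega)
  have hd := natDegree_eq_of_le_of_coeff_ne_zero hle hne
  refine ⟨hd, ?_⟩
  rw [leadingCoeff, hd, h1]

theorem t_TPAR : S_TPAR := by
  rintro g l ⟨e, he⟩
  refine ⟨e + 1, ?_⟩
  have h1 : (g.comp (X + C l)).comp (-X) = (-1) ^ e * g.comp (X - C l) := by
    have e1 : (g.comp (X + C l)).comp (-X) = (g.comp (-X)).comp (X - C l) := by
      rw [comp_assoc, comp_assoc]
      congr 1
      simp only [add_comp, X_comp, C_comp, neg_comp]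
      ring
    rw [e1, he, mul_comp, pow_comp]
    simp
  have h2 : (g.comp (X - C l)).comp (-X) = (-1) ^ e * g.comp (X + C l) := by
    have e1 : (g.comp (X - C l)).comp (-X) = (g.comp (-X)).comp (X + C l) := by
      rw [comp_assoc, comp_assoc]
      congr 1
      simp only [sub_comp, X_comp, C_comp, neg_comp]
      ring
    rw [e1, he, mul_comp, pow_comp]
    simp
  unfold T
  rw [sub_comp, h1, h2, pow_succ]
  ring

theorem t_J0 : S_J0 := by
  intro N t ht htN
  classical
  have h1 : Nge (pN N) t = ((Finset.Icc (-(N : ℤ)) (N : ℤ)).filter fun k : ℤ => t ≤ (k : ℝ)).card := by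
    unfold Nge
    rw [pN_roots]
    have h2 : Multiset.filter (fun r => t ≤ r)
        ((Finset.Icc (-(N : ℤ)) (N : ℤ)).map ⟨fun k : ℤ => (k : ℝ), Int.cast_injective⟩).val =
        (((Finset.Icc (-(N : ℤ)) (N : ℤ)).map
          ⟨fun k : ℤ => (k : ℝ), Int.cast_injective⟩).filter fun r => t ≤ r).val := by
      rw [Finset.filter_val]
    rw [h2]
    show (((Finset.Icc (-(N : ℤ)) (N : ℤ)).map
          ⟨fun k : ℤ => (k : ℝ), Int.cast_injective⟩).filter fun r => t ≤ r).card = _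
    rw [Finset.filter_map, Finset.card_map]
    rfl
  have h2 : ((Finset.Icc (-(N : ℤ)) (N : ℤ)).filter fun k : ℤ => t ≤ (k : ℝ)).card ≤
      (Finset.Icc ⌈t⌉ (N : ℤ)).card := by
    refine Finset.card_le_card fun k hk => ?_
    rw [Finset.mem_filter, Finset.mem_Icc] at hk
    rw [Finset.mem_Icc]
    exact ⟨Int.ceil_le.2 hk.2, hk.1.2⟩
  rw [Int.card_Icc] at h2
  have h3 : ⌈t⌉ ≤ (N : ℤ) + 1 := Int.ceil_le.2 (by push_cast; linarith)
  have h4 : (((N : ℤ) + 1 - ⌈t⌉).toNat : ℤ) = (N : ℤ) + 1 - ⌈t⌉ := Int.toNat_of_nonneg (by omega)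
  have h5 : ((((N : ℤ) + 1 - ⌈t⌉).toNat : ℕ) : ℝ) = (N : ℝ) + 1 - (⌈t⌉ : ℝ) := by
    exact_mod_cast h4
  have h6 : t ≤ (⌈t⌉ : ℝ) := Int.le_ceil t
  rw [h1]
  have h7 : ((((Finset.Icc (-(N : ℤ)) (N : ℤ)).filter fun k : ℤ => t ≤ (k : ℝ)).card : ℕ) : ℝ) ≤
      ((((N : ℤ) + 1 - ⌈t⌉).toNat : ℕ) : ℝ) := by
    exact_mod_cast h2
  linarith

theorem t_DEG : S_DEG := by
  intro l N n hl
  induction n with
  | zero =>
    intro _
    refine ⟨?_, ?_, ?_⟩
    · show (pN N).natDegree = _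
      rw [pN_deg]
      rfl
    · show 0 < (pN N).leadingCoeff
      rw [(pN_monic N).leadingCoeff]
      exact one_pos
    · exact pN_par N
  | succ n ih =>
    intro hn
    obtain ⟨h1, h2, h3⟩ := ih (by omega)
    have hf : f l N (n + 1) = T l (f l N n) := by
      unfold f
      rw [Function.iterate_succ_apply']
    obtain ⟨h4, h5⟩ := t_TDEG (f l N n) l hl.ne' (by omega)
    rw [hf]
    refine ⟨by rw [h4, h1]; omega, ?_, t_TPAR _ l h3⟩
    rw [h5]
    have : (0 : ℝ) < (f l N n).natDegree := by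
      have : 0 < (f l N n).natDegree := by omega
      exact_mod_cast this
    positivity

end Pool.Agent.H220CDD
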