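import Pool.Agent.H220CDD.Stm

set_option autoImplicit false

/-!
Project CDD: the analytic function without the pole.
-/

namespace Pool.Agent.H220CDD

namespace TF

theorem gamma_diff {s : ℂ} (h : 0 < s.re) : DifferentiableAt ℂ Complex.Gamma s := by
  refine Complex.differentiableAt_Gamma s ?_
  intro m hm
  rw [hm] at h
  simp at h
  have : (0 : ℝ) ≤ m := Nat.cast_nonneg m
  linarith

theorem G_diff (a : ℝ) (z : ℂ) (h : |z.re| < a) : DifferentiableAt ℂ (G a) z := by
  obtain ⟨h1, h2⟩ := abs_lt.1 h
  have g1 : DifferentiableAt ℂ (fun z : ℂ => Complex.Gamma (a + z)) z := by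
    have : DifferentiableAt ℂ Complex.Gamma ((a : ℂ) + z) := gamma_diff (by simp; linarith)
    exact this.comp z (by fun_prop)
  have g2 : DifferentiableAt ℂ (fun z : ℂ => Complex.Gamma (a - z)) z := by
    have : DifferentiableAt ℂ Complex.Gamma ((a : ℂ) - z) := gamma_diff (by simp; linarith)
    exact this.comp z (by fun_prop)
  have g3 : DifferentiableAt ℂ (fun z : ℂ => Complex.exp (Real.pi * Complex.I * z)) z := by
    fun_prop
  exact (g3.mul g1).mul g2

theorem U_diff (l a : ℝ) (hl : 0 ≤ l) (n : ℕ) : ∀ z : ℂ, |z.re| < a - n * l →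
    DifferentiableAt ℂ (U l a n) z := by
  induction n with
  | zero =>
    intro z hz
    have : U l a 0 = G a := rfl
    rw [this]
    exact G_diff a z (by simpa using hz)
  | succ n ih =>
    intro z hz
    push_cast at hz
    obtain ⟨h1, h2⟩ := abs_lt.1 hz
    have d1 : DifferentiableAt ℂ (U l a n) (z + l) := ih _ (by
      rw [abs_lt]; simp; constructor <;> linarith)
    have d2 : DifferentiableAt ℂ (U l a n) (z - l) := ih _ (by
      rw [abs_lt]; simp; constructor <;> linarith)
    have e1 : DifferentiableAt ℂ (fun z : ℂ => U l a n (z + l)) z := d1.comp z (by fun_prop)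
    have e2 : DifferentiableAt ℂ (fun z : ℂ => U l a n (z - l)) z := d2.comp z (by fun_prop)
    exact e1.sub e2

/-- `U` without the rightmost term -/
noncomputable def Rest (l a : ℝ) : ℕ → ℂ → ℂ
  | 0, _ => 0
  | n + 1, z => Rest l a n (z + l) - U l a n (z - l)

theorem U_eq (l a : ℝ) (n : ℕ) : ∀ z : ℂ, U l a n z = G a (z + n * l) + Rest l a n z := by
  induction n with
  | zero => intro z; simp [U, Rest]
  | succ n ih =>
    intro z
    change U l a n (z + l) - U l a n (z - l) = _ + (Rest l a n (z + l) - U l a n (z - l))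
    rw [ih (z + l)]
    have : z + (l : ℂ) + n * l = z + ((n + 1 : ℕ) : ℂ) * l := by push_cast; ring
    rw [this]
    ring

theorem Rest_diff (l a : ℝ) (hl : 0 ≤ l) (n : ℕ) : ∀ z : ℂ, -(a - n * l) < z.re →
    z.re < a - n * l + 2 * l → DifferentiableAt ℂ (Rest l a n) z := by
  induction n with
  | zero =>
    intro z _ _
    have : Rest l a 0 = fun _ => 0 := rfl
    rw [this]
    exact differentiableAt_const _
  | succ n ih =>
    intro z h1 h2
    push_cast at h1 h2
    have d1 : DifferentiableAt ℂ (Rest l a n) (z + l) := ih _ (by simp; linarith)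
      (by simp; linarith)
    have d2 : DifferentiableAt ℂ (U l a n) (z - l) := U_diff l a hl n _ (by
      rw [abs_lt]; simp; constructor <;> linarith)
    have e1 : DifferentiableAt ℂ (fun z : ℂ => Rest l a n (z + l)) z := d1.comp z (by fun_prop)
    have e2 : DifferentiableAt ℂ (fun z : ℂ => U l a n (z - l)) z := d2.comp z (by fun_prop)
    exact e1.sub e2

end TF

open TF in
theorem t_F : S_F := by
  intro l a n hl hR
  have hl0 : 0 ≤ l := by linarith
  set R := a - n * l with hRdef
  have hnl : 0 ≤ (n : ℝ) * l := mul_nonneg (Nat.cast_nonneg n) hl0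
  refine ⟨fun z => Complex.exp (Real.pi * Complex.I * (z + n * l)) *
    Complex.Gamma (a + (z + n * l)) + (Complex.Gamma ((R : ℂ) - z))⁻¹ * Rest l a n z, ?_, ?_⟩
  · intro z h1 h2
    constructor
    · have g1 : DifferentiableAt ℂ (fun z : ℂ => Complex.Gamma (a + (z + n * l))) z := by
        have : DifferentiableAt ℂ Complex.Gamma ((a : ℂ) + (z + n * l)) := gamma_diff (by
          simp; linarith)
        exact this.comp z (by fun_prop)
      have g3 : DifferentiableAt ℂ
          (fun z : ℂ => Complex.exp (Real.pi * Complex.I * (z + n * l))) z := by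
        fun_prop
      have g2 : DifferentiableAt ℂ (fun z : ℂ => (Complex.Gamma ((R : ℂ) - z))⁻¹) z := by
        have h3 : DifferentiableAt ℂ (fun s : ℂ => (Complex.Gamma s)⁻¹) ((R : ℂ) - z) :=
          Complex.differentiable_one_div_Gamma _
        exact h3.comp z (by fun_prop)
      exact (g3.mul g1).add (g2.mul (Rest_diff l a hl0 n z h1 (by linarith)))
    · intro hz
      have hG : Complex.Gamma ((R : ℂ) - z) ≠ 0 := by
        refine Complex.Gamma_ne_zero fun m hm => ?_
        rcases Nat.eq_zero_or_pos m with h0 | h0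
        · subst h0
          simp at hm
          exact hz (sub_eq_zero.1 hm).symm
        · have h3 := congrArg Complex.re hm
          simp at h3
          have h4 : (1 : ℝ) ≤ m := by exact_mod_cast h0
          linarith
      rw [U_eq, G]
      have e : (a : ℂ) - (z + n * l) = (R : ℂ) - z := by
        rw [hRdef]; push_cast; ring
      rw [e, add_mul, mul_assoc _ (Complex.Gamma ((R : ℂ) - z)), mul_inv_cancel₀ hG, mul_one,
        mul_comm (Rest l a n z)]
  · have ha : 0 < a := by linarith
    simp only [sub_self, Complex.Gamma_zero, inv_zero, zero_mul, add_zero]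
    refine mul_ne_zero (Complex.exp_ne_zero _) (Complex.Gamma_ne_zero_of_re_pos ?_)
    simp
    linarith

end Pool.Agent.H220CDD
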