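import Pool.Agent.H220CDD.Stm

set_option autoImplicit false

open Polynomial

namespace Pool.Agent.H220CDD

namespace TFRZ

/-- the operator of the frozen statement -/
noncomputable def Phi (l : ℝ) (f : ℂ → ℂ) (w : ℂ) : ℂ :=
  if l = 0 then deriv f w else (f (w + (l : ℂ)) - f (w - (l : ℂ))) / (2 * (l : ℂ))

noncomputable def P (N : ℕ) (w : ℂ) : ℂ := ∏ k ∈ Finset.Icc (-(N : ℤ)) (N : ℤ), (w - (k : ℂ))

lemma P_eq (N : ℕ) (w : ℂ) : P N w = aeval w (pN N) := by
  unfold P pN
  rw [map_prod]
  refine Finset.prod_congr rfl fun k _ => ?_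
  simp

lemma aeval_T (l : ℝ) (g : ℝ[X]) (w : ℂ) :
    aeval w (T l g) = aeval (w + (l : ℂ)) g - aeval (w - (l : ℂ)) g := by
  unfold T
  rw [map_sub, aeval_comp, aeval_comp]
  simp

lemma Phi_iter (l : ℝ) (hl : l ≠ 0) (N n : ℕ) (w : ℂ) :
    (Phi l)^[n] (P N) w = (1 / (2 * (l : ℂ))) ^ n * aeval w (f l N n) := by
  induction n generalizing w with
  | zero =>
    unfold f
    simp [P_eq]
  | succ n ih =>
    have hf : f l N (n + 1) = T l (f l N n) := by
      unfold f
      rw [Function.iterate_succ_apply']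
    rw [Function.iterate_succ_apply', hf, aeval_T]
    have h1 : Phi l ((Phi l)^[n] (P N)) w =
        ((Phi l)^[n] (P N) (w + (l : ℂ)) - (Phi l)^[n] (P N) (w - (l : ℂ))) / (2 * (l : ℂ)) := by
      unfold Phi
      rw [if_neg hl]
    rw [h1, ih, ih]
    ring

lemma Phi_neg (l : ℝ) (hl : l ≠ 0) : Phi l = Phi (-l) := by
  funext f w
  unfold Phi
  rw [if_neg hl, if_neg (neg_ne_zero.mpr hl)]
  have hl' : (l : ℂ) ≠ 0 := by exact_mod_cast hl
  push_cast
  have e1 : w + -(l : ℂ) = w - l := by ring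
  have e2 : w - -(l : ℂ) = w + l := by ring
  rw [e1, e2]
  field_simp
  ring

lemma Phi_zero : Phi 0 = deriv := by
  funext f w
  unfold Phi
  rw [if_pos rfl]

lemma deriv_iter (N n : ℕ) :
    (deriv)^[n] (P N) = fun w : ℂ => aeval w (derivative^[n] (pN N)) := by
  induction n with
  | zero =>
    funext w
    simp [P_eq]
  | succ n ih =>
    rw [Function.iterate_succ_apply', ih, Function.iterate_succ_apply']
    funext w
    exact Polynomial.deriv_aeval _

lemma pN_eq (N : ℕ) : pN N =
    (((Finset.Icc (-(N : ℤ)) (N : ℤ)).val.map (fun k : ℤ => (k : ℝ))).map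
      (fun a => X - C a)).prod := by
  unfold pN
  rw [Multiset.map_map]
  rfl

lemma pN_monic (N : ℕ) : (pN N).Monic := by
  unfold pN
  exact monic_prod_of_monic _ _ fun k _ => monic_X_sub_C _

lemma card_Icc (N : ℕ) : (Finset.Icc (-(N : ℤ)) (N : ℤ)).card = 2 * N + 1 := by
  rw [Int.card_Icc]
  omega

lemma pN_deg (N : ℕ) : (pN N).natDegree = 2 * N + 1 := by
  unfold pN
  rw [natDegree_prod_of_monic _ _ fun k _ => monic_X_sub_C _]
  simp only [natDegree_X_sub_C]
  rw [Finset.sum_const, card_Icc]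
  simp

lemma pN_roots (N : ℕ) : (pN N).roots.card = 2 * N + 1 := by
  rw [pN_eq, roots_multiset_prod_X_sub_C, Multiset.card_map]
  exact card_Icc N

lemma card_roots_iter (N n : ℕ) :
    2 * N + 1 ≤ (derivative^[n] (pN N)).roots.card + n := by
  induction n with
  | zero => simp [pN_roots]
  | succ n ih =>
    rw [Function.iterate_succ_apply']
    have := card_roots_le_derivative (derivative^[n] (pN N))
    omega

lemma iter_ne_zero (N n : ℕ) (hn : n ≤ 2 * N + 1) : derivative^[n] (pN N) ≠ 0 := by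
  intro h
  have h1 := congrArg (fun q : ℝ[X] => q.coeff (2 * N + 1 - n)) h
  simp only [coeff_zero] at h1
  rw [coeff_iterate_derivative, Nat.sub_add_cancel hn] at h1
  have h2 : (pN N).coeff (2 * N + 1) = 1 := by
    rw [← pN_deg N]
    exact pN_monic N
  rw [h2, nsmul_eq_mul, mul_one] at h1
  have h3 : (2 * N + 1).descFactorial n = 0 := by exact_mod_cast h1
  rw [Nat.descFactorial_eq_zero_iff_lt] at h3
  omega

lemma real_roots (N n : ℕ) (hn : n ≤ 2 * N + 1) (z : ℂ)
    (hz : aeval z (derivative^[n] (pN N)) = 0) : z.im = 0 := by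
  have h0 := iter_ne_zero N n hn
  have h1 := card_roots_iter N n
  have h2 : (derivative^[n] (pN N)).natDegree ≤ (pN N).natDegree - n :=
    natDegree_iterate_derivative _ _
  rw [pN_deg] at h2
  have h3 : (derivative^[n] (pN N)).roots.card = (derivative^[n] (pN N)).natDegree :=
    le_antisymm (card_roots' _) (by omega)
  have h4 := C_leadingCoeff_mul_prod_multiset_X_sub_C h3
  rw [← h4, map_mul, mul_eq_zero] at hz
  rcases hz with hz | hz
  · exfalso
    rw [aeval_C] at hz
    have : (derivative^[n] (pN N)).leadingCoeff = 0 := by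
      have := (algebraMap ℝ ℂ).injective (hz.trans (map_zero _).symm)
      exact this
    exact h0 (leadingCoeff_eq_zero.mp this)
  · rw [map_multiset_prod, Multiset.prod_eq_zero_iff, Multiset.mem_map] at hz
    obtain ⟨q, hq, hq0⟩ := hz
    rw [Multiset.mem_map] at hq
    obtain ⟨a, -, rfl⟩ := hq
    rw [map_sub, aeval_X, aeval_C, sub_eq_zero] at hq0
    rw [hq0]
    simp

end TFRZ

open TFRZ in
theorem t_FRZ : S_MAIN → S_FROZEN := by
  intro hmain N l n hn z hz hzim
  have hz' : (Phi l)^[n] (P N) z = 0 := hz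
  have key : ∀ l : ℝ, 0 < l → (Phi l)^[n] (P N) z = 0 → z.re = 0 := by
    intro l hl h
    rw [Phi_iter l hl.ne'] at h
    have hl' : (l : ℂ) ≠ 0 := by exact_mod_cast hl.ne'
    have h2 : aeval z (f l N n) = 0 := by
      rcases mul_eq_zero.mp h with h | h
      · exfalso
        exact pow_ne_zero n (one_div_ne_zero (mul_ne_zero two_ne_zero hl')) h
      · exact h
    rcases hmain l N n hl hn z h2 with h3 | h3
    · exact absurd h3 hzim
    · exact h3
  rcases lt_trichotomy l 0 with hl | hl | hl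
  · rw [Phi_neg l hl.ne] at hz'
    exact key (-l) (by linarith) hz'
  · subst hl
    exfalso
    rw [Phi_zero, deriv_iter] at hz'
    exact hzim (real_roots N n hn z hz')
  · exact key l hl hz'

end Pool.Agent.H220CDD
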