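import Pool.Agent.H220CDD.Stm

set_option autoImplicit false

/-! Growth bounds for the exponential polynomials `U l (m/2) n`. -/

namespace Pool.Agent.H220CDD

open Filter Topology Set Polynomial

namespace TGR

/-! ### Evaluation of polynomials in two variables -/

/-- evaluation at `(z, q)` -/
noncomputable def ev (z q : ℂ) : Polynomial (Polynomial ℂ) →+* ℂ :=
  Polynomial.eval₂RingHom (Polynomial.evalRingHom z) q

theorem ev_C (z q : ℂ) (P : Polynomial ℂ) : ev z q (C P) = P.eval z := by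
  simp [ev]

theorem ev_X (z q : ℂ) : ev z q X = q := by
  simp [ev]

/-- translation -/
noncomputable def tr (t w : ℂ) (B : Polynomial (Polynomial ℂ)) : Polynomial (Polynomial ℂ) :=
  (B.map (Polynomial.compRingHom (X + C t))).comp (C (C w) * X)

theorem ev_tr (z q t w : ℂ) (B : Polynomial (Polynomial ℂ)) :
    ev z q (tr t w B) = ev (z + t) (w * q) B := by
  have h : (Polynomial.evalRingHom z).comp (Polynomial.compRingHom (X + C t)) =
      Polynomial.evalRingHom (z + t) := by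
    refine Polynomial.ringHom_ext (fun a => ?_) ?_
    · simp
    · simp
  unfold ev tr
  simp only [Polynomial.coe_eval₂RingHom]
  rw [Polynomial.eval₂_comp, Polynomial.eval₂_map, h]
  simp

/-- polynomial growth -/
def Pg (g : ℂ → ℂ → ℂ) : Prop := ∃ C : ℝ, 0 ≤ C ∧ ∃ d : ℕ, ∀ z q, ‖g z q‖ ≤ C * (1 + ‖z‖ + ‖q‖) ^ d

theorem Pg.add {f g : ℂ → ℂ → ℂ} (hf : Pg f) (hg : Pg g) : Pg fun z q => f z q + g z q := by
  obtain ⟨C1, h1, d1, H1⟩ := hf
  obtain ⟨C2, h2, d2, H2⟩ := hg
  refine ⟨C1 + C2, by positivity, d1 + d2, fun z q => ?_⟩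
  have hb : 1 ≤ 1 + ‖z‖ + ‖q‖ := by linarith [norm_nonneg z, norm_nonneg q]
  have e1 : (1 + ‖z‖ + ‖q‖) ^ d1 ≤ (1 + ‖z‖ + ‖q‖) ^ (d1 + d2) := pow_le_pow_right₀ hb (by omega)
  have e2 : (1 + ‖z‖ + ‖q‖) ^ d2 ≤ (1 + ‖z‖ + ‖q‖) ^ (d1 + d2) := pow_le_pow_right₀ hb (by omega)
  calc ‖f z q + g z q‖ ≤ ‖f z q‖ + ‖g z q‖ := norm_add_le _ _
    _ ≤ C1 * (1 + ‖z‖ + ‖q‖) ^ d1 + C2 * (1 + ‖z‖ + ‖q‖) ^ d2 := add_le_add (H1 z q) (H2 z q)
    _ ≤ C1 * (1 + ‖z‖ + ‖q‖) ^ (d1 + d2) + C2 * (1 + ‖z‖ + ‖q‖) ^ (d1 + d2) :=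
        add_le_add (mul_le_mul_of_nonneg_left e1 h1) (mul_le_mul_of_nonneg_left e2 h2)
    _ = _ := by ring

theorem Pg.mul {f g : ℂ → ℂ → ℂ} (hf : Pg f) (hg : Pg g) : Pg fun z q => f z q * g z q := by
  obtain ⟨C1, h1, d1, H1⟩ := hf
  obtain ⟨C2, h2, d2, H2⟩ := hg
  refine ⟨C1 * C2, by positivity, d1 + d2, fun z q => ?_⟩
  rw [norm_mul]
  calc ‖f z q‖ * ‖g z q‖ ≤ (C1 * (1 + ‖z‖ + ‖q‖) ^ d1) * (C2 * (1 + ‖z‖ + ‖q‖) ^ d2) :=
        mul_le_mul (H1 z q) (H2 z q) (norm_nonneg _) (by positivity)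
    _ = _ := by rw [pow_add]; ring

theorem Pg.const (a : ℂ) : Pg fun _ _ => a :=
  ⟨‖a‖, norm_nonneg _, 0, fun z q => by rw [pow_zero, mul_one]⟩

theorem Pg.z : Pg fun z _ => z :=
  ⟨1, zero_le_one, 1, fun z q => by
    rw [pow_one, one_mul]
    linarith [norm_nonneg z, norm_nonneg q]⟩

theorem Pg.q : Pg fun _ q => q :=
  ⟨1, zero_le_one, 1, fun z q => by
    rw [pow_one, one_mul]
    linarith [norm_nonneg z, norm_nonneg q]⟩

theorem Pg.pow {f : ℂ → ℂ → ℂ} (hf : Pg f) (n : ℕ) : Pg fun z q => f z q ^ n := by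
  induction n with
  | zero => simpa using Pg.const 1
  | succ n ih =>
    have := ih.mul hf
    simpa only [pow_succ] using this

theorem Pg.eval (P : Polynomial ℂ) : Pg fun z _ => P.eval z := by
  induction P using Polynomial.induction_on' with
  | add p q hp hq =>
    have := hp.add hq
    simpa only [Polynomial.eval_add] using this
  | monomial n a =>
    have := (Pg.const a).mul (Pg.z.pow n)
    simpa only [Polynomial.eval_monomial] using this

theorem Pg.ev (B : Polynomial (Polynomial ℂ)) : Pg fun z q => TGR.ev z q B := by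
  induction B using Polynomial.induction_on' with
  | add p q hp hq =>
    have := hp.add hq
    simpa only [map_add] using this
  | monomial n a =>
    have := (Pg.eval a).mul (Pg.q.pow n)
    have e : ∀ z q : ℂ, TGR.ev z q (monomial n a) = a.eval z * q ^ n := by
      intro z q
      rw [← Polynomial.C_mul_X_pow_eq_monomial, map_mul, map_pow, ev_C, ev_X]
    simpa only [e] using this

/-- a nonzero polynomial is bounded below near infinity -/
theorem poly_low {P : Polynomial ℂ} (hP : P ≠ 0) : ∃ c R : ℝ, 0 < c ∧ ∀ z : ℂ, R ≤ ‖z‖ →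
    c ≤ ‖P.eval z‖ := by
  by_cases hd : 0 < P.degree
  · have h1 : Tendsto (fun z : ℂ => ‖P.eval z‖) (Bornology.cobounded ℂ) atTop :=
      P.tendsto_norm_atTop hd tendsto_norm_cobounded_atTop
    have h2 := h1.eventually (eventually_ge_atTop (1 : ℝ))
    rw [← comap_norm_atTop, eventually_comap, eventually_atTop] at h2
    obtain ⟨R, hR⟩ := h2
    exact ⟨1, R, one_pos, fun z hz => hR ‖z‖ hz z rfl⟩
  · have h1 : P = C (P.coeff 0) := Polynomial.eq_C_of_degree_le_zero (not_lt.1 hd)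
    have h2 : P.coeff 0 ≠ 0 := by
      intro h
      rw [h, C_0] at h1
      exact hP h1
    refine ⟨‖P.coeff 0‖, 0, norm_pos_iff.2 h2, fun z _ => ?_⟩
    rw [h1]
    simp

theorem norm_le_of_re {z : ℂ} {K : ℝ} (hz : |z.re| ≤ K) : ‖z‖ ≤ K + |z.im| :=
  (Complex.norm_le_abs_re_add_abs_im z).trans (by linarith)

/-- lower bound -/
theorem low {B : Polynomial (Polynomial ℂ)} (hB : B ≠ 0) (K : ℝ) : ∃ c k Y : ℝ,
    0 < c ∧ 0 < k ∧ 0 < Y ∧ ∀ z q : ℂ, |z.re| ≤ K → Y ≤ |z.im| →
      ‖q‖ = Real.exp (-(2 * Real.pi * |z.im|)) → c * Real.exp (-(k * |z.im|)) ≤ ‖ev z q B‖ := by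
  obtain ⟨B1, hB1, hnd⟩ := Polynomial.exists_eq_pow_rootMultiplicity_mul_and_not_dvd B hB 0
  rw [C_0, sub_zero] at hB1 hnd
  set j := B.rootMultiplicity 0 with hj
  have hP : B1.coeff 0 ≠ 0 := fun h => hnd (Polynomial.X_dvd_iff.2 h)
  have hB2 : B = X ^ j * (divX B1 * X + C (B1.coeff 0)) := by
    rw [Polynomial.divX_mul_X_add]
    exact hB1
  obtain ⟨c, R, hc, hR⟩ := poly_low hP
  obtain ⟨C1, hC1, d, hG⟩ := Pg.ev (divX B1)
  have hlim : Tendsto (fun y : ℝ => C1 * Real.exp (2 + K) * ((2 + K + y) ^ d * Real.exp (-(2 + K + y))))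
      atTop (𝓝 0) := by
    have h1 : Tendsto (fun y : ℝ => 2 + K + y) atTop atTop :=
      tendsto_atTop_add_const_left _ _ tendsto_id
    have h2 := (Real.tendsto_pow_mul_exp_neg_atTop_nhds_zero d).comp h1
    have h3 := h2.const_mul (C1 * Real.exp (2 + K))
    rw [mul_zero] at h3
    exact h3
  have hev := hlim.eventually (gt_mem_nhds (show (0 : ℝ) < c / 2 by positivity))
  obtain ⟨Y0, hY0⟩ := eventually_atTop.1 hev
  refine ⟨c / 2, 2 * Real.pi * (j + 1), max (max Y0 R) 1, by positivity, by positivity,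
    lt_of_lt_of_le one_pos (le_max_right _ _), fun z q hz hy hq => ?_⟩
  have hy1 : 1 ≤ |z.im| := (le_max_right _ _).trans hy
  have hy2 : Y0 ≤ |z.im| := ((le_max_left _ _).trans (le_max_left _ _)).trans hy
  have hy3 : R ≤ |z.im| := ((le_max_right _ _).trans (le_max_left _ _)).trans hy
  have hq1 : ‖q‖ ≤ 1 := by
    rw [hq, Real.exp_le_one_iff]
    have : 0 ≤ 2 * Real.pi * |z.im| := by positivity
    linarith
  have hzn := norm_le_of_re hz
  have e1 : ‖ev z q (divX B1)‖ * ‖q‖ ≤ c / 2 := by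
    have e2 := hG z q
    have e3 : (1 + ‖z‖ + ‖q‖) ^ d ≤ (2 + K + |z.im|) ^ d :=
      pow_le_pow_left₀ (by positivity) (by linarith) d
    have e4 : ‖q‖ ≤ Real.exp (2 + K) * Real.exp (-(2 + K + |z.im|)) := by
      rw [hq, ← Real.exp_add, Real.exp_le_exp]
      have := Real.pi_gt_three
      have := abs_nonneg z.im
      nlinarith
    have e5 := (hY0 |z.im| hy2).le
    have e6 : (0 : ℝ) ≤ (2 + K + |z.im|) ^ d := le_trans (by positivity) e3
    calc ‖ev z q (divX B1)‖ * ‖q‖ ≤ (C1 * (2 + K + |z.im|) ^ d) *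
          (Real.exp (2 + K) * Real.exp (-(2 + K + |z.im|))) :=
          mul_le_mul (e2.trans (mul_le_mul_of_nonneg_left e3 hC1)) e4 (norm_nonneg _)
            (mul_nonneg hC1 e6)
      _ = C1 * Real.exp (2 + K) * ((2 + K + |z.im|) ^ d * Real.exp (-(2 + K + |z.im|))) := by ring
      _ ≤ c / 2 := e5
  have e7 : c ≤ ‖(B1.coeff 0).eval z‖ := hR z (hy3.trans (Complex.abs_im_le_norm z))
  have e8 : ev z q B = q ^ j * (ev z q (divX B1) * q + (B1.coeff 0).eval z) := by
    conv_lhs => rw [hB2]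
    rw [map_mul, map_pow, map_add, map_mul, ev_C, ev_X]
  have e9 : c / 2 ≤ ‖ev z q (divX B1) * q + (B1.coeff 0).eval z‖ := by
    have h1 : ‖(B1.coeff 0).eval z‖ ≤ ‖ev z q (divX B1) * q + (B1.coeff 0).eval z‖ +
        ‖ev z q (divX B1) * q‖ := by
      have := norm_sub_le (ev z q (divX B1) * q + (B1.coeff 0).eval z) (ev z q (divX B1) * q)
      rw [add_sub_cancel_left] at this
      exact this
    rw [norm_mul] at h1
    linarith
  rw [e8, norm_mul, norm_pow, hq, ← Real.exp_nat_mul, mul_comm]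
  refine mul_le_mul ?_ e9 (by positivity) (Real.exp_nonneg _)
  rw [Real.exp_le_exp]
  have : 0 ≤ 2 * Real.pi * |z.im| := by positivity
  nlinarith

/-! ### The exponential -/

/-- `exp(-2 π i z)` -/
noncomputable def Q (z : ℂ) : ℂ := Complex.exp (-(2 * Real.pi * Complex.I * z))

theorem norm_Q (z : ℂ) : ‖Q z‖ = Real.exp (2 * Real.pi * z.im) := by
  unfold Q
  rw [Complex.norm_exp]
  congr 1
  simp

theorem Q_ne (z : ℂ) : Q z ≠ 0 := Complex.exp_ne_zero _

theorem Q_add (z : ℂ) (t : ℝ) : Q (z + t) = Q t * Q z := by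
  unfold Q
  rw [← Complex.exp_add]
  congr 1
  ring

theorem norm_Q_real (t : ℝ) : ‖Q t‖ = 1 := by
  rw [norm_Q]
  simp

theorem norm_Q_ne {z : ℂ} (hz : z.im ≠ 0) : ‖Q z‖ ≠ 1 := by
  rw [norm_Q]
  intro h
  rw [Real.exp_eq_one_iff] at h
  have := Real.pi_pos
  rcases mul_eq_zero.1 h with h | h
  · linarith
  · exact hz h

/-- the denominators -/
noncomputable def pL (L : List ℂ) (q : ℂ) : ℂ := (L.map fun w => 1 - w * q).prod

/-- the denominators as polynomials -/
noncomputable def pP (L : List ℂ) : Polynomial (Polynomial ℂ) :=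
  (L.map fun w => 1 - C (C w) * X).prod

theorem ev_pP (z q : ℂ) (L : List ℂ) : ev z q (pP L) = pL L q := by
  induction L with
  | nil => simp [pP, pL]
  | cons a L ih =>
    unfold pP pL at *
    rw [List.map_cons, List.prod_cons, List.map_cons, List.prod_cons, map_mul, ih, map_sub,
      map_one, map_mul, ev_C, ev_X, eval_C]

theorem pL_append (L L' : List ℂ) (q : ℂ) : pL (L ++ L') q = pL L q * pL L' q := by
  unfold pL
  rw [List.map_append, List.prod_append]

theorem pL_tr (L : List ℂ) (w q : ℂ) : pL (L.map fun v => v * w) q = pL L (w * q) := by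
  unfold pL
  rw [List.map_map]
  congr 1
  refine List.map_congr_left fun v _ => ?_
  simp only [Function.comp_apply]
  ring

theorem pL_ne {L : List ℂ} (hL : ∀ w ∈ L, ‖w‖ = 1) {q : ℂ} (hq : ‖q‖ ≠ 1) : pL L q ≠ 0 := by
  unfold pL
  intro h
  rw [List.prod_eq_zero_iff, List.mem_map] at h
  obtain ⟨w, hw, h1⟩ := h
  have h2 : w * q = 1 := (sub_eq_zero.1 h1).symm
  have h3 : ‖w * q‖ = 1 := by rw [h2, norm_one]
  rw [norm_mul, hL w hw, one_mul] at h3
  exact hq h3

theorem pL_le {L : List ℂ} (hL : ∀ w ∈ L, ‖w‖ = 1) (q : ℂ) : ‖pL L q‖ ≤ (1 + ‖q‖) ^ L.length := by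
  induction L with
  | nil => simp [pL]
  | cons a L ih =>
    have h1 := ih fun w hw => hL w (List.mem_cons_of_mem _ hw)
    have h2 : pL (a :: L) q = (1 - a * q) * pL L q := by
      unfold pL
      rw [List.map_cons, List.prod_cons]
    rw [h2, norm_mul, List.length_cons, pow_succ, mul_comm]
    refine mul_le_mul h1 ?_ (norm_nonneg _) (by positivity)
    refine (norm_sub_le _ _).trans ?_
    rw [norm_one, norm_mul, hL a (List.mem_cons_self), one_mul]

theorem pL_ge {L : List ℂ} (hL : ∀ w ∈ L, ‖w‖ = 1) {q : ℂ} (hq : ‖q‖ ≤ 1 / 2 ∨ 2 ≤ ‖q‖) :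
    (1 / 2) ^ L.length ≤ ‖pL L q‖ := by
  induction L with
  | nil => simp [pL]
  | cons a L ih =>
    have h1 := ih fun w hw => hL w (List.mem_cons_of_mem _ hw)
    have h2 : pL (a :: L) q = (1 - a * q) * pL L q := by
      unfold pL
      rw [List.map_cons, List.prod_cons]
    rw [h2, norm_mul, List.length_cons, pow_succ, mul_comm (‖1 - a * q‖)]
    refine mul_le_mul h1 ?_ (by norm_num) (norm_nonneg _)
    have h3 : ‖a * q‖ = ‖q‖ := by rw [norm_mul, hL a (List.mem_cons_self), one_mul]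
    rcases hq with hq | hq
    · have := norm_sub_norm_le (1 : ℂ) (a * q)
      rw [norm_one, h3] at this
      linarith
    · have := norm_sub_norm_le (a * q) (1 : ℂ)
      rw [norm_one, h3, norm_sub_rev] at this
      linarith

/-! ### Good functions -/

/-- rational functions of `z` and `Q z` with denominators as above -/
def Good (h : ℂ → ℂ) : Prop := ∃ (L : List ℂ) (B : Polynomial (Polynomial ℂ)),
  (∀ w ∈ L, ‖w‖ = 1) ∧ ∀ z : ℂ, z.im ≠ 0 → h z * pL L (Q z) = ev z (Q z) B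

theorem Good.tr {h : ℂ → ℂ} (hh : Good h) (t : ℝ) : Good fun z => h (z + t) := by
  obtain ⟨L, B, hL, H⟩ := hh
  refine ⟨L.map fun v => v * Q t, TGR.tr t (Q t) B, fun w hw => ?_, fun z hz => ?_⟩
  · obtain ⟨v, hv, rfl⟩ := List.mem_map.1 hw
    rw [norm_mul, hL v hv, norm_Q_real, one_mul]
  · have h1 : (z + t).im ≠ 0 := by simpa using hz
    rw [pL_tr, ev_tr, ← Q_add]
    exact H (z + t) h1

theorem Good.sub {f g : ℂ → ℂ} (hf : Good f) (hg : Good g) : Good fun z => f z - g z := by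
  obtain ⟨L1, B1, hL1, H1⟩ := hf
  obtain ⟨L2, B2, hL2, H2⟩ := hg
  refine ⟨L1 ++ L2, B1 * pP L2 - B2 * pP L1, fun w hw => ?_, fun z hz => ?_⟩
  · rcases List.mem_append.1 hw with h | h
    · exact hL1 w h
    · exact hL2 w h
  · rw [pL_append, map_sub, map_mul, map_mul, ev_pP, ev_pP, ← H1 z hz, ← H2 z hz]
    ring

theorem Good.mulP {f : ℂ → ℂ} (hf : Good f) (P : Polynomial ℂ) : Good fun z => P.eval z * f z := by
  obtain ⟨L1, B1, hL1, H1⟩ := hf
  refine ⟨L1, C P * B1, hL1, fun z hz => ?_⟩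
  rw [map_mul, ev_C, ← H1 z hz]
  ring

theorem Good.congr {f g : ℂ → ℂ} (hf : Good f) (h : ∀ z : ℂ, z.im ≠ 0 → g z = f z) : Good g := by
  obtain ⟨L1, B1, hL1, H1⟩ := hf
  exact ⟨L1, B1, hL1, fun z hz => by rw [h z hz]; exact H1 z hz⟩

theorem good_half : Good (G (1 / 2)) := by
  refine ⟨[-1], C (C (2 * Real.pi)), by simp, fun z hz => ?_⟩
  rw [ev_C, eval_C]
  have h0 : 1 + Q z ≠ 0 := by
    intro h
    apply norm_Q_ne hz
    have : Q z = -1 := by linear_combination h
    rw [this]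
    simp
  have e1 : Complex.Gamma (((1 / 2 : ℝ) : ℂ) + z) * Complex.Gamma (((1 / 2 : ℝ) : ℂ) - z) =
      Real.pi / Complex.cos (Real.pi * z) := by
    have := Complex.Gamma_mul_Gamma_one_sub (1 / 2 + z)
    have e2 : 1 - (1 / 2 + z) = 1 / 2 - z := by ring
    have e3 : (Real.pi : ℂ) * (1 / 2 + z) = Real.pi * z + Real.pi / 2 := by ring
    rw [e2, e3, Complex.sin_add_pi_div_two] at this
    push_cast
    exact this
  have e4 : 2 * Complex.cos (Real.pi * z) = Complex.exp (Real.pi * Complex.I * z) * (1 + Q z) := by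
    rw [Complex.two_cos, mul_add, mul_one, Q, ← Complex.exp_add]
    congr 1
    · congr 1
      ring
    · congr 1
      ring
  have h1 : Complex.cos (Real.pi * z) ≠ 0 := by
    intro h
    rw [h, mul_zero] at e4
    exact mul_ne_zero (Complex.exp_ne_zero _) h0 e4.symm
  have e5 : pL [-1] (Q z) = 1 + Q z := by simp [pL]
  rw [e5]
  unfold G
  rw [mul_assoc (Complex.exp _), e1]
  calc Complex.exp (Real.pi * Complex.I * z) * (Real.pi / Complex.cos (Real.pi * z)) * (1 + Q z)
      = (Complex.exp (Real.pi * Complex.I * z) * (1 + Q z)) * (Real.pi / Complex.cos (Real.pi * z)) := by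
        ring
    _ = 2 * Complex.cos (Real.pi * z) * (Real.pi / Complex.cos (Real.pi * z)) := by rw [e4]
    _ = 2 * Real.pi := by field_simp

theorem good_one : Good (G 1) := by
  refine ⟨[1], C (C (2 * Real.pi * Complex.I) * X), by simp, fun z hz => ?_⟩
  rw [ev_C, eval_mul, eval_C, eval_X]
  have h0 : 1 - Q z ≠ 0 := by
    intro h
    apply norm_Q_ne hz
    have : Q z = 1 := by linear_combination -h
    rw [this]
    simp
  have hz0 : z ≠ 0 := by
    rintro rfl
    simp at hz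
  have e1 : Complex.Gamma (((1 : ℝ) : ℂ) + z) * Complex.Gamma (((1 : ℝ) : ℂ) - z) =
      z * (Real.pi / Complex.sin (Real.pi * z)) := by
    rw [← Complex.Gamma_mul_Gamma_one_sub, Complex.ofReal_one, add_comm, Complex.Gamma_add_one _ hz0,
      mul_assoc]
  have e4 : 2 * Complex.sin (Real.pi * z) * Complex.I =
      Complex.exp (Real.pi * Complex.I * z) * (1 - Q z) := by
    have e6 : Complex.exp (Real.pi * Complex.I * z) * Q z = Complex.exp (-(Real.pi * z) * Complex.I) := by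
      rw [Q, ← Complex.exp_add]
      congr 1
      ring
    have e7 : Complex.exp (Real.pi * Complex.I * z) = Complex.exp (Real.pi * z * Complex.I) := by
      congr 1
      ring
    rw [Complex.two_sin, mul_sub, mul_one, e6, e7]
    linear_combination (Complex.exp (-(Real.pi * z) * Complex.I) -
      Complex.exp (Real.pi * z * Complex.I)) * Complex.I_mul_I
  have h1 : Complex.sin (Real.pi * z) ≠ 0 := by
    intro h
    rw [h, mul_zero, zero_mul] at e4
    exact mul_ne_zero (Complex.exp_ne_zero _) h0 e4.symm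
  have e5 : pL [1] (Q z) = 1 - Q z := by simp [pL]
  rw [e5]
  unfold G
  rw [mul_assoc (Complex.exp _), e1]
  calc Complex.exp (Real.pi * Complex.I * z) * (z * (Real.pi / Complex.sin (Real.pi * z))) * (1 - Q z)
      = (Complex.exp (Real.pi * Complex.I * z) * (1 - Q z)) *
        (z * (Real.pi / Complex.sin (Real.pi * z))) := by ring
    _ = 2 * Complex.sin (Real.pi * z) * Complex.I *
        (z * (Real.pi / Complex.sin (Real.pi * z))) := by rw [e4]
    _ = 2 * Real.pi * Complex.I * z := by field_simp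

theorem good_step (a : ℝ) (h : Good (G a)) : Good (G (a + 1)) := by
  refine (h.mulP ((C (a : ℂ) + X) * (C (a : ℂ) - X))).congr fun z hz => ?_
  have h1 : (a : ℂ) + z ≠ 0 := by
    intro h
    have := congrArg Complex.im h
    simp at this
    exact hz this
  have h2 : (a : ℂ) - z ≠ 0 := by
    intro h
    have := congrArg Complex.im h
    simp at this
    exact hz this
  unfold G
  have e1 : ((a + 1 : ℝ) : ℂ) + z = (a : ℂ) + z + 1 := by
    push_cast
    ring
  have e2 : ((a + 1 : ℝ) : ℂ) - z = (a : ℂ) - z + 1 := by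
    push_cast
    ring
  rw [e1, e2, Complex.Gamma_add_one _ h1, Complex.Gamma_add_one _ h2]
  simp only [eval_mul, eval_add, eval_sub, eval_C, eval_X]
  ring

theorem good_G : ∀ m : ℕ, Good (G (((m + 1 : ℕ) : ℝ) / 2))
  | 0 => by
    have : ((0 + 1 : ℕ) : ℝ) / 2 = 1 / 2 := by norm_num
    rw [this]
    exact good_half
  | 1 => by
    have : ((1 + 1 : ℕ) : ℝ) / 2 = 1 := by norm_num
    rw [this]
    exact good_one
  | m + 2 => by
    have : ((m + 2 + 1 : ℕ) : ℝ) / 2 = ((m + 1 : ℕ) : ℝ) / 2 + 1 := by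
      push_cast
      ring
    rw [this]
    exact good_step _ (good_G m)

theorem good_U (l a : ℝ) (h : Good (G a)) (n : ℕ) : Good (U l a n) := by
  induction n with
  | zero => exact h
  | succ n ih =>
    refine ((ih.tr l).sub (ih.tr (-l))).congr fun z _ => ?_
    push_cast
    rfl

end TGR

open TGR in
theorem t_GR : S_GR := by
  intro l m n hm hne K
  obtain ⟨m, rfl⟩ : ∃ m', m = m' + 1 := ⟨m - 1, by omega⟩
  obtain ⟨L, B, hL, H⟩ := good_U l _ (good_G m) n
  generalize U l (((m + 1 : ℕ) : ℝ) / 2) n = u at hne H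
  have hB : B ≠ 0 := by
    rintro rfl
    obtain ⟨z, hz, h1⟩ := hne
    have := H z hz
    rw [map_zero] at this
    exact mul_ne_zero h1 (pL_ne hL (norm_Q_ne hz)) this
  obtain ⟨c1, k1, Y1, hc1, hk1, hY1, low1⟩ := low hB K
  obtain ⟨c2, k2, Y2, hc2, hk2, hY2, low2⟩ := low (B := B.reverse)
    (by rwa [Ne, Polynomial.reverse_eq_zero]) K
  obtain ⟨C0, hC0, d, hG⟩ := Pg.ev B
  have hpi := Real.pi_gt_three
  set r := L.length with hr
  -- the lower bound for the numerator
  have hlow : ∀ z : ℂ, |z.re| ≤ K → max Y1 Y2 ≤ |z.im| →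
      min c1 c2 * Real.exp (-((k1 + k2) * |z.im|)) ≤ ‖ev z (Q z) B‖ := by
    intro z hz hy
    have hy0 : 0 < |z.im| := lt_of_lt_of_le hY1 ((le_max_left _ _).trans hy)
    rcases lt_or_ge z.im 0 with hi | hi
    · have h1 := low1 z (Q z) hz ((le_max_left _ _).trans hy) (by
        rw [norm_Q, abs_of_neg hi]
        congr 1
        ring)
      refine le_trans (mul_le_mul (min_le_left _ _) ?_ (Real.exp_nonneg _) hc1.le) h1
      rw [Real.exp_le_exp]
      nlinarith
    · have h1 := low2 z (Q z)⁻¹ hz ((le_max_right _ _).trans hy) (by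
        rw [norm_inv, norm_Q, abs_of_nonneg hi, ← Real.exp_neg])
      have h2 : ‖ev z (Q z)⁻¹ B.reverse‖ ≤ ‖ev z (Q z) B‖ := by
        let _ : Invertible (Q z) := invertibleOfNonzero (Q_ne z)
        have h3 := Polynomial.eval₂_reverse_mul_pow (Polynomial.evalRingHom z) (Q z) B
        rw [invOf_eq_inv] at h3
        have h4 : ev z (Q z) B = ev z (Q z)⁻¹ B.reverse * Q z ^ B.natDegree := h3.symm
        rw [h4, norm_mul, norm_pow]
        refine le_mul_of_one_le_right (norm_nonneg _) (one_le_pow₀ ?_)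
        rw [norm_Q]
        exact Real.one_le_exp (by positivity)
      refine le_trans (mul_le_mul (min_le_right _ _) ?_ (Real.exp_nonneg _) hc2.le) (h1.trans h2)
      rw [Real.exp_le_exp]
      nlinarith
  refine ⟨min c1 c2 / 2 ^ r, C0 * (|K| + 3) ^ d * 2 ^ r + 1, k1 + k2 + 2 * Real.pi * r + 2 * Real.pi * d,
    max (max Y1 Y2) 1, by positivity, by positivity, by positivity,
    lt_of_lt_of_le one_pos (le_max_right _ _), fun z hz hy => ?_⟩
  have hy1 : 1 ≤ |z.im| := (le_max_right _ _).trans hy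
  have hy2 : max Y1 Y2 ≤ |z.im| := (le_max_left _ _).trans hy
  have hz0 : z.im ≠ 0 := by
    intro h
    rw [h, abs_zero] at hy1
    linarith
  have hQ1 : ‖Q z‖ ≤ Real.exp (2 * Real.pi * |z.im|) := by
    rw [norm_Q, Real.exp_le_exp]
    exact mul_le_mul_of_nonneg_left (le_abs_self _) (by positivity)
  have hQ2 : ‖Q z‖ ≤ 1 / 2 ∨ 2 ≤ ‖Q z‖ := by
    rw [norm_Q]
    have h1 : 2 ≤ Real.exp 1 := by
      have := Real.add_one_le_exp (1 : ℝ)
      linarith
    rcases lt_or_ge z.im 0 with hi | hi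
    · left
      rw [abs_of_neg hi] at hy1
      have h2 : Real.exp (2 * Real.pi * z.im) ≤ Real.exp (-1) := by
        rw [Real.exp_le_exp]
        nlinarith
      refine h2.trans ?_
      rw [Real.exp_neg, one_div]
      exact inv_anti₀ (by norm_num) h1
    · right
      rw [abs_of_nonneg hi] at hy1
      refine h1.trans ?_
      rw [Real.exp_le_exp]
      nlinarith
  have hP1 := pL_ge hL hQ2
  have hP2 := pL_le hL (Q z)
  rw [← hr] at hP1 hP2
  have hP0 : 0 < ‖pL L (Q z)‖ := lt_of_lt_of_le (by positivity) hP1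
  have hEq : ‖u z‖ * ‖pL L (Q z)‖ = ‖ev z (Q z) B‖ := by
    rw [← norm_mul, H z hz0]
  set y := |z.im| with hyd
  have hy0 : 0 ≤ y := by linarith
  have hE1 : 1 ≤ Real.exp (2 * Real.pi * y) := Real.one_le_exp (by positivity)
  have hP3 : ‖pL L (Q z)‖ ≤ 2 ^ r * Real.exp (2 * Real.pi * r * y) := by
    refine hP2.trans ?_
    have : (1 + ‖Q z‖) ^ r ≤ (2 * Real.exp (2 * Real.pi * y)) ^ r :=
      pow_le_pow_left₀ (by positivity) (by linarith) r
    refine this.trans (le_of_eq ?_)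
    rw [mul_pow, ← Real.exp_nat_mul]
    congr 2
    ring
  constructor
  · have h1 := hlow z hz hy2
    rw [← hEq] at h1
    have h2 : min c1 c2 * Real.exp (-((k1 + k2) * y)) ≤
        ‖u z‖ * (2 ^ r * Real.exp (2 * Real.pi * r * y)) :=
      h1.trans (mul_le_mul_of_nonneg_left hP3 (norm_nonneg _))
    have h3 : min c1 c2 / 2 ^ r * Real.exp (-((k1 + k2) * y)) * Real.exp (-(2 * Real.pi * r * y)) ≤
        ‖u z‖ := by
      rw [Real.exp_neg (2 * Real.pi * r * y), ← div_eq_mul_inv, div_le_iff₀ (Real.exp_pos _),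
        div_mul_eq_mul_div, div_le_iff₀ (by positivity)]
      linarith
    refine le_trans ?_ h3
    rw [mul_assoc (min c1 c2 / 2 ^ r), ← Real.exp_add]
    refine mul_le_mul_of_nonneg_left ?_ (by positivity)
    rw [Real.exp_le_exp]
    have : 0 ≤ 2 * Real.pi * d * y := by positivity
    nlinarith
  · have h1 : ‖u z‖ * (1 / 2) ^ r ≤ ‖ev z (Q z) B‖ := by
      rw [← hEq]
      exact mul_le_mul_of_nonneg_left hP1 (norm_nonneg _)
    have h2 : ‖ev z (Q z) B‖ ≤ C0 * ((|K| + 3) * Real.exp (2 * Real.pi * y)) ^ d := by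
      refine (hG z (Q z)).trans (mul_le_mul_of_nonneg_left (pow_le_pow_left₀ (by positivity) ?_ d) hC0)
      have h3 := norm_le_of_re hz
      rw [← hyd] at h3
      have h4 : y ≤ Real.exp (2 * Real.pi * y) := by
        have := Real.add_one_le_exp (2 * Real.pi * y)
        nlinarith
      have h5 : K ≤ |K| * Real.exp (2 * Real.pi * y) :=
        (le_abs_self K).trans (le_mul_of_one_le_right (abs_nonneg K) hE1)
      nlinarith
    have h3 : ‖u z‖ ≤ 2 ^ r * (C0 * ((|K| + 3) * Real.exp (2 * Real.pi * y)) ^ d) := by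
      have h4 := h1.trans h2
      have h5 : (0 : ℝ) < 2 ^ r := by positivity
      rw [one_div, inv_pow, ← div_eq_mul_inv, div_le_iff₀ h5] at h4
      linarith
    refine h3.trans ?_
    have h4 : 2 ^ r * (C0 * ((|K| + 3) * Real.exp (2 * Real.pi * y)) ^ d) =
        C0 * (|K| + 3) ^ d * 2 ^ r * Real.exp (2 * Real.pi * d * y) := by
      rw [mul_pow, ← Real.exp_nat_mul]
      have : (d : ℝ) * (2 * Real.pi * y) = 2 * Real.pi * d * y := by ring
      rw [this]
      ring
    rw [h4]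
    refine mul_le_mul (by linarith) ?_ (Real.exp_nonneg _) (by positivity)
    rw [Real.exp_le_exp]
    have : 0 ≤ 2 * Real.pi * r * y := by positivity
    nlinarith

end Pool.Agent.H220CDD
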