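import Pool.Agent.H220CDD.Stm

set_option autoImplicit false

/-!
The Hermite-Biehler type count.
-/

namespace Pool.Agent.H220CDD

namespace THB

open Polynomial Filter Topology

/-- polar form of a nonzero real part -/
theorem polar (a b : ℝ) (ha : a ≠ 0) :
    (a : ℂ) + b * Complex.I = ((a * Real.sqrt (1 + (b / a) ^ 2) : ℝ) : ℂ) *
      Complex.exp ((Real.arctan (b / a) : ℝ) * Complex.I) := by
  have hpos : 0 < Real.sqrt (1 + (b / a) ^ 2) := Real.sqrt_pos.2 (by positivity)
  rw [Complex.exp_mul_I, ← Complex.ofReal_cos, ← Complex.ofReal_sin, Real.cos_arctan,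
    Real.sin_arctan]
  apply Complex.ext
  · simp
    field_simp
  · simp
    field_simp

theorem tend_pos (a c : ℝ) (ha : 0 < a) :
    Tendsto (fun y : ℝ => Real.arctan ((y - c) / a)) atTop (𝓝 (Real.pi / 2)) ∧
    Tendsto (fun y : ℝ => Real.arctan ((y - c) / a)) atBot (𝓝 (-(Real.pi / 2))) := by
  constructor
  · have h1 : Tendsto (fun y : ℝ => (y - c) / a) atTop atTop :=
      (tendsto_atTop_add_const_right _ (-c) tendsto_id).atTop_div_const ha
    exact (Real.tendsto_arctan_atTop.mono_right nhdsWithin_le_nhds).comp h1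
  · have h1 : Tendsto (fun y : ℝ => (y - c) / a) atBot atBot :=
      (tendsto_atBot_add_const_right _ (-c) tendsto_id).atBot_div_const ha
    exact (Real.tendsto_arctan_atBot.mono_right nhdsWithin_le_nhds).comp h1

theorem tend_neg (a c : ℝ) (ha : a < 0) :
    Tendsto (fun y : ℝ => Real.arctan ((y - c) / a)) atTop (𝓝 (-(Real.pi / 2))) ∧
    Tendsto (fun y : ℝ => Real.arctan ((y - c) / a)) atBot (𝓝 (Real.pi / 2)) := by
  have h := tend_pos (-a) c (by linarith)
  have e : ∀ y : ℝ, Real.arctan ((y - c) / a) = -Real.arctan ((y - c) / (-a)) := by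
    intro y
    rw [div_neg, Real.arctan_neg, neg_neg]
  constructor
  · refine (h.1.neg).congr (fun y => ?_)
    rw [e]
  · have h2 := h.2.neg
    rw [neg_neg] at h2
    refine h2.congr (fun y => ?_)
    rw [e]

open Classical in
theorem prod_arg (l : ℝ) (Z : Multiset ℂ) (hZ : ∀ z ∈ Z, z.re = l → z.im = 0) :
    ∃ Φ ρ : ℝ → ℝ, Continuous Φ ∧
      Tendsto Φ atTop (𝓝 (Real.pi / 2 * ((Z.countP (fun z => z.re < l) : ℝ) -
        (Z.countP (fun z => l < z.re) : ℝ)))) ∧
      Tendsto Φ atBot (𝓝 (-(Real.pi / 2 * ((Z.countP (fun z => z.re < l) : ℝ) -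
        (Z.countP (fun z => l < z.re) : ℝ))))) ∧
      ∀ y : ℝ, (Z.map (fun z => (l : ℂ) + y * Complex.I - z)).prod =
        Complex.I ^ (Z.countP (fun z => z.re = l)) * (ρ y : ℂ) * Complex.exp (Φ y * Complex.I) := by
  induction Z using Multiset.induction_on with
  | empty =>
    refine ⟨fun _ => 0, fun _ => 1, continuous_const, ?_, ?_, fun y => ?_⟩
    · simp
    · simp
    · simp
  | cons z Z ih =>
    obtain ⟨Φ, ρ, h1, h2, h3, h4⟩ := ih (fun w hw => hZ w (Multiset.mem_cons_of_mem hw))
    have hcont : Continuous (fun y : ℝ => Real.arctan ((y - z.im) / (l - z.re))) :=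
      Real.continuous_arctan.comp ((continuous_id.sub continuous_const).div_const _)
    have hz : ∀ y : ℝ, (l : ℂ) + y * Complex.I - z =
        ((l - z.re : ℝ) : ℂ) + ((y - z.im : ℝ) : ℂ) * Complex.I := by
      intro y
      apply Complex.ext <;> simp
    rcases lt_trichotomy z.re l with hlt | heq | hgt
    · have ha : 0 < l - z.re := by linarith
      have c1 := Multiset.countP_cons_of_pos (p := fun z : ℂ => z.re < l) Z hlt
      have c2 := Multiset.countP_cons_of_neg (p := fun z : ℂ => l < z.re) Z (a := z)
        (by show ¬ l < z.re; linarith)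
      have c3 := Multiset.countP_cons_of_neg (p := fun z : ℂ => z.re = l) Z (a := z)
        (by show ¬ z.re = l; exact hlt.ne)
      rw [c1, c2, c3]
      have t := tend_pos (l - z.re) z.im ha
      refine ⟨fun y => Φ y + Real.arctan ((y - z.im) / (l - z.re)),
        fun y => ρ y * ((l - z.re) * Real.sqrt (1 + ((y - z.im) / (l - z.re)) ^ 2)),
        h1.add hcont, ?_, ?_, fun y => ?_⟩
      · have h5 := h2.add t.1
        convert h5 using 2
        push_cast
        ring
      · have h5 := h3.add t.2
        convert h5 using 2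
        push_cast
        ring
      · rw [Multiset.map_cons, Multiset.prod_cons, h4, hz, polar _ _ ha.ne']
        push_cast
        rw [add_mul, Complex.exp_add]
        ring
    · have hzi : z.im = 0 := hZ z (Multiset.mem_cons_self _ _) heq
      have c1 := Multiset.countP_cons_of_neg (p := fun z : ℂ => z.re < l) Z (a := z)
        (by show ¬ z.re < l; linarith)
      have c2 := Multiset.countP_cons_of_neg (p := fun z : ℂ => l < z.re) Z (a := z)
        (by show ¬ l < z.re; linarith)
      have c3 := Multiset.countP_cons_of_pos (p := fun z : ℂ => z.re = l) Z (a := z) heq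
      rw [c1, c2, c3]
      refine ⟨Φ, fun y => ρ y * y, h1, h2, h3, fun y => ?_⟩
      rw [Multiset.map_cons, Multiset.prod_cons, h4, hz, heq, hzi, pow_succ]
      push_cast
      ring
    · have ha : l - z.re < 0 := by linarith
      have c1 := Multiset.countP_cons_of_neg (p := fun z : ℂ => z.re < l) Z (a := z)
        (by show ¬ z.re < l; linarith)
      have c2 := Multiset.countP_cons_of_pos (p := fun z : ℂ => l < z.re) Z (a := z) hgt
      have c3 := Multiset.countP_cons_of_neg (p := fun z : ℂ => z.re = l) Z (a := z)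
        (by show ¬ z.re = l; exact hgt.ne')
      rw [c1, c2, c3]
      have t := tend_neg (l - z.re) z.im ha
      refine ⟨fun y => Φ y + Real.arctan ((y - z.im) / (l - z.re)),
        fun y => ρ y * ((l - z.re) * Real.sqrt (1 + ((y - z.im) / (l - z.re)) ^ 2)),
        h1.add hcont, ?_, ?_, fun y => ?_⟩
      · have h5 := h2.add t.1
        convert h5 using 2
        push_cast
        ring
      · have h5 := h3.add t.2
        convert h5 using 2
        push_cast
        ring
      · rw [Multiset.map_cons, Multiset.prod_cons, h4, hz, polar _ _ ha.ne]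
        push_cast
        rw [add_mul, Complex.exp_add]
        ring

/-- the number of complex roots with real part at least `l` -/
theorem count_roots (g : ℝ[X]) (l : ℝ) (hl : 0 < l) (hg : g ≠ 0) (hW : WR g) :
    haveI := Classical.decPred (fun z : ℂ => l ≤ z.re)
    ((g.map (algebraMap ℝ ℂ)).roots.countP (fun z => l ≤ z.re)) ≤ Nge g l := by
  classical
  have hg' : g.map (algebraMap ℝ ℂ) ≠ 0 := (Polynomial.map_ne_zero_iff (algebraMap ℝ ℂ).injective).2 hg
  have h : (g.map (algebraMap ℝ ℂ)).roots.filter (fun z => l ≤ z.re) ≤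
      (g.roots.filter (fun r => l ≤ r)).map (algebraMap ℝ ℂ) := by
    rw [Multiset.le_iff_count]
    intro z
    rw [Multiset.count_filter]
    split_ifs with hz
    · by_cases hm : z ∈ (g.map (algebraMap ℝ ℂ)).roots
      · have hr : aeval z g = 0 := by
          rw [Polynomial.mem_roots hg', Polynomial.IsRoot, Polynomial.eval_map_algebraMap] at hm
          exact hm
        have him : z.im = 0 := by
          rcases hW z hr with h | h
          · exact h
          · rw [h] at hz; linarith
        have hzr : z = algebraMap ℝ ℂ z.re := by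
          apply Complex.ext
          · simp
          · simp [him]
        have hz2 : z.re = z.re := rfl
        rw [hzr, Polynomial.count_roots, Multiset.count_map_eq_count' _ _ (algebraMap ℝ ℂ).injective,
          Multiset.count_filter, if_pos hz, Polynomial.count_roots,
          ← Polynomial.eq_rootMultiplicity_map (algebraMap ℝ ℂ).injective]
      · rw [Multiset.count_eq_zero_of_notMem hm]
        exact Nat.zero_le _
    · exact Nat.zero_le _
  have h2 := Multiset.card_le_card h
  rw [Multiset.card_map, ← Multiset.countP_eq_card_filter] at h2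
  unfold Nge
  convert h2

theorem par_parity {g : ℝ[X]} (hg : g ≠ 0) {e : ℕ} (he : g.comp (-X) = (-1) ^ e * g) :
    ((-1 : ℝ)) ^ g.natDegree = (-1) ^ e := by
  have h1 := congrArg Polynomial.leadingCoeff he
  rw [Polynomial.comp_neg_X_leadingCoeff_eq, Polynomial.leadingCoeff_mul,
    Polynomial.leadingCoeff_pow, Polynomial.leadingCoeff_neg, Polynomial.leadingCoeff_one] at h1
  exact mul_right_cancel₀ (Polynomial.leadingCoeff_ne_zero.2 hg) h1

theorem aeval_T {g : ℝ[X]} {e : ℕ} (he : g.comp (-X) = (-1) ^ e * g) (l y : ℝ) :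
    aeval ((y : ℂ) * Complex.I) (T l g) =
      aeval ((l : ℂ) + y * Complex.I) g -
        (-1) ^ e * (starRingEnd ℂ) (aeval ((l : ℂ) + y * Complex.I) g) := by
  have h1 : ∀ z : ℂ, aeval (-z) g = (-1) ^ e * aeval z g := by
    intro z
    have h2 := congrArg (aeval z) he
    rw [Polynomial.aeval_comp, map_neg, Polynomial.aeval_X, map_mul, map_pow, map_neg,
      map_one] at h2
    exact h2
  unfold T
  rw [map_sub, Polynomial.aeval_comp, Polynomial.aeval_comp, map_add, map_sub,
    Polynomial.aeval_X, Polynomial.aeval_C]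
  have h3 : (y : ℂ) * Complex.I - (algebraMap ℝ ℂ) l =
      -((starRingEnd ℂ) ((l : ℂ) + y * Complex.I)) := by
    rw [map_add, map_mul, Complex.conj_I, Complex.conj_ofReal, Complex.conj_ofReal,
      Complex.coe_algebraMap]
    ring
  rw [h3, h1, Polynomial.aeval_conj, add_comm ((y : ℂ) * Complex.I), Complex.coe_algebraMap]

end THB

open Polynomial Filter Topology THB in
theorem t_HB : S_HB := by
  intro g l hl hg hPar hW
  classical
  obtain ⟨e, he⟩ := hPar
  have hsp : (g.map (algebraMap ℝ ℂ)).Splits := IsAlgClosed.splits _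
  have hdeg : (g.map (algebraMap ℝ ℂ)).natDegree = g.natDegree :=
    Polynomial.natDegree_map_eq_of_injective (algebraMap ℝ ℂ).injective g
  have hcard := hsp.natDegree_eq_card_roots
  rw [hdeg] at hcard
  have hg' : g.map (algebraMap ℝ ℂ) ≠ 0 :=
    (Polynomial.map_ne_zero_iff (algebraMap ℝ ℂ).injective).2 hg
  have hlc : (g.map (algebraMap ℝ ℂ)).leadingCoeff = (g.leadingCoeff : ℂ) :=
    Polynomial.leadingCoeff_map_of_injective (algebraMap ℝ ℂ).injective g
  set Z := (g.map (algebraMap ℝ ℂ)).roots with hZdef
  have hZ : ∀ z ∈ Z, z.re = l → z.im = 0 := by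
    intro z hz hre
    have hr : aeval z g = 0 := by
      rw [hZdef, Polynomial.mem_roots hg', Polynomial.IsRoot,
        Polynomial.eval_map_algebraMap] at hz
      exact hz
    rcases hW z hr with h | h
    · exact h
    · rw [h] at hre; linarith
  obtain ⟨Φ, ρ, h1, h2, h3, h4⟩ := prod_arg l Z hZ
  have hcnt := count_roots g l hl hg hW
  -- counts
  have hsum : Z.countP (fun z => z.re < l) + Z.countP (fun z => l < z.re) +
      Z.countP (fun z => z.re = l) = Z.card := by
    clear_value Z
    clear h2 h3 h4 hcnt hcard hZ hZdef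
    induction Z using Multiset.induction_on with
    | empty => simp
    | cons z Z ih =>
      rw [Multiset.countP_cons, Multiset.countP_cons, Multiset.countP_cons, Multiset.card_cons]
      rcases lt_trichotomy z.re l with h | h | h
      · rw [if_pos h, if_neg (by linarith), if_neg h.ne]; omega
      · rw [if_neg (by linarith), if_neg (by linarith), if_pos h]; omega
      · rw [if_neg (by linarith), if_pos h, if_neg h.ne']; omega
  have hge : Z.countP (fun z => l < z.re) + Z.countP (fun z => z.re = l) =
      Z.countP (fun z => l ≤ z.re) := by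
    clear_value Z
    clear h2 h3 h4 hcnt hcard hZ hZdef hsum
    induction Z using Multiset.induction_on with
    | empty => simp
    | cons z Z ih =>
      rw [Multiset.countP_cons, Multiset.countP_cons, Multiset.countP_cons]
      rcases lt_trichotomy z.re l with h | h | h
      · rw [if_neg (by linarith), if_neg h.ne, if_neg (by linarith)]; omega
      · rw [if_neg (by linarith), if_pos h, if_pos (by linarith)]; omega
      · rw [if_pos h, if_neg h.ne', if_pos (by linarith)]; omega
  have hcnt' : Z.countP (fun z => l ≤ z.re) ≤ Nge g l := by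
    convert hcnt
  generalize Z.countP (fun z => z.re < l) = a at *
  generalize Z.countP (fun z => l < z.re) = b at *
  generalize Z.countP (fun z => z.re = l) = q at *
  by_cases hK : a ≤ b + 1
  · exact ⟨∅, by rw [Finset.card_empty]; omega, fun y hy => absurd hy (Finset.notMem_empty y)⟩
  -- the points
  obtain ⟨K, hKa⟩ : ∃ K, a = b + 2 + K := ⟨a - (b + 2), by omega⟩
  have hpi := Real.pi_pos
  have hy : ∀ m : ℕ, m ≤ K → ∃ y : ℝ, Φ y = Real.pi / 2 * ((K : ℝ) - 2 * m) := by
    intro m hm
    have hmK : (m : ℝ) ≤ K := by exact_mod_cast hm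
    have hm0 : (0 : ℝ) ≤ m := Nat.cast_nonneg m
    have hab : (a : ℝ) - b = K + 2 := by rw [hKa]; push_cast; ring
    have e1 := h2.eventually_const_le (show Real.pi / 2 * ((K : ℝ) - 2 * m) <
      Real.pi / 2 * ((a : ℝ) - b) by
        rw [hab]
        apply mul_lt_mul_of_pos_left _ (by positivity)
        linarith)
    have e2 := h3.eventually_le_const (show -(Real.pi / 2 * ((a : ℝ) - b)) <
      Real.pi / 2 * ((K : ℝ) - 2 * m) by
        rw [hab, ← mul_neg]
        apply mul_lt_mul_of_pos_left _ (by positivity)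
        linarith)
    obtain ⟨y1, hy1⟩ := e1.exists
    obtain ⟨y2, hy2⟩ := e2.exists
    exact mem_range_of_exists_le_of_exists_ge h1 ⟨y2, hy2⟩ ⟨y1, hy1⟩
  choose! Y hY using hy
  refine ⟨(Finset.range (K + 1)).image Y, ?_, ?_⟩
  · rw [Finset.card_image_of_injOn, Finset.card_range]
    · omega
    · intro m hm m' hm' hmm
      have hm1 : m ≤ K := by
        have := Finset.mem_range.1 (Finset.mem_coe.1 hm); omega
      have hm2 : m' ≤ K := by
        have := Finset.mem_range.1 (Finset.mem_coe.1 hm'); omega
      have h5 := hY m hm1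
      have h6 := hY m' hm2
      rw [hmm, h6] at h5
      have h7 := mul_left_cancel₀ (by positivity) h5
      have h8 : (m : ℝ) = m' := by linarith
      exact_mod_cast h8
  · intro y hy
    rw [Finset.mem_image] at hy
    obtain ⟨m, hm, rfl⟩ := hy
    have hm1 : m ≤ K := by
      have := Finset.mem_range.1 hm; omega
    rw [aeval_T he]
    have h5 : aeval ((l : ℂ) + (Y m : ℂ) * Complex.I) g =
        (g.leadingCoeff : ℂ) * (Complex.I ^ q * (ρ (Y m) : ℂ) *
          Complex.exp (Φ (Y m) * Complex.I)) := by
      rw [← h4, ← hlc, ← Polynomial.eval_map_algebraMap, hsp.eval_eq_prod_roots]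
    have h6 : Complex.exp (Φ (Y m) * Complex.I) = Complex.I ^ K * (-1) ^ m := by
      rw [hY m hm1]
      have e1 : (((Real.pi / 2 * ((K : ℝ) - 2 * m) : ℝ) : ℂ)) * Complex.I =
          (K : ℂ) * ((Real.pi : ℂ) / 2 * Complex.I) - (m : ℂ) * ((Real.pi : ℂ) * Complex.I) := by
        push_cast
        ring
      rw [e1, Complex.exp_sub, Complex.exp_nat_mul, Complex.exp_nat_mul, Complex.exp_pi_mul_I,
        Complex.exp_pi_div_two_mul_I]
      have e2 : ((-1 : ℂ)) ^ m * (-1) ^ m = 1 := by
        rw [← mul_pow]; norm_num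
      have e3 : ((-1 : ℂ)) ^ m ≠ 0 := pow_ne_zero _ (by norm_num)
      rw [div_eq_iff e3, mul_assoc, e2, mul_one]
    rw [h5, h6, map_mul, map_mul, map_mul, map_mul, map_pow, map_pow, map_pow, map_neg, map_one,
      Complex.conj_I, Complex.conj_ofReal, Complex.conj_ofReal]
    have h7 : ((-1 : ℂ)) ^ e * ((-1) ^ q * (-1) ^ K) = 1 := by
      have e1 := par_parity hg he
      have e2 : ((-1 : ℂ)) ^ g.natDegree = (-1) ^ e := by exact_mod_cast congrArg (fun x : ℝ => (x : ℂ)) e1
      rw [← e2, ← pow_add, ← pow_add]
      apply Even.neg_one_pow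
      rw [hcard, ← hsum]
      refine ⟨b + 1 + K + q, ?_⟩
      omega
    have h8 : (-Complex.I) ^ q = (-1) ^ q * Complex.I ^ q := by rw [neg_pow]
    have h9 : (-Complex.I) ^ K = (-1) ^ K * Complex.I ^ K := by rw [neg_pow]
    rw [h8, h9]
    linear_combination (-(g.leadingCoeff : ℂ) * Complex.I ^ q * (ρ (Y m) : ℂ) * Complex.I ^ K *
      (-1) ^ m) * h7

end Pool.Agent.H220CDD
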