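import Pool.Agent.H220CDD.Stm

set_option autoImplicit false

open Polynomial

/-! Relation of the imaginary part with the polynomial. -/

namespace Pool.Agent.H220CDD

namespace TIM

/-- the product. -/
noncomputable def PP (N : ℕ) (x : ℝ) : ℝ := ∏ k ∈ Finset.Icc (-(N : ℤ)) (N : ℤ), (x - (k : ℝ))

theorem PP_zero (x : ℝ) : PP 0 x = x := by
  unfold PP
  simp

theorem PP_succ (N : ℕ) (x : ℝ) : PP (N + 1) x = PP N x * (x ^ 2 - ((N : ℝ) + 1) ^ 2) := by
  unfold PP
  have h : Finset.Icc (-((N + 1 : ℕ) : ℤ)) ((N + 1 : ℕ) : ℤ)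
      = insert (-((N : ℤ) + 1)) (insert ((N : ℤ) + 1) (Finset.Icc (-(N : ℤ)) (N : ℤ))) := by
    ext z
    simp only [Finset.mem_insert, Finset.mem_Icc]
    push_cast
    omega
  rw [h, Finset.prod_insert, Finset.prod_insert]
  · push_cast
    ring
  · simp only [Finset.mem_Icc]
    omega
  · simp only [Finset.mem_insert, Finset.mem_Icc]
    omega

theorem PP_int (N : ℕ) (z : ℤ) (h1 : -(N : ℤ) ≤ z) (h2 : z ≤ N) : PP N (z : ℝ) = 0 := by
  unfold PP
  exact Finset.prod_eq_zero (Finset.mem_Icc.2 ⟨h1, h2⟩) (sub_self _)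

theorem key (x : ℝ) (hx : ∀ z : ℤ, x ≠ z) (N : ℕ) :
    Real.sin (Real.pi * x) * (Real.Gamma ((N : ℝ) + 1 + x) * Real.Gamma ((N : ℝ) + 1 - x))
      = Real.pi * (-1) ^ N * PP N x := by
  induction N with
  | zero =>
    have hx0 : x ≠ 0 := by
      have := hx 0
      simpa using this
    have hs : Real.sin (Real.pi * x) ≠ 0 := by
      intro h
      rw [Real.sin_eq_zero_iff] at h
      obtain ⟨n, hn⟩ := h
      have : (n : ℝ) = x := by
        have h3 : Real.pi * (n : ℝ) = Real.pi * x := by linarith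
        exact mul_left_cancel₀ Real.pi_ne_zero h3
      exact hx n this.symm
    have h1 : Real.Gamma (1 + x) = x * Real.Gamma x := by
      rw [add_comm]
      exact Real.Gamma_add_one hx0
    have h2 := Real.Gamma_mul_Gamma_one_sub x
    rw [PP_zero, Nat.cast_zero, zero_add, h1, pow_zero, mul_one, mul_assoc x, h2]
    field_simp
  | succ N ih =>
    have h1 : Real.Gamma (((N + 1 : ℕ) : ℝ) + 1 + x)
        = ((N : ℝ) + 1 + x) * Real.Gamma ((N : ℝ) + 1 + x) := by
      have e : ((N + 1 : ℕ) : ℝ) + 1 + x = ((N : ℝ) + 1 + x) + 1 := by push_cast; ring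
      rw [e]
      apply Real.Gamma_add_one
      intro h
      apply hx (-((N : ℤ) + 1))
      push_cast
      linarith
    have h2 : Real.Gamma (((N + 1 : ℕ) : ℝ) + 1 - x)
        = ((N : ℝ) + 1 - x) * Real.Gamma ((N : ℝ) + 1 - x) := by
      have e : ((N + 1 : ℕ) : ℝ) + 1 - x = ((N : ℝ) + 1 - x) + 1 := by push_cast; ring
      rw [e]
      apply Real.Gamma_add_one
      intro h
      apply hx ((N : ℤ) + 1)
      push_cast
      linarith
    rw [h1, h2, PP_succ, pow_succ]
    have h3 : Real.sin (Real.pi * x) * (((N : ℝ) + 1 + x) * Real.Gamma ((N : ℝ) + 1 + x)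
        * (((N : ℝ) + 1 - x) * Real.Gamma ((N : ℝ) + 1 - x)))
        = (Real.sin (Real.pi * x) * (Real.Gamma ((N : ℝ) + 1 + x)
          * Real.Gamma ((N : ℝ) + 1 - x))) * (((N : ℝ) + 1 + x) * ((N : ℝ) + 1 - x)) := by ring
    rw [h3, ih]
    ring

theorem key' (N : ℕ) (x : ℝ) (hx : |x| < (N : ℝ) + 1) :
    Real.sin (Real.pi * x) * (Real.Gamma ((N : ℝ) + 1 + x) * Real.Gamma ((N : ℝ) + 1 - x))
      = Real.pi * (-1) ^ N * PP N x := by
  by_cases h : ∃ z : ℤ, x = z
  · obtain ⟨z, rfl⟩ := h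
    rw [abs_lt] at hx
    have h1 : -((N : ℤ) + 1) < z := by
      have : ((-((N : ℤ) + 1) : ℤ) : ℝ) < z := by push_cast; linarith [hx.1]
      exact_mod_cast this
    have h2 : z < (N : ℤ) + 1 := by
      have : (z : ℝ) < (((N : ℤ) + 1 : ℤ) : ℝ) := by push_cast; linarith [hx.2]
      exact_mod_cast this
    rw [PP_int N z (by omega) (by omega)]
    have h3 : Real.sin (Real.pi * (z : ℝ)) = 0 := by
      rw [mul_comm]
      exact Real.sin_int_mul_pi z
    rw [h3]
    ring
  · push Not at h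
    exact key x h N

theorem G_im (a x : ℝ) : (G a (x : ℂ)).im
    = Real.sin (Real.pi * x) * (Real.Gamma (a + x) * Real.Gamma (a - x)) := by
  unfold G
  have h1 : Complex.Gamma ((a : ℂ) + x) = ((Real.Gamma (a + x) : ℝ) : ℂ) := by
    rw [← Complex.ofReal_add, Complex.Gamma_ofReal]
  have h2 : Complex.Gamma ((a : ℂ) - x) = ((Real.Gamma (a - x) : ℝ) : ℂ) := by
    rw [← Complex.ofReal_sub, Complex.Gamma_ofReal]
  have h3 : (Real.pi : ℂ) * Complex.I * x = ((Real.pi * x : ℝ) : ℂ) * Complex.I := by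
    push_cast; ring
  rw [h1, h2, h3, mul_assoc, ← Complex.ofReal_mul, Complex.im_mul_ofReal,
    Complex.exp_ofReal_mul_I_im]

theorem eval_pN (N : ℕ) (x : ℝ) : (pN N).eval x = PP N x := by
  unfold pN PP
  rw [Polynomial.eval_prod]
  simp

end TIM

open TIM in
theorem t_IM : S_IM := by
  intro l N n hl
  induction n with
  | zero =>
    intro x hx
    have hx' : |x| < (N : ℝ) + 1 := by simpa using hx
    have h1 : U l ((N : ℝ) + 1) 0 (x : ℂ) = G ((N : ℝ) + 1) (x : ℂ) := rfl
    have h2 : f l N 0 = pN N := rfl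
    rw [h1, h2, G_im, eval_pN]
    exact key' N x hx'
  | succ n ih =>
    intro x hx
    push_cast at hx
    rw [abs_lt] at hx
    have h1 : U l ((N : ℝ) + 1) (n + 1) (x : ℂ)
        = U l ((N : ℝ) + 1) n ((x + l : ℝ) : ℂ) - U l ((N : ℝ) + 1) n ((x - l : ℝ) : ℂ) := by
      push_cast
      rfl
    have h2 : f l N (n + 1) = T l (f l N n) := by
      unfold f
      exact Function.iterate_succ_apply' _ _ _
    have hp : |x + l| < (N : ℝ) + 1 - n * l := by
      rw [abs_lt]
      constructor <;> nlinarith [hx.1, hx.2]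
    have hm : |x - l| < (N : ℝ) + 1 - n * l := by
      rw [abs_lt]
      constructor <;> nlinarith [hx.1, hx.2]
    rw [h1, Complex.sub_im, ih (x + l) hp, ih (x - l) hm, h2]
    unfold T
    rw [Polynomial.eval_sub, Polynomial.eval_comp, Polynomial.eval_comp, Polynomial.eval_add,
      Polynomial.eval_sub, Polynomial.eval_X, Polynomial.eval_C]
    ring

end Pool.Agent.H220CDD
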