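import Mathlib
import Pool.Agent.H220CDD.Stm

set_option autoImplicit false

open Polynomial

/-!
The induction step for the zeros (`S_J`) of MP_49a735_an, from the degree statement `S_TDEG`.
-/

namespace Pool.Agent.H220CDD

namespace TJ

theorem par_T (g : ℝ[X]) (l : ℝ) (h : Par g) : Par (T l g) := by
  obtain ⟨e, he⟩ := h
  refine ⟨e + 1, ?_⟩
  have h1 : (g.comp (X + C l)).comp (-X) = (-1) ^ e * g.comp (X - C l) := by
    rw [comp_assoc]
    have h2 : (X + C l : ℝ[X]).comp (-X) = (-X : ℝ[X]).comp (X - C l) := by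
      simp only [add_comp, X_comp, C_comp, neg_comp]; ring
    rw [h2, ← comp_assoc, he]
    simp [mul_comp, pow_comp]
  have h3 : (g.comp (X - C l)).comp (-X) = (-1) ^ e * g.comp (X + C l) := by
    rw [comp_assoc]
    have h2 : (X - C l : ℝ[X]).comp (-X) = (-X : ℝ[X]).comp (X + C l) := by
      simp only [sub_comp, X_comp, C_comp, neg_comp]; ring
    rw [h2, ← comp_assoc, he]
    simp [mul_comp, pow_comp]
  unfold T
  rw [sub_comp, h1, h3]
  ring

theorem par_root (F : ℝ[X]) (h : Par F) (z : ℂ) (hz : aeval z F = 0) : aeval (-z) F = 0 := by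
  obtain ⟨e, he⟩ := h
  have h1 : aeval z (F.comp (-X)) = aeval (-z) F := by
    rw [aeval_comp]; simp
  rw [← h1, he]
  simp [hz]

theorem roots_map_neg (F : ℝ[X]) (h : Par F) : F.roots.map (fun x => -x) = F.roots := by
  obtain ⟨e, he⟩ := h
  rw [← roots_comp_neg_X, he]
  rcases neg_one_pow_eq_or ℝ[X] e with h1 | h1
  · rw [h1, one_mul]
  · rw [h1, neg_one_mul, Polynomial.roots_neg]

open Classical in
theorem card_neg (F : ℝ[X]) (h : Par F) :
    (F.roots.filter (fun r => r < 0)).card = (F.roots.filter (fun r => 0 < r)).card := by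
  conv_lhs => rw [← roots_map_neg F h]
  rw [Multiset.filter_map, Multiset.card_map]
  congr 2
  funext x
  simp

open Classical in
theorem card_ne (F : ℝ[X]) (h : Par F) :
    (F.roots.filter (fun r => r ≠ 0)).card = 2 * (F.roots.filter (fun r => 0 < r)).card := by
  have h1 : (F.roots.filter (fun r => r ≠ 0)) =
      (F.roots.filter (fun r => 0 < r)) + (F.roots.filter (fun r => r < 0)) := by
    rw [Multiset.filter_add_filter]
    have h2 : F.roots.filter (fun a => 0 < a ∧ a < 0) = 0 := by
      rw [Multiset.filter_eq_nil]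
      intro a _ h; linarith [h.1, h.2]
    rw [h2, add_zero]
    congr 1
    funext x
    apply propext
    constructor
    · intro hx; rcases lt_or_gt_of_ne hx with h | h
      · right; exact h
      · left; exact h
    · rintro (h | h)
      · exact h.ne'
      · exact h.ne
  rw [h1, Multiset.card_add, card_neg F h]; ring

open Classical in
theorem count (F : ℝ[X]) (hF : F ≠ 0) (hP : Par F) (s : Finset ℝ)
    (hs : ∀ y ∈ s, aeval ((y : ℂ) * Complex.I) F = 0) :
    2 * (F.roots.filter (fun r => 0 < r)).card + s.card ≤ F.natDegree ∧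
    (¬ WR F → 2 * (F.roots.filter (fun r => 0 < r)).card + s.card + 4 ≤ F.natDegree) := by
  set A : Multiset ℂ := (F.map (algebraMap ℝ ℂ)).roots with hA
  have hmap : F.map (algebraMap ℝ ℂ) ≠ 0 := by
    rwa [Ne, Polynomial.map_eq_zero]
  have hmem : ∀ z : ℂ, z ∈ A ↔ aeval z F = 0 := by
    intro z
    rw [hA, mem_roots hmap, IsRoot.def, eval_map_algebraMap]
  have hcard : A.card ≤ F.natDegree := by
    rw [← natDegree_map (algebraMap ℝ ℂ) (p := F)]
    exact card_roots' _
  have hsplit1 : A.card = (A.filter (fun z => z.re = 0)).card + (A.filter (fun z => ¬ z.re = 0)).card := by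
    rw [← Multiset.card_add, Multiset.filter_add_not]
  have hsplit2 : (A.filter (fun z => ¬ z.re = 0)).card =
      ((A.filter (fun z => ¬ z.re = 0)).filter (fun z => z.im = 0)).card +
      ((A.filter (fun z => ¬ z.re = 0)).filter (fun z => ¬ z.im = 0)).card := by
    rw [← Multiset.card_add, Multiset.filter_add_not]
  have hs1 : s.card ≤ (A.filter (fun z => z.re = 0)).card := by
    have : (s.val.map (fun y : ℝ => (y : ℂ) * Complex.I)) ≤ A.filter (fun z => z.re = 0) := by
      rw [Multiset.le_iff_subset]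
      · intro z hz
        rw [Multiset.mem_map] at hz
        obtain ⟨y, hy, rfl⟩ := hz
        rw [Multiset.mem_filter, hmem]
        exact ⟨hs y hy, by simp⟩
      · apply Multiset.Nodup.map _ s.nodup
        intro a b hab
        have := congrArg Complex.im hab
        simpa using this
    have h2 := Multiset.card_le_card this
    rwa [Multiset.card_map] at h2
  have hs2 : 2 * (F.roots.filter (fun r => 0 < r)).card ≤
      ((A.filter (fun z => ¬ z.re = 0)).filter (fun z => z.im = 0)).card := by
    rw [← card_ne F hP]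
    have h1 : F.roots.map (algebraMap ℝ ℂ) ≤ A :=
      map_roots_le_of_injective F (algebraMap ℝ ℂ).injective
    have h2 : (F.roots.filter (fun r => r ≠ 0)).map (algebraMap ℝ ℂ) ≤
        ((A.filter (fun z => ¬ z.re = 0)).filter (fun z => z.im = 0)) := by
      have h3 := Multiset.filter_le_filter (fun z : ℂ => z.im = 0)
        (Multiset.filter_le_filter (fun z : ℂ => ¬ z.re = 0) h1)
      refine le_trans (le_of_eq ?_) h3
      rw [Multiset.filter_map, Multiset.filter_map, Multiset.filter_filter]
      congr 1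
      congr 1
      funext x
      simp
    have h4 := Multiset.card_le_card h2
    rwa [Multiset.card_map] at h4
  constructor
  · omega
  · intro hW
    unfold WR at hW
    push Not at hW
    obtain ⟨z, hz, him, hre⟩ := hW
    have hs3 : 4 ≤ ((A.filter (fun z => ¬ z.re = 0)).filter (fun z => ¬ z.im = 0)).card := by
      have hconj : ∀ w : ℂ, aeval w F = 0 → aeval ((starRingEnd ℂ) w) F = 0 := by
        intro w hw
        rw [Polynomial.aeval_conj, hw, map_zero]
      have h1 : ({z, -z, (starRingEnd ℂ) z, -((starRingEnd ℂ) z)} : Finset ℂ).val ≤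
          ((A.filter (fun z => ¬ z.re = 0)).filter (fun z => ¬ z.im = 0)) := by
        rw [Multiset.le_iff_subset (Finset.nodup _)]
        intro w hw
        rw [Finset.mem_val] at hw
        simp only [Finset.mem_insert, Finset.mem_singleton] at hw
        rw [Multiset.mem_filter, Multiset.mem_filter, hmem]
        rcases hw with rfl | rfl | rfl | rfl
        · exact ⟨⟨hz, hre⟩, him⟩
        · exact ⟨⟨par_root F hP _ hz, by simpa using hre⟩, by simpa using him⟩
        · exact ⟨⟨hconj _ hz, by simpa using hre⟩, by simpa using him⟩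
        · exact ⟨⟨par_root F hP _ (hconj _ hz), by simpa using hre⟩, by simpa using him⟩
      have h2 : ({z, -z, (starRingEnd ℂ) z, -((starRingEnd ℂ) z)} : Finset ℂ).card = 4 := by
        rw [Finset.card_insert_of_notMem, Finset.card_insert_of_notMem,
          Finset.card_insert_of_notMem, Finset.card_singleton]
        · simp only [Finset.mem_singleton]
          intro h
          have := congrArg Complex.re h
          simp only [Complex.conj_re, Complex.neg_re] at this
          apply hre; linarith
        · simp only [Finset.mem_insert, Finset.mem_singleton]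
          rintro (h | h)
          · have := congrArg Complex.re h
            simp only [Complex.conj_re, Complex.neg_re] at this
            apply hre; linarith
          · have := congrArg Complex.im h
            simp only [Complex.conj_im, Complex.neg_im] at this
            apply him; linarith
        · simp only [Finset.mem_insert, Finset.mem_singleton]
          rintro (h | h | h)
          · have := congrArg Complex.re h
            simp only [Complex.neg_re] at this
            apply hre; linarith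
          · have := congrArg Complex.im h
            simp only [Complex.conj_im] at this
            apply him; linarith
          · have := congrArg Complex.re h
            simp only [Complex.conj_re, Complex.neg_re] at this
            apply hre; linarith
      have h3 := Multiset.card_le_card h1
      rw [Finset.card_val, h2] at h3
      exact h3
    omega

open Classical in
theorem ivt (F : ℝ[X]) (hF : F ≠ 0) (θ ρ : ℝ → ℝ) (t0 t1 : ℝ) (h01 : t0 < t1)
    (hc : ContinuousOn θ (Set.Icc t0 t1))
    (he : ∀ x ∈ Set.Ioo t0 t1, F.eval x = ρ x * Real.sin (θ x)) (K0 K1 : ℤ)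
    (h0 : θ t0 < Real.pi * (K0 + 1)) (h1 : Real.pi * K1 < θ t1) :
    K1 - K0 ≤ ((F.roots.filter (fun r => t0 < r ∧ r < t1)).card : ℤ) := by
  have hex : ∀ k : ℤ, k ∈ Finset.Icc (K0 + 1) K1 → ∃ x : ℝ, (t0 < x ∧ x < t1) ∧ θ x = Real.pi * k := by
    intro k hk
    rw [Finset.mem_Icc] at hk
    have hk0 : ((K0 : ℝ) + 1) ≤ k := by exact_mod_cast hk.1
    have hk1 : (k : ℝ) ≤ K1 := by exact_mod_cast hk.2
    have hpi := Real.pi_pos
    have ha : θ t0 < Real.pi * k := lt_of_lt_of_le h0 (mul_le_mul_of_nonneg_left hk0 hpi.le)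
    have hb : Real.pi * k < θ t1 := lt_of_le_of_lt (mul_le_mul_of_nonneg_left hk1 hpi.le) h1
    have := intermediate_value_Ioo h01.le hc (show Real.pi * k ∈ Set.Ioo (θ t0) (θ t1) from ⟨ha, hb⟩)
    obtain ⟨x, hx, hxk⟩ := this
    exact ⟨x, hx, hxk⟩
  choose! x hx hxk using hex
  have hinj : Set.InjOn x (Finset.Icc (K0 + 1) K1 : Set ℤ) := by
    intro a ha b hb hab
    have h2 := hxk a ha
    have h3 := hxk b hb
    rw [hab, h3] at h2
    have h4 := mul_left_cancel₀ Real.pi_pos.ne' h2
    exact_mod_cast h4.symm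
  have hsub : (Finset.Icc (K0 + 1) K1).val.map x ≤ F.roots.filter (fun r => t0 < r ∧ r < t1) := by
    rw [Multiset.le_iff_subset]
    · intro y hy
      rw [Multiset.mem_map] at hy
      obtain ⟨k, hk, rfl⟩ := hy
      rw [Multiset.mem_filter]
      refine ⟨?_, hx k hk⟩
      rw [mem_roots hF, IsRoot.def, he _ (hx k hk), hxk k hk, mul_comm Real.pi, Real.sin_int_mul_pi,
        mul_zero]
    · apply Multiset.Nodup.map_on _ (Finset.nodup _)
      intro a ha b hb hab
      exact hinj ha hb hab
  have hcard := Multiset.card_le_card hsub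
  rw [Multiset.card_map, Finset.card_val, Int.card_Icc] at hcard
  omega

open Classical in
theorem sign_prod (t : ℝ) (m : Multiset ℝ) (hm : t ∉ m) :
    0 < (-1 : ℝ) ^ (m.filter (fun r => t ≤ r)).card * (m.map (fun a => t - a)).prod := by
  induction m using Multiset.induction_on with
  | empty => simp
  | cons a m ih =>
    rw [Multiset.mem_cons, not_or] at hm
    have h := ih hm.2
    by_cases hta : t ≤ a
    · have h2 : t < a := lt_of_le_of_ne hta hm.1
      rw [Multiset.filter_cons_of_pos _ hta, Multiset.card_cons, Multiset.map_cons, Multiset.prod_cons,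
        pow_succ]
      have : (-1 : ℝ) ^ (m.filter (fun r => t ≤ r)).card * -1 * ((t - a) * (m.map (fun a => t - a)).prod)
        = (a - t) * ((-1 : ℝ) ^ (m.filter (fun r => t ≤ r)).card * (m.map (fun a => t - a)).prod) := by
        ring
      rw [this]
      exact mul_pos (by linarith) h
    · rw [Multiset.filter_cons_of_neg _ hta, Multiset.map_cons, Multiset.prod_cons]
      have : (-1 : ℝ) ^ (m.filter (fun r => t ≤ r)).card * ((t - a) * (m.map (fun a => t - a)).prod)
        = (t - a) * ((-1 : ℝ) ^ (m.filter (fun r => t ≤ r)).card * (m.map (fun a => t - a)).prod) := by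
        ring
      rw [this]
      exact mul_pos (by push Not at hta; linarith) h

theorem sign_F (F : ℝ[X]) (hl : 0 < F.leadingCoeff) (t : ℝ) (ht : F.eval t ≠ 0) :
    0 < (-1 : ℝ) ^ (Nge F t) * F.eval t := by
  have hF : F ≠ 0 := by
    rintro rfl; simp at hl
  obtain ⟨q, hq, -, hqr⟩ := exists_prod_multiset_X_sub_C_mul F
  have hq0 : q ≠ 0 := by
    rintro rfl
    rw [mul_zero] at hq
    exact hF hq.symm
  have hlc : q.leadingCoeff = F.leadingCoeff := by
    conv_rhs => rw [← hq]
    rw [leadingCoeff_mul, (monic_multisetProd_X_sub_C F.roots).leadingCoeff, one_mul]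
  have hqpos : 0 < q.eval t := by
    apply zero_lt_eval_of_roots_lt_of_leadingCoeff_nonneg
    · intro y hy
      exfalso
      have : y ∈ q.roots := (mem_roots hq0).mpr hy
      rw [hqr] at this
      simp at this
    · rw [hlc]; exact hl.le
  have hev : F.eval t = (F.roots.map (fun a => t - a)).prod * q.eval t := by
    conv_lhs => rw [← hq]
    rw [eval_mul, eval_multiset_prod, Multiset.map_map]
    congr 2
    apply Multiset.map_congr rfl
    intro a _
    simp
  have hnm : t ∉ F.roots := by
    intro h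
    exact ht ((mem_roots hF).mp h)
  have := sign_prod t F.roots hnm
  rw [hev, ← mul_assoc]
  unfold Nge
  exact mul_pos this hqpos

/-- parity of `n` and of the integer part of `b` agree -/
theorem par_floor (n : ℕ) (b r : ℝ) (hr : 0 < r)
    (h : 0 < (-1 : ℝ) ^ n * (r * Real.sin (Real.pi * b))) : Even ((n : ℤ) + ⌊b⌋) := by
  have h1 : Real.sin (Real.pi * b) = (-1 : ℝ) ^ ⌊b⌋ * Real.sin (Real.pi * Int.fract b) := by
    rw [← Real.sin_add_int_mul_pi]
    congr 1
    have := Int.fract_add_floor b
    calc Real.pi * b = Real.pi * (Int.fract b + ⌊b⌋) := by rw [this]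
      _ = _ := by ring
  have h2 : 0 ≤ Real.sin (Real.pi * Int.fract b) := by
    apply Real.sin_nonneg_of_nonneg_of_le_pi
    · exact mul_nonneg Real.pi_pos.le (Int.fract_nonneg b)
    · have := (Int.fract_lt_one b).le
      nlinarith [Real.pi_pos]
  by_contra hE
  rw [Int.not_even_iff_odd] at hE
  have h3 : (-1 : ℝ) ^ ((n : ℤ) + ⌊b⌋) = -1 := hE.neg_one_zpow
  rw [zpow_add₀ (by norm_num), zpow_natCast] at h3
  have h4 : (-1 : ℝ) ^ n * (r * Real.sin (Real.pi * b)) = - (r * Real.sin (Real.pi * Int.fract b)) := by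
    rw [h1]
    calc (-1 : ℝ) ^ n * (r * ((-1 : ℝ) ^ ⌊b⌋ * Real.sin (Real.pi * Int.fract b)))
        = ((-1 : ℝ) ^ n * (-1 : ℝ) ^ ⌊b⌋) * (r * Real.sin (Real.pi * Int.fract b)) := by ring
      _ = _ := by rw [h3]; ring
  rw [h4] at h
  have := mul_nonneg hr.le h2
  linarith

theorem nge_anti (F : ℝ[X]) (s t : ℝ) (h : s ≤ t) : Nge F t ≤ Nge F s := by
  unfold Nge
  apply Multiset.card_le_card
  apply Multiset.monotone_filter_right
  intro b hb
  exact h.trans hb

end TJ

open Classical in
theorem t_J : S_TDEG → S_J := by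
  intro hTD g l R M θ θ' ρ' hl hlR hM hd hlc hPar hWR hθc hN hθ'c hρ hlim hθθ hHB
  obtain ⟨hdeg, hlead⟩ := hTD g l hl.ne' hd
  set F : ℝ[X] := T l g with hFdef
  have hdpos : (0 : ℝ) < g.natDegree := by exact_mod_cast hd
  have hFl : 0 < F.leadingCoeff := by
    rw [hlead]
    exact mul_pos (mul_pos (mul_pos two_pos hl) hdpos) hlc
  have hF : F ≠ 0 := by
    intro h
    rw [h] at hFl
    simp at hFl
  have hPF : Par F := TJ.par_T g l hPar
  obtain ⟨s, hs1, hs2⟩ := hHB
  obtain ⟨hc1, hc2⟩ := TJ.count F hF hPF s hs2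
  set pos : ℕ := (F.roots.filter (fun r => 0 < r)).card with hpos
  set ν : ℕ := Nge g l with hν
  have hpi := Real.pi_pos
  have hRl : 0 < R - l := by linarith
  -- small t0
  have hlow : ∀ b : ℝ, 0 < b → ∃ t0 : ℝ, 0 < t0 ∧ t0 < b ∧ t0 < R - l ∧
      θ' t0 < Real.pi * (((M - ν : ℤ) : ℝ) + 1) := by
    intro b hb
    have hca : ContinuousAt θ l := hθc.continuousAt (Ioo_mem_nhds hl hlR)
    rw [Metric.continuousAt_iff] at hca
    obtain ⟨δ, hδ, hδ'⟩ := hca (Real.pi / 8) (by positivity)
    refine ⟨min (δ / 2) (min (b / 2) ((R - l) / 2)), ?_, ?_, ?_, ?_⟩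
    · apply lt_min (by linarith) (lt_min (by linarith) (by linarith))
    · exact lt_of_le_of_lt ((min_le_right _ _).trans (min_le_left _ _)) (by linarith)
    · exact lt_of_le_of_lt ((min_le_right _ _).trans (min_le_right _ _)) (by linarith)
    · set t0 := min (δ / 2) (min (b / 2) ((R - l) / 2)) with ht0
      have h1 : 0 < t0 := lt_min (by linarith) (lt_min (by linarith) (by linarith))
      have h2 : t0 < R - l :=
        lt_of_le_of_lt ((min_le_right _ _).trans (min_le_right _ _)) (by linarith)
      have h3 : t0 < δ := lt_of_le_of_lt (min_le_left _ _) (by linarith)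
      have h4 : dist (t0 + l) l < δ := by
        rw [Real.dist_eq]
        have : t0 + l - l = t0 := by ring
        rw [this, abs_of_pos h1]
        exact h3
      have h5 := hδ' h4
      rw [Real.dist_eq, abs_lt] at h5
      have h6 := hθθ t0 ⟨h1, h2⟩
      rw [abs_lt] at h6
      have h7 := hN l ⟨hl, hlR⟩
      have h8 : θ l ≤ Real.pi * (M - ν) := by
        have : θ l / Real.pi ≤ M - ν := by linarith
        rw [div_le_iff₀ hpi] at this
        linarith
      push_cast
      nlinarith
  -- roots between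
  have hbetween : ∀ (t0 t1 : ℝ) (K0 K1 : ℤ), 0 < t0 → t0 < t1 → t1 < R - l →
      θ' t0 < Real.pi * (K0 + 1) → Real.pi * K1 < θ' t1 →
      K1 - K0 ≤ ((F.roots.filter (fun r => t0 < r ∧ r < t1)).card : ℤ) := by
    intro t0 t1 K0 K1 h0 h01 h1 h2 h3
    apply TJ.ivt F hF θ' ρ' t0 t1 h01 _ _ K0 K1 h2 h3
    · apply hθ'c.mono
      intro x hx
      exact ⟨lt_of_lt_of_le h0 hx.1, lt_of_le_of_lt hx.2 h1⟩
    · intro x hx
      exact (hρ x ⟨h0.trans hx.1, hx.2.trans h1⟩).2
  constructor
  · by_contra hW
    have hc3 := hc2 hW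
    obtain ⟨t0, ht0, -, ht0R, hθt0⟩ := hlow 1 one_pos
    -- t1 near R - l
    have hev : ∀ᶠ t in nhdsWithin (R - l) (Set.Iio (R - l)), Real.pi * ((M - 1 : ℤ) : ℝ) < θ' t := by
      apply hlim.eventually_const_lt
      push_cast
      nlinarith
    have hev2 : ∀ᶠ t in nhdsWithin (R - l) (Set.Iio (R - l)), t ∈ Set.Ioo t0 (R - l) :=
      Ioo_mem_nhdsLT ht0R
    obtain ⟨t1, ht1, ht1'⟩ := (hev.and hev2).exists
    have h1 := hbetween t0 t1 (M - ν) (M - 1) ht0 ht1'.1 ht1'.2 hθt0 ht1
    have h2 : (F.roots.filter (fun r => t0 < r ∧ r < t1)).card ≤ pos := by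
      apply Multiset.card_le_card
      apply Multiset.monotone_filter_right
      intro b hb
      exact ht0.trans hb.1
    omega
  · intro t ht
    by_contra hcon
    push Not at hcon
    -- move to the left
    have hmove : ∃ t' : ℝ, 0 < t' ∧ t' ≤ t ∧ F.eval t' ≠ 0 ∧
        (M : ℝ) < (Nge F t' : ℝ) + θ' t' / Real.pi := by
      have hca : ContinuousAt θ' t := hθ'c.continuousAt (Ioo_mem_nhds ht.1 ht.2)
      have hca2 : ContinuousAt (fun x => (Nge F t : ℝ) + θ' x / Real.pi) t :=
        continuousAt_const.add (hca.div_const _)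
      have h1 : ∀ᶠ x in nhds t, (M : ℝ) < (Nge F t : ℝ) + θ' x / Real.pi :=
        hca2.eventually_const_lt hcon
      have h2 : ∀ᶠ x in nhdsWithin t (Set.Iio t), (M : ℝ) < (Nge F t : ℝ) + θ' x / Real.pi :=
        h1.filter_mono nhdsWithin_le_nhds
      have h3 : ∀ᶠ x in nhdsWithin t (Set.Iio t), x ∈ Set.Ioo 0 t := Ioo_mem_nhdsLT ht.1
      have h4 : ∀ᶠ x in nhdsWithin t (Set.Iio t), F.eval x ≠ 0 := by
        have hfin : (F.rootSet ℝ).Finite := F.rootSet_finite ℝ
        have h5 : ((F.rootSet ℝ) \ {t})ᶜ ∈ nhds t := by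
          apply IsOpen.mem_nhds
          · exact (hfin.subset Set.sdiff_subset).isClosed.isOpen_compl
          · simp
        have h6 : ((F.rootSet ℝ) \ {t})ᶜ ∈ nhdsWithin t (Set.Iio t) := nhdsWithin_le_nhds h5
        filter_upwards [h6, self_mem_nhdsWithin] with x hx hxt hx0
        apply hx
        refine ⟨?_, ?_⟩
        · rw [mem_rootSet]
          exact ⟨hF, by simpa using hx0⟩
        · exact (ne_of_lt hxt)
      obtain ⟨x, hx2, hx3, hx4⟩ := (h2.and (h3.and h4)).exists
      refine ⟨x, hx3.1, hx3.2.le, hx4, ?_⟩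
      have h7 : (Nge F t : ℝ) ≤ Nge F x := by exact_mod_cast TJ.nge_anti F x t hx3.2.le
      linarith
    obtain ⟨t', ht'0, ht't, hFt', hcon'⟩ := hmove
    have ht'R : t' < R - l := lt_of_le_of_lt ht't ht.2
    obtain ⟨hρp, hρe⟩ := hρ t' ⟨ht'0, ht'R⟩
    set b : ℝ := θ' t' / Real.pi with hb
    have hθb : θ' t' = Real.pi * b := by
      rw [hb]; field_simp
    have hsg := TJ.sign_F F hFl t' hFt'
    rw [hρe, hθb] at hsg
    have hpar := TJ.par_floor (Nge F t') b (ρ' t') hρp hsg
    have hbne : (⌊b⌋ : ℝ) ≠ b := by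
      intro h
      apply hFt'
      rw [hρe, hθb, ← h, mul_comm Real.pi, Real.sin_int_mul_pi, mul_zero]
    have hblt : (⌊b⌋ : ℝ) < b := lt_of_le_of_ne (Int.floor_le b) hbne
    have h1 : (M : ℤ) ≤ (Nge F t' : ℤ) + ⌊b⌋ := by
      have h2 : b < ⌊b⌋ + 1 := Int.lt_floor_add_one b
      have h3 : (M : ℝ) < (Nge F t' : ℝ) + (⌊b⌋ : ℝ) + 1 := by linarith
      have h4 : (M : ℤ) < (Nge F t' : ℤ) + ⌊b⌋ + 1 := by exact_mod_cast h3
      omega
    have h2 : (M : ℤ) + 1 ≤ (Nge F t' : ℤ) + ⌊b⌋ := by
      rcases h1.lt_or_eq with h | h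
      · omega
      · exfalso
        rw [← h] at hpar
        have : Even M := by exact_mod_cast hpar
        exact (Nat.not_even_iff_odd.mpr hM) this
    obtain ⟨t0, ht0, ht0t, ht0R, hθt0⟩ := hlow t' ht'0
    have h3 := hbetween t0 t' (M - ν) ⌊b⌋ ht0 ht0t ht'R hθt0
      (by rw [hθb]; exact mul_lt_mul_of_pos_left hblt hpi)
    have h4 : (F.roots.filter (fun r => t0 < r ∧ r < t')).card + Nge F t' ≤ pos := by
      unfold Nge
      rw [← Multiset.card_add, hpos]
      apply Multiset.card_le_card
      rw [Multiset.filter_add_filter]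
      have h5 : F.roots.filter (fun a => (t0 < a ∧ a < t') ∧ t' ≤ a) = 0 := by
        rw [Multiset.filter_eq_nil]
        intro a _ h; linarith [h.1.2, h.2]
      rw [h5, add_zero]
      apply Multiset.monotone_filter_right
      rintro a (h | h)
      · exact ht0.trans h.1
      · exact ht'0.trans_le h
    omega

end Pool.Agent.H220CDD
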