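import Pool.Agent.H220CDD.Stm

set_option autoImplicit false

open Polynomial

namespace Pool.Agent.H220CDD

namespace TLA

lemma G_ne_zero_of_im {b : ℝ} {z : ℂ} (hz : z.im ≠ 0) : G b z ≠ 0 := by
  unfold G
  refine mul_ne_zero (mul_ne_zero (Complex.exp_ne_zero _) ?_) ?_
  · refine Complex.Gamma_ne_zero fun m h => hz ?_
    have := congrArg Complex.im h
    simpa using this
  · refine Complex.Gamma_ne_zero fun m h => hz ?_
    have := congrArg Complex.im h
    simpa using this

lemma zf_zero {l a : ℝ} (ha : 0 < a) : ZF l a 0 := by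
  intro z h0 h1 h2
  show G a z ≠ 0
  simp only [Nat.cast_zero, zero_mul, sub_zero] at h1 h2
  unfold G
  refine mul_ne_zero (mul_ne_zero (Complex.exp_ne_zero _) ?_) ?_
  · refine Complex.Gamma_ne_zero fun m h => ?_
    have := congrArg Complex.re h
    simp at this
    have hm : (0 : ℝ) ≤ m := Nat.cast_nonneg m
    linarith
  · refine Complex.Gamma_ne_zero fun m h => ?_
    have hr := congrArg Complex.re h
    simp at hr
    have hm : (m : ℝ) < 1 := by linarith
    have hm0 : m = 0 := by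
      have : m < 1 := by exact_mod_cast hm
      omega
    subst hm0
    apply h2
    have h3 : (a : ℂ) - z = 0 := by simpa using h
    exact (sub_eq_zero.1 h3).symm

lemma th2 (h : S_TID) {l : ℝ} (hl : 1 / 2 ≤ l) (n m : ℕ)
    (ih : ∀ k, n = k + 1 → ∀ m' : ℕ, l < (m' : ℝ) / 2 - k * l → EE l ((m' : ℝ) / 2) k)
    (hR : l < (m : ℝ) / 2 - n * l) : TH2 l ((m : ℝ) / 2) n := by
  intro z hz h0 h1
  have hn0 : (0 : ℝ) ≤ n * l := by positivity
  have hm : (1 : ℝ) < m := by linarith
  have hm1 : 1 < m := by exact_mod_cast hm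
  have hb : ((m - 1 : ℕ) : ℝ) / 2 = (m : ℝ) / 2 - 1 / 2 := by
    rw [Nat.cast_sub hm1.le]; push_cast; ring
  have hb0 : 0 < (m : ℝ) / 2 - 1 / 2 := by linarith
  have key := h l ((m : ℝ) / 2) n z hz
  have hpos : 0 < ‖U l ((m : ℝ) / 2) n (z + 1 / 2)‖ ^ 2 - ‖U l ((m : ℝ) / 2) n (z - 1 / 2)‖ ^ 2 := by
    rw [key]
    rcases n with _ | k
    · simp only [Nat.cast_zero, zero_mul, add_zero]
      have h2 : U l ((m : ℝ) / 2 - 1 / 2) 0 z ≠ 0 := G_ne_zero_of_im hz
      have h3 : 0 < ‖U l ((m : ℝ) / 2 - 1 / 2) 0 z‖ := norm_pos_iff.2 h2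
      positivity
    · have h4 := ih k rfl (m - 1)
      rw [hb] at h4
      push_cast at hR h1
      have hEE := h4 (by linarith) z h0 (by linarith) (by
        intro e
        apply hz
        have := congrArg Complex.im e
        simpa using this)
      have h5 : 0 < ‖U l ((m : ℝ) / 2 - 1 / 2) k (z + l)‖ ^ 2 -
          ‖U l ((m : ℝ) / 2 - 1 / 2) k (z - l)‖ ^ 2 := by
        have := norm_nonneg (U l ((m : ℝ) / 2 - 1 / 2) k (z - l))
        nlinarith
      have h6 : (k + 1 - 1 : ℕ) = k := by omega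
      rw [h6]
      have h7 : 0 ≤ z.re * ‖U l ((m : ℝ) / 2 - 1 / 2) (k + 1) z‖ ^ 2 := by positivity
      have h8 : 0 < ((k + 1 : ℕ) : ℝ) * l := by positivity
      have h9 := mul_pos h8 h5
      have h10 : 0 < 4 * ((m : ℝ) / 2 - 1 / 2) := by linarith
      exact mul_pos h10 (by linarith)
  by_contra hc
  push Not at hc
  have h0' := norm_nonneg (U l ((m : ℝ) / 2) n (z + 1 / 2))
  nlinarith

lemma step (hC : S_C) (hCE : S_CE) {l : ℝ} (hl : 1 / 2 ≤ l) {n m : ℕ}
    (hR : l < (m : ℝ) / 2 - n * l) (hZ : ZF l ((m : ℝ) / 2) n) (hT : TH2 l ((m : ℝ) / 2) n) :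
    EE l ((m : ℝ) / 2) n := by
  have hn0 : (0 : ℝ) ≤ n * l := by positivity
  have hm : (1 : ℝ) < m := by linarith
  have hm1 : 1 < m := by exact_mod_cast hm
  exact hCE l _ n hl hR (hC l m n hl hm1.le (by linarith) hZ hT)

end TLA

theorem t_LA : S_TID → S_C → S_CE → S_LA := by
  intro hTID hC hCE l m n hl
  induction n generalizing m with
  | zero =>
    have hz : 0 < (m : ℝ) / 2 - (0 : ℕ) * l → ZF l ((m : ℝ) / 2) 0 := by
      intro h
      exact TLA.zf_zero (by simpa using h)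
    refine ⟨hz, fun hR => ?_⟩
    exact TLA.step hC hCE hl hR (hz (by linarith))
      (TLA.th2 hTID hl 0 m (fun k hk => by omega) hR)
  | succ n ih =>
    have hz : 0 < (m : ℝ) / 2 - ((n + 1 : ℕ) : ℝ) * l → ZF l ((m : ℝ) / 2) (n + 1) := by
      intro h z h0 h1 h2
      push_cast at h h1 h2
      have hEE := (ih m).2 (by linarith) z h0 (by linarith) (by
        intro e
        apply h2
        have : z = (((m : ℝ) / 2 - n * l : ℝ) : ℂ) - l := by rw [← e]; ring
        rw [this]
        push_cast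
        ring)
      show U l ((m : ℝ) / 2) n (z + l) - U l ((m : ℝ) / 2) n (z - l) ≠ 0
      intro e
      rw [sub_eq_zero] at e
      rw [e] at hEE
      exact lt_irrefl _ hEE
    refine ⟨hz, fun hR => ?_⟩
    refine TLA.step hC hCE hl hR (hz (by linarith)) (TLA.th2 hTID hl (n + 1) m ?_ hR)
    intro k hk m' hm'
    obtain rfl : k = n := by omega
    exact (ih m').2 hm'

end Pool.Agent.H220CDD
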