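import Pool.Agent.H220CDD.Stm

set_option autoImplicit false

open Polynomial

namespace Pool.Agent.H220CDD

namespace TMESH

/-- `g` has degree `d` and `d` roots with gaps larger than `2 l` -/
def Q (l : ℝ) (g : ℝ[X]) (d : ℕ) (a : ℕ → ℝ) : Prop :=
  g.natDegree = d ∧ (∀ i < d, g.eval (a i) = 0) ∧ ∀ i, i + 1 < d → a i + 2 * l < a (i + 1)

lemma mono {l : ℝ} (hl : 0 < l) {d : ℕ} {a : ℕ → ℝ} (h : ∀ i, i + 1 < d → a i + 2 * l < a (i + 1)) :
    ∀ i j, i < j → j < d → a i < a j := by
  intro i j hij
  induction j, hij using Nat.le_induction with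
  | base => intro hj; have := h i hj; linarith
  | succ j hj ih =>
    intro hj2
    have h1 := ih (by omega)
    have h2 := h j hj2
    linarith

lemma card_image {l : ℝ} (hl : 0 < l) {d : ℕ} {a : ℕ → ℝ}
    (h : ∀ i, i + 1 < d → a i + 2 * l < a (i + 1)) :
    ((Finset.range d).image a).card = d := by
  rw [Finset.card_image_of_injOn, Finset.card_range]
  intro i hi j hj hij
  rw [Finset.mem_coe, Finset.mem_range] at hi hj
  rcases Nat.lt_trichotomy i j with h1 | h1 | h1
  · exact absurd hij (mono hl h i j h1 hj).ne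
  · exact h1
  · exact absurd hij (mono hl h j i h1 hi).ne'

lemma root_eq {l : ℝ} (hl : 0 < l) {g : ℝ[X]} (hg : g ≠ 0) {d : ℕ} {a : ℕ → ℝ} (h : Q l g d a)
    {x : ℝ} (hx : g.eval x = 0) : ∃ j < d, x = a j := by
  by_contra hc
  push Not at hc
  have hsub : (insert x ((Finset.range d).image a)).val ⊆ g.roots := by
    intro y hy
    rw [mem_roots hg, IsRoot.def]
    have hy' : y ∈ insert x ((Finset.range d).image a) := hy
    rw [Finset.mem_insert, Finset.mem_image] at hy'
    rcases hy' with rfl | ⟨i, hi, rfl⟩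
    · exact hx
    · exact h.2.1 i (Finset.mem_range.1 hi)
  have hcard := card_le_degree_of_subset_roots hsub
  rw [Finset.card_insert_of_notMem, card_image hl h.2.2, h.1] at hcard
  · omega
  · rw [Finset.mem_image]
    rintro ⟨i, hi, e⟩
    exact hc i (Finset.mem_range.1 hi) e.symm

lemma sign {l : ℝ} (hl : 0 < l) {g : ℝ[X]} (hg : g ≠ 0) {d : ℕ} {a : ℕ → ℝ} (h : Q l g d a)
    {i : ℕ} (hi : i + 1 < d) {x y : ℝ} (hx : a i < x) (hx2 : x < a (i + 1)) (hy : a i < y)
    (hy2 : y < a (i + 1)) : 0 < g.eval x * g.eval y := by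
  have hno : ∀ z, a i < z → z < a (i + 1) → g.eval z ≠ 0 := by
    intro z h1 h2 h3
    obtain ⟨j, hj, rfl⟩ := root_eq hl hg h h3
    rcases Nat.lt_trichotomy j i with h4 | h4 | h4
    · have := mono hl h.2.2 j i h4 (by omega); linarith
    · subst h4; exact lt_irrefl _ h1
    · rcases Nat.lt_or_ge (i + 1) j with h5 | h5
      · have := mono hl h.2.2 (i + 1) j h5 hj; linarith
      · obtain rfl : j = i + 1 := by omega
        exact lt_irrefl _ h2
  by_contra hc
  push Not at hc
  have hne : g.eval x * g.eval y ≠ 0 := mul_ne_zero (hno x hx hx2) (hno y hy hy2)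
  have hneg : g.eval x * g.eval y < 0 := lt_of_le_of_ne hc hne
  have hcont : ContinuousOn (fun z => g.eval z) (Set.uIcc x y) := g.continuous.continuousOn
  have h0 : (0 : ℝ) ∈ Set.uIcc (g.eval x) (g.eval y) := by
    rw [Set.mem_uIcc]
    rcases mul_neg_iff.1 hneg with ⟨h1, h2⟩ | ⟨h1, h2⟩
    · right; exact ⟨h2.le, h1.le⟩
    · left; exact ⟨h1.le, h2.le⟩
  obtain ⟨z, hz, hz0⟩ := intermediate_value_uIcc hcont h0
  rw [Set.mem_uIcc] at hz
  refine hno z ?_ ?_ hz0
  · rcases hz with hz | hz <;> linarith [hz.1]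
  · rcases hz with hz | hz <;> linarith [hz.2]

lemma T_eval (l : ℝ) (g : ℝ[X]) (x : ℝ) : (T l g).eval x = g.eval (x + l) - g.eval (x - l) := by
  unfold T
  simp [eval_comp]

lemma step (hT : S_TDEG) {l : ℝ} (hl : 0 < l) {g : ℝ[X]} {d : ℕ} {a : ℕ → ℝ}
    (h : Q l g (d + 1) a) : ∃ b, Q l (T l g) d b := by
  have hg : g ≠ 0 := by
    rintro rfl
    have := h.1
    simp at this
  have hex : ∀ i, ∃ b : ℝ, i < d → a i + l < b ∧ b < a (i + 1) - l ∧ (T l g).eval b = 0 := by
    intro i
    by_cases hi : i < d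
    · have hgap := h.2.2 i (by omega)
      have e1 : (T l g).eval (a i + l) = g.eval (a i + 2 * l) := by
        rw [T_eval, show a i + l - l = a i by ring, h.2.1 i (by omega), sub_zero]
        congr 1; ring
      have e2 : (T l g).eval (a (i + 1) - l) = -g.eval (a (i + 1) - 2 * l) := by
        rw [T_eval, show a (i + 1) - l + l = a (i + 1) by ring, h.2.1 (i + 1) (by omega), zero_sub]
        congr 2; ring
      have hs := sign hl hg h (i := i) (by omega) (x := a i + 2 * l) (y := a (i + 1) - 2 * l)
        (by linarith) (by linarith) (by linarith) (by linarith)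
      have hcont : ContinuousOn (fun z => (T l g).eval z) (Set.Icc (a i + l) (a (i + 1) - l)) :=
        (T l g).continuous.continuousOn
      have hlt : a i + l < a (i + 1) - l := by linarith
      have hroot : ∃ b ∈ Set.Icc (a i + l) (a (i + 1) - l), (T l g).eval b = 0 := by
        rcases mul_pos_iff.1 hs with ⟨h1, h2⟩ | ⟨h1, h2⟩
        · have := intermediate_value_Icc' hlt.le hcont
          obtain ⟨b, hb, hb0⟩ := this (show (0 : ℝ) ∈ Set.Icc _ _ by
            constructor
            · show (T l g).eval (a (i + 1) - l) ≤ 0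
              rw [e2]; linarith
            · show 0 ≤ (T l g).eval (a i + l)
              rw [e1]; exact h1.le)
          exact ⟨b, hb, hb0⟩
        · have := intermediate_value_Icc hlt.le hcont
          obtain ⟨b, hb, hb0⟩ := this (show (0 : ℝ) ∈ Set.Icc _ _ by
            constructor
            · show (T l g).eval (a i + l) ≤ 0
              rw [e1]; exact h1.le
            · show 0 ≤ (T l g).eval (a (i + 1) - l)
              rw [e2]; linarith)
          exact ⟨b, hb, hb0⟩
      obtain ⟨b, hb, hb0⟩ := hroot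
      have hne1 : g.eval (a i + 2 * l) ≠ 0 := fun e => by rw [e, zero_mul] at hs; exact lt_irrefl _ hs
      have hne2 : g.eval (a (i + 1) - 2 * l) ≠ 0 := fun e => by
        rw [e, mul_zero] at hs; exact lt_irrefl _ hs
      refine ⟨b, fun _ => ⟨lt_of_le_of_ne hb.1 ?_, lt_of_le_of_ne hb.2 ?_, hb0⟩⟩
      · rintro rfl
        rw [e1] at hb0; exact hne1 hb0
      · rintro rfl
        rw [e2] at hb0; exact hne2 (neg_eq_zero.1 hb0)
    · exact ⟨0, fun h => absurd h hi⟩
  choose b hb using hex
  refine ⟨b, ?_, fun i hi => (hb i hi).2.2, fun i hi => ?_⟩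
  · rw [(hT g l hl.ne' (by rw [h.1]; omega)).1, h.1]; omega
  · have h1 := (hb i (by omega)).2.1
    have h2 := (hb (i + 1) hi).1
    linarith

lemma base {l : ℝ} (hl2 : l < 1 / 2) (N : ℕ) :
    Q l (pN N) (2 * N + 1) (fun i => (i : ℝ) - N) := by
  refine ⟨?_, ?_, ?_⟩
  · unfold pN
    rw [natDegree_prod_of_monic _ _ (fun k _ => monic_X_sub_C _)]
    simp only [natDegree_X_sub_C, Finset.sum_const, Int.card_Icc, smul_eq_mul, mul_one]
    omega
  · intro i hi
    unfold pN
    rw [eval_prod]
    refine Finset.prod_eq_zero (i := (i : ℤ) - N) ?_ ?_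
    · rw [Finset.mem_Icc]; constructor <;> omega
    · simp
  · intro i _
    push_cast
    linarith

end TMESH

theorem t_MESH : S_TDEG → S_MESH := by
  intro hT l N n hl hl2 hn z hz
  have key : ∀ n, n ≤ 2 * N + 1 → ∃ a, TMESH.Q l (f l N n) (2 * N + 1 - n) a := by
    intro n
    induction n with
    | zero => intro _; exact ⟨_, TMESH.base hl2 N⟩
    | succ n ih =>
      intro hn
      obtain ⟨a, ha⟩ := ih (by omega)
      have e : 2 * N + 1 - n = (2 * N + 1 - (n + 1)) + 1 := by omega
      rw [e] at ha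
      have hf : f l N (n + 1) = T l (f l N n) := by
        unfold f
        rw [Function.iterate_succ_apply']
      rw [hf]
      exact TMESH.step hT hl ha
  have hlc : ∀ n, n ≤ 2 * N + 1 → f l N n ≠ 0 := by
    intro n
    induction n with
    | zero =>
      intro _
      show pN N ≠ 0
      unfold pN
      exact (monic_prod_of_monic _ _ fun k _ => monic_X_sub_C _).ne_zero
    | succ n ih =>
      intro hn
      have h1 := ih (by omega)
      obtain ⟨a, ha⟩ := key n (by omega)
      have hf : f l N (n + 1) = T l (f l N n) := by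
        unfold f
        rw [Function.iterate_succ_apply']
      have h2 := (hT (f l N n) l hl.ne' (by rw [ha.1]; omega)).2
      intro h3
      rw [← hf, h3, leadingCoeff_zero] at h2
      have h4 : (f l N n).leadingCoeff ≠ 0 := leadingCoeff_ne_zero.2 h1
      have h5 : ((f l N n).natDegree : ℝ) ≠ 0 := by
        rw [ha.1]; exact_mod_cast (by omega : 2 * N + 1 - n ≠ 0)
      have h6 : 2 * l * ((f l N n).natDegree : ℝ) * (f l N n).leadingCoeff ≠ 0 :=
        mul_ne_zero (mul_ne_zero (by positivity) h5) h4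
      exact h6 h2.symm
  obtain ⟨a, ha⟩ := key n hn
  have hne := hlc n hn
  by_contra him
  set g := (f l N n).map (algebraMap ℝ ℂ) with hg
  have hg0 : g ≠ 0 := (Polynomial.map_ne_zero_iff (algebraMap ℝ ℂ).injective).2 hne
  set d := 2 * N + 1 - n with hd
  have hsub : (insert z ((Finset.range d).image (fun i => (a i : ℂ)))).val ⊆ g.roots := by
    intro y hy
    rw [mem_roots hg0, IsRoot.def]
    have hy' : y ∈ insert z ((Finset.range d).image (fun i => (a i : ℂ))) := hy
    rw [Finset.mem_insert, Finset.mem_image] at hy'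
    rcases hy' with rfl | ⟨i, hi, rfl⟩
    · rw [hg, eval_map_algebraMap]; exact hz
    · have h1 := ha.2.1 i (Finset.mem_range.1 hi)
      rw [hg]
      have h2 := Polynomial.eval_map_algebraMap (B := ℂ) (f l N n) ((a i : ℝ) : ℂ)
      rw [h2]
      have h3 : aeval ((a i : ℝ) : ℂ) (f l N n) = (((f l N n).eval (a i) : ℝ) : ℂ) := by
        have := Polynomial.aeval_algebraMap_apply ℂ (a i) (f l N n)
        simpa [Polynomial.coe_aeval_eq_eval] using this
      rw [h3, h1]; simp
  have hcard := card_le_degree_of_subset_roots hsub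
  rw [Finset.card_insert_of_notMem, Finset.card_image_of_injOn, Finset.card_range, hg,
    natDegree_map, ha.1] at hcard
  · omega
  · intro i hi j hj hij
    have hij' : a i = a j := Complex.ofReal_injective hij
    rw [Finset.mem_coe, Finset.mem_range] at hi hj
    rcases Nat.lt_trichotomy i j with h1 | h1 | h1
    · exact absurd hij' (TMESH.mono hl ha.2.2 i j h1 hj).ne
    · exact h1
    · exact absurd hij' (TMESH.mono hl ha.2.2 j i h1 hi).ne'
  · rw [Finset.mem_image]
    rintro ⟨i, hi, e⟩
    apply him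
    rw [← e]; simp

end Pool.Agent.H220CDD
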