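import Pool.Agent.H220CDD.Stm

set_option autoImplicit false

/-! CDD-SYM (helper612): symmetry and differentiability of `U`. -/

namespace Pool.Agent.H220CDD

namespace TSYM

theorem G_sym (a : ℝ) (z : ℂ) : G a (-(starRingEnd ℂ z)) = starRingEnd ℂ (G a z) := by
  unfold G
  rw [map_mul, map_mul, ← Complex.exp_conj, ← Complex.Gamma_conj, ← Complex.Gamma_conj]
  simp only [map_mul, map_add, map_sub, Complex.conj_ofReal, Complex.conj_I]
  rw [show (a : ℂ) + -(starRingEnd ℂ) z = a - (starRingEnd ℂ) z by ring,
    show (a : ℂ) - -(starRingEnd ℂ) z = a + (starRingEnd ℂ) z by ring,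
    show (Real.pi : ℂ) * Complex.I * -(starRingEnd ℂ) z =
      Real.pi * -Complex.I * (starRingEnd ℂ) z by ring]
  ring

theorem U_succ (l a : ℝ) (n : ℕ) (z : ℂ) :
    U l a (n + 1) z = U l a n (z + l) - U l a n (z - l) := rfl

theorem ne_of_re_pos {w : ℂ} (hw : 0 < w.re) (m : ℕ) : w ≠ -m := by
  intro h
  have h1 := congrArg Complex.re h
  simp only [Complex.neg_re, Complex.natCast_re] at h1
  have : (0 : ℝ) ≤ m := Nat.cast_nonneg m
  linarith

end TSYM

open TSYM

theorem t_SYM : S_SYM := by
  intro l a n
  induction n with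
  | zero =>
    intro z
    rw [pow_zero, one_mul]
    exact G_sym a z
  | succ n ih =>
    intro z
    have h1 : -(starRingEnd ℂ z) + (l : ℂ) = -(starRingEnd ℂ (z - l)) := by
      rw [map_sub, Complex.conj_ofReal]
      ring
    have h2 : -(starRingEnd ℂ z) - (l : ℂ) = -(starRingEnd ℂ (z + l)) := by
      rw [map_add, Complex.conj_ofReal]
      ring
    rw [U_succ, U_succ, h1, h2, ih, ih, map_sub]
    ring

theorem t_DIFF : S_DIFF := by
  intro l a n hl
  induction n with
  | zero =>
    intro z hz
    rw [Nat.cast_zero, zero_mul, sub_zero, abs_lt] at hz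
    have h1 : DifferentiableAt ℂ (fun z : ℂ => Complex.Gamma (a + z)) z := by
      have h2 : DifferentiableAt ℂ Complex.Gamma ((a : ℂ) + z) :=
        Complex.differentiableAt_Gamma _ (ne_of_re_pos (by
          rw [Complex.add_re, Complex.ofReal_re]
          linarith))
      exact DifferentiableAt.comp (g := Complex.Gamma) (f := fun z : ℂ => (a : ℂ) + z) z h2
        (by fun_prop)
    have h3 : DifferentiableAt ℂ (fun z : ℂ => Complex.Gamma (a - z)) z := by
      have h2 : DifferentiableAt ℂ Complex.Gamma ((a : ℂ) - z) :=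
        Complex.differentiableAt_Gamma _ (ne_of_re_pos (by
          rw [Complex.sub_re, Complex.ofReal_re]
          linarith))
      exact DifferentiableAt.comp (g := Complex.Gamma) (f := fun z : ℂ => (a : ℂ) - z) z h2
        (by fun_prop)
    have h4 : DifferentiableAt ℂ (fun z : ℂ => Complex.exp (Real.pi * Complex.I * z)) z := by
      fun_prop
    exact (h4.mul h1).mul h3
  | succ n ih =>
    intro z hz
    rw [abs_lt] at hz
    push_cast at hz
    have h1 : DifferentiableAt ℂ (fun z : ℂ => U l a n (z + l)) z := by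
      have h2 : DifferentiableAt ℂ (U l a n) (z + l) := ih _ (by
        rw [Complex.add_re, Complex.ofReal_re, abs_lt]
        constructor <;> linarith)
      exact DifferentiableAt.comp (g := U l a n) (f := fun z : ℂ => z + (l : ℂ)) z h2
        (by fun_prop)
    have h3 : DifferentiableAt ℂ (fun z : ℂ => U l a n (z - l)) z := by
      have h2 : DifferentiableAt ℂ (U l a n) (z - l) := ih _ (by
        rw [Complex.sub_re, Complex.ofReal_re, abs_lt]
        constructor <;> linarith)
      exact DifferentiableAt.comp (g := U l a n) (f := fun z : ℂ => z - (l : ℂ)) z h2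
        (by fun_prop)
    exact h1.sub h3

/-- both statements -/
theorem t_SYM_DIFF : S_SYM ∧ S_DIFF := ⟨t_SYM, t_DIFF⟩

end Pool.Agent.H220CDD
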