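import Pool.Agent.H220CDD.Stm

set_option autoImplicit false

/-! The continuous argument of `(-1)^N U`. -/

namespace Pool.Agent.H220CDD

open Filter Topology Set

namespace TTH

theorem arg_bd {q : ℂ} (hq : ‖q‖ < 1) : 0 < (1 - q).re := by
  rw [Complex.sub_re, Complex.one_re]
  have := Complex.re_le_norm q
  linarith

theorem norm_div_lt {p q : ℂ} (h : ‖p‖ < ‖q‖) : ‖p / q‖ < 1 := by
  have h0 : 0 < ‖q‖ := lt_of_le_of_lt (norm_nonneg _) h
  rw [norm_div, div_lt_one h0]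
  exact h

theorem ne_of_lt {p q : ℂ} (h : ‖p‖ < ‖q‖) : q ≠ 0 :=
  norm_pos_iff.1 (lt_of_le_of_lt (norm_nonneg _) h)

theorem gamma_top {c : ℝ} : Tendsto (fun x => Real.Gamma (c - x)) (𝓝[<] c) atTop := by
  have h1 : Tendsto (fun x => c - x) (𝓝[<] c) (𝓝[>] 0) := by
    refine tendsto_nhdsWithin_iff.2 ⟨?_, ?_⟩
    · have : Tendsto (fun x => c - x) (𝓝 c) (𝓝 (c - c)) := (continuous_const.sub continuous_id).tendsto c
      rw [sub_self] at this
      exact this.mono_left nhdsWithin_le_nhds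
    · filter_upwards [self_mem_nhdsWithin] with x hx
      simpa using hx
  have h2 : Tendsto (fun s => Real.Gamma (s + 1)) (𝓝[>] 0) (𝓝 1) := by
    have h3 : ContinuousAt (fun s => Real.Gamma (s + 1)) 0 := by
      have : ContinuousAt Real.Gamma (0 + 1) := by
        refine (Real.differentiableAt_Gamma fun m => ?_).continuousAt
        have : (0 : ℝ) ≤ m := Nat.cast_nonneg m
        linarith
      exact this.comp (f := fun s : ℝ => s + 1) (continuous_id.add continuous_const).continuousAt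
    have h4 := h3.tendsto
    simp only [zero_add, Real.Gamma_one] at h4
    exact h4.mono_left nhdsWithin_le_nhds
  have h3 : Tendsto (fun s : ℝ => s⁻¹ * Real.Gamma (s + 1)) (𝓝[>] 0) atTop :=
    tendsto_inv_nhdsGT_zero.atTop_mul_pos one_pos h2
  refine (h3.comp h1).congr' ?_
  filter_upwards [self_mem_nhdsWithin] with x hx
  have hx0 : c - x ≠ 0 := by
    have : x < c := hx
    linarith
  simp only [Function.comp_apply]
  rw [Real.Gamma_add_one hx0]
  field_simp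

/-- the base case: value -/
theorem base (N : ℕ) {x : ℝ} (hx0 : -((N : ℝ) + 1) < x) (hx : x < (N : ℝ) + 1) (l : ℝ) :
    U l ((N : ℝ) + 1) 0 (x : ℂ) =
      Complex.exp (Real.pi * Complex.I * x) *
        ((Real.Gamma ((N : ℝ) + 1 + x) * Real.Gamma ((N : ℝ) + 1 - x) : ℝ) : ℂ) ∧
    0 < Real.Gamma ((N : ℝ) + 1 + x) * Real.Gamma ((N : ℝ) + 1 - x) ∧
    ‖U l ((N : ℝ) + 1) 0 (x : ℂ)‖ = Real.Gamma ((N : ℝ) + 1 + x) * Real.Gamma ((N : ℝ) + 1 - x) := by
  have h1 : U l ((N : ℝ) + 1) 0 (x : ℂ) =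
      Complex.exp (Real.pi * Complex.I * x) *
        ((Real.Gamma ((N : ℝ) + 1 + x) * Real.Gamma ((N : ℝ) + 1 - x) : ℝ) : ℂ) := by
    unfold U G
    rw [Complex.ofReal_mul, ← Complex.Gamma_ofReal, ← Complex.Gamma_ofReal, mul_assoc]
    push_cast
    rfl
  have h2 : 0 < Real.Gamma ((N : ℝ) + 1 + x) * Real.Gamma ((N : ℝ) + 1 - x) :=
    mul_pos (Real.Gamma_pos_of_pos (by linarith)) (Real.Gamma_pos_of_pos (by linarith))
  refine ⟨h1, h2, ?_⟩
  rw [h1, norm_mul, Complex.norm_real, Real.norm_of_nonneg h2.le]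
  have : ‖Complex.exp (Real.pi * Complex.I * x)‖ = 1 := by
    have e : (Real.pi * Complex.I * x : ℂ) = ((Real.pi * x : ℝ) : ℂ) * Complex.I := by
      push_cast
      ring
    rw [e, Complex.norm_exp_ofReal_mul_I]
  rw [this, one_mul]

/-- the induction hypothesis -/
def P (l : ℝ) (N n : ℕ) : Prop :=
  ContinuousOn (th l N n) (Set.Ioo 0 ((N : ℝ) + 1 - n * l)) ∧
  (∀ x ∈ Set.Ioo 0 ((N : ℝ) + 1 - n * l), U l ((N : ℝ) + 1) n (x : ℂ) ≠ 0 ∧
    (-1) ^ N * U l ((N : ℝ) + 1) n (x : ℂ) =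
      ‖U l ((N : ℝ) + 1) n (x : ℂ)‖ * Complex.exp (Complex.I * th l N n x)) ∧
  Filter.Tendsto (th l N n) (nhdsWithin ((N : ℝ) + 1 - n * l) (Set.Iio ((N : ℝ) + 1 - n * l)))
    (nhds (Real.pi * (2 * N + 1))) ∧
  Filter.Tendsto (fun x : ℝ => ‖U l ((N : ℝ) + 1) n (x : ℂ)‖)
    (nhdsWithin ((N : ℝ) + 1 - n * l) (Set.Iio ((N : ℝ) + 1 - n * l))) atTop

theorem P_zero (l : ℝ) (N : ℕ) : P l N 0 := by
  have hth : th l N 0 = fun x => Real.pi * (x + N) := by
    funext x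
    rfl
  have hN : (0 : ℝ) ≤ N := Nat.cast_nonneg N
  unfold P
  simp only [Nat.cast_zero, zero_mul, sub_zero]
  rw [hth]
  refine ⟨by fun_prop, ?_, ?_, ?_⟩
  · intro x hx
    obtain ⟨b1, b2, b3⟩ := base N (x := x) (by linarith [hx.1]) hx.2 l
    have hne : U l ((N : ℝ) + 1) 0 (x : ℂ) ≠ 0 := by
      rw [← norm_pos_iff, b3]
      exact b2
    refine ⟨hne, ?_⟩
    rw [b3, b1]
    have e1 : Complex.exp (Complex.I * ((Real.pi * (x + N) : ℝ) : ℂ)) =
        (-1) ^ N * Complex.exp (Real.pi * Complex.I * x) := by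
      have e2 : Complex.I * ((Real.pi * (x + N) : ℝ) : ℂ) =
          (N : ℂ) * (Real.pi * Complex.I) + Real.pi * Complex.I * x := by
        push_cast
        ring
      rw [e2, Complex.exp_add, Complex.exp_nat_mul, Complex.exp_pi_mul_I]
    rw [e1]
    ring
  · have h : Continuous fun x : ℝ => Real.pi * (x + N) := by fun_prop
    have h2 := h.tendsto ((N : ℝ) + 1)
    have e : Real.pi * ((N : ℝ) + 1 + N) = Real.pi * (2 * N + 1) := by ring
    rw [e] at h2
    exact h2.mono_left nhdsWithin_le_nhds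
  · have h1 : Tendsto (fun x => Real.Gamma ((N : ℝ) + 1 + x)) (𝓝[<] ((N : ℝ) + 1))
        (𝓝 (Real.Gamma ((N : ℝ) + 1 + (N + 1)))) := by
      have : ContinuousAt (fun x : ℝ => Real.Gamma ((N : ℝ) + 1 + x)) ((N : ℝ) + 1) := by
        have h2 : ContinuousAt Real.Gamma ((N : ℝ) + 1 + (N + 1)) := by
          refine (Real.differentiableAt_Gamma fun m => ?_).continuousAt
          have : (0 : ℝ) ≤ m := Nat.cast_nonneg m
          linarith
        exact h2.comp (f := fun x : ℝ => (N : ℝ) + 1 + x) (by fun_prop)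
      exact this.tendsto.mono_left nhdsWithin_le_nhds
    have h3 := h1.pos_mul_atTop (Real.Gamma_pos_of_pos (by linarith)) (gamma_top (c := (N : ℝ) + 1))
    refine h3.congr' ?_
    have h4 : ∀ᶠ x : ℝ in 𝓝[<] ((N : ℝ) + 1), -((N : ℝ) + 1) < x :=
      nhdsWithin_le_nhds (lt_mem_nhds (by linarith))
    filter_upwards [self_mem_nhdsWithin, h4] with x hx hx'
    exact (base N hx' hx l).2.2.symm

theorem P_succ (hD : S_DIFF) (l : ℝ) (N : ℕ) (hl : 1 / 2 ≤ l)
    (H : ∀ (n : ℕ) (x : ℝ), 0 < x → x < (N : ℝ) + 1 - n * l - l →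
      ‖U l ((N : ℝ) + 1) n ((x - l : ℝ) : ℂ)‖ < ‖U l ((N : ℝ) + 1) n ((x + l : ℝ) : ℂ)‖)
    (n : ℕ) (hR : 0 < (N : ℝ) + 1 - (n + 1 : ℕ) * l) (ih : P l N n) : P l N (n + 1) := by
  obtain ⟨R, hRd⟩ : ∃ R : ℝ, R = (N : ℝ) + 1 - n * l := ⟨_, rfl⟩
  have hR1 : (N : ℝ) + 1 - (n + 1 : ℕ) * l = R - l := by
    rw [hRd]
    push_cast
    ring
  unfold P at ih ⊢
  rw [hR1] at hR ⊢
  have H := H n
  rw [← hRd] at H ih
  obtain ⟨i1, i2, i3, i4⟩ := ih
  have hl0 : 0 < l := by linarith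
  -- continuity of `U_n`
  have hc : ∀ x : ℝ, |x| < R → ContinuousAt (fun x : ℝ => U l ((N : ℝ) + 1) n (x : ℂ)) x := by
    intro x hx
    have h1 : DifferentiableAt ℂ (U l ((N : ℝ) + 1) n) (x : ℂ) :=
      hD l _ n hl0.le _ (by rw [Complex.ofReal_re, ← hRd]; exact hx)
    exact h1.continuousAt.comp Complex.continuous_ofReal.continuousAt
  have hcm : ∀ x : ℝ, 0 < x → x < R → ContinuousAt (fun x : ℝ => U l ((N : ℝ) + 1) n ((x - l : ℝ) : ℂ)) x := by
    intro x hx hx'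
    exact (hc (x - l) (abs_lt.2 ⟨by linarith, by linarith⟩)).comp
      (f := fun x : ℝ => x - l) (by fun_prop)
  have hcp : ∀ x : ℝ, 0 < x → x < R - l →
      ContinuousAt (fun x : ℝ => U l ((N : ℝ) + 1) n ((x + l : ℝ) : ℂ)) x := by
    intro x hx hx'
    exact (hc (x + l) (abs_lt.2 ⟨by linarith, by linarith⟩)).comp
      (f := fun x : ℝ => x + l) (by fun_prop)
  have hU : ∀ x : ℝ, U l ((N : ℝ) + 1) (n + 1) (x : ℂ) =
      U l ((N : ℝ) + 1) n ((x + l : ℝ) : ℂ) - U l ((N : ℝ) + 1) n ((x - l : ℝ) : ℂ) := by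
    intro x
    push_cast
    rfl
  have hsh : Tendsto (fun x : ℝ => x + l) (𝓝[<] (R - l)) (𝓝[<] R) := by
    refine tendsto_nhdsWithin_iff.2 ⟨?_, ?_⟩
    · have : Tendsto (fun x : ℝ => x + l) (𝓝 (R - l)) (𝓝 (R - l + l)) :=
        (continuous_id.add continuous_const).tendsto _
      rw [sub_add_cancel] at this
      exact this.mono_left nhdsWithin_le_nhds
    · filter_upwards [self_mem_nhdsWithin] with x hx
      have : x < R - l := hx
      show x + l < R
      linarith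
  have hlim : Tendsto (fun x : ℝ => U l ((N : ℝ) + 1) n ((x - l : ℝ) : ℂ)) (𝓝[<] (R - l))
      (𝓝 (U l ((N : ℝ) + 1) n ((R - l - l : ℝ) : ℂ))) :=
    (hcm (R - l) hR (by linarith)).tendsto.mono_left nhdsWithin_le_nhds
  have htop : Tendsto (fun x : ℝ => ‖U l ((N : ℝ) + 1) n ((x + l : ℝ) : ℂ)‖) (𝓝[<] (R - l)) atTop :=
    i4.comp hsh
  refine ⟨?_, ?_, ?_, ?_⟩
  · intro x hx
    refine ContinuousAt.continuousWithinAt ?_
    have hx1 : x + l ∈ Ioo 0 R := ⟨by linarith [hx.1], by linarith [hx.2]⟩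
    have e1 : ContinuousAt (fun x => th l N n (x + l)) x :=
      (i1.continuousAt (isOpen_Ioo.mem_nhds hx1)).comp (f := fun x : ℝ => x + l) (by fun_prop)
    have hq := H x hx.1 hx.2
    have e2 : ContinuousAt (fun x : ℝ => 1 - U l ((N : ℝ) + 1) n ((x - l : ℝ) : ℂ) /
        U l ((N : ℝ) + 1) n ((x + l : ℝ) : ℂ)) x :=
      continuousAt_const.sub ((hcm x hx.1 (by linarith [hx.2])).div (hcp x hx.1 hx.2) (ne_of_lt hq))
    have e3 := (Complex.continuousAt_arg (Or.inl (arg_bd (norm_div_lt hq)))).comp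
      (f := fun x : ℝ => 1 - U l ((N : ℝ) + 1) n ((x - l : ℝ) : ℂ) /
        U l ((N : ℝ) + 1) n ((x + l : ℝ) : ℂ)) e2
    exact e1.add e3
  · intro x hx
    have hx1 : x + l ∈ Ioo 0 R := ⟨by linarith [hx.1], by linarith [hx.2]⟩
    obtain ⟨j1, j2⟩ := i2 (x + l) hx1
    have hq := H x hx.1 hx.2
    have hb := arg_bd (norm_div_lt hq)
    set q : ℂ := U l ((N : ℝ) + 1) n ((x - l : ℝ) : ℂ) / U l ((N : ℝ) + 1) n ((x + l : ℝ) : ℂ)
      with hqd
    have hq1 : (1 - q) ≠ 0 := by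
      intro h
      rw [h] at hb
      simp at hb
    have e1 : U l ((N : ℝ) + 1) (n + 1) (x : ℂ) = U l ((N : ℝ) + 1) n ((x + l : ℝ) : ℂ) * (1 - q) := by
      rw [hU, hqd]
      field_simp
    refine ⟨by rw [e1]; exact mul_ne_zero j1 hq1, ?_⟩
    have e2 : th l N (n + 1) x = th l N n (x + l) + Complex.arg (1 - q) := rfl
    have e3 : (1 - q) = ‖1 - q‖ * Complex.exp (Complex.arg (1 - q) * Complex.I) :=
      (Complex.norm_mul_exp_arg_mul_I _).symm
    rw [e1, norm_mul, e2]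
    calc (-1) ^ N * (U l ((N : ℝ) + 1) n ((x + l : ℝ) : ℂ) * (1 - q))
        = ((-1) ^ N * U l ((N : ℝ) + 1) n ((x + l : ℝ) : ℂ)) * (1 - q) := by ring
      _ = (‖U l ((N : ℝ) + 1) n ((x + l : ℝ) : ℂ)‖ * Complex.exp (Complex.I * th l N n (x + l))) *
          (‖1 - q‖ * Complex.exp (Complex.arg (1 - q) * Complex.I)) := by rw [j2, ← e3]
      _ = ((‖U l ((N : ℝ) + 1) n ((x + l : ℝ) : ℂ)‖ * ‖1 - q‖ : ℝ) : ℂ) *
          Complex.exp (Complex.I * ((th l N n (x + l) + Complex.arg (1 - q) : ℝ) : ℂ)) := by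
        have e4 : Complex.I * ((th l N n (x + l) + Complex.arg (1 - q) : ℝ) : ℂ) =
            Complex.I * th l N n (x + l) + Complex.arg (1 - q) * Complex.I := by
          push_cast
          ring
        rw [e4, Complex.exp_add]
        push_cast
        ring
  · have e1 : Tendsto (fun x => th l N n (x + l)) (𝓝[<] (R - l)) (𝓝 (Real.pi * (2 * N + 1))) :=
      i3.comp hsh
    have e2 : Tendsto (fun x : ℝ => U l ((N : ℝ) + 1) n ((x - l : ℝ) : ℂ) /
        U l ((N : ℝ) + 1) n ((x + l : ℝ) : ℂ)) (𝓝[<] (R - l)) (𝓝 0) := by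
      have e3 : Tendsto (fun x : ℝ => (U l ((N : ℝ) + 1) n ((x + l : ℝ) : ℂ))⁻¹) (𝓝[<] (R - l))
          (𝓝 0) := by
        rw [tendsto_zero_iff_norm_tendsto_zero]
        have := tendsto_inv_atTop_zero.comp htop
        refine this.congr fun x => ?_
        simp
      have e4 := hlim.mul e3
      rw [mul_zero] at e4
      exact e4
    have e3 : Tendsto (fun x : ℝ => Complex.arg (1 - U l ((N : ℝ) + 1) n ((x - l : ℝ) : ℂ) /
        U l ((N : ℝ) + 1) n ((x + l : ℝ) : ℂ))) (𝓝[<] (R - l)) (𝓝 0) := by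
      have e5 : Tendsto (fun x : ℝ => 1 - U l ((N : ℝ) + 1) n ((x - l : ℝ) : ℂ) /
        U l ((N : ℝ) + 1) n ((x + l : ℝ) : ℂ)) (𝓝[<] (R - l)) (𝓝 1) := by
        have := (tendsto_const_nhds (x := (1 : ℂ))).sub e2
        rwa [sub_zero] at this
      have e6 : Tendsto Complex.arg (𝓝 1) (𝓝 0) := by
        have := (Complex.continuousAt_arg (x := 1) (by simp)).tendsto
        rwa [Complex.arg_one] at this
      exact e6.comp e5
    have e4 := e1.add e3
    rw [add_zero] at e4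
    exact e4
  · have e1 : Tendsto (fun x : ℝ => ‖U l ((N : ℝ) + 1) n ((x + l : ℝ) : ℂ)‖ -
        ‖U l ((N : ℝ) + 1) n ((x - l : ℝ) : ℂ)‖) (𝓝[<] (R - l)) atTop := by
      have := htop.atTop_add (hlim.norm.neg)
      simpa only [sub_eq_add_neg] using this
    refine tendsto_atTop_mono (fun x => ?_) e1
    rw [hU]
    exact norm_sub_norm_le _ _

end TTH

theorem t_TH : S_DIFF → S_TH := by
  intro hD l N hl H n hn
  have hP : ∀ n : ℕ, 0 < (N : ℝ) + 1 - n * l → TTH.P l N n := by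
    intro n
    induction n with
    | zero => exact fun _ => TTH.P_zero l N
    | succ n ih =>
      intro h
      refine TTH.P_succ hD l N hl H n h (ih ?_)
      push_cast at h
      linarith
  obtain ⟨p1, p2, p3, _⟩ := hP n hn
  refine ⟨p1, p2, p3, fun x hx hx' => ?_⟩
  have hq := H n x hx hx'
  have hb := TTH.arg_bd (TTH.norm_div_lt hq)
  have e : th l N (n + 1) x - th l N n (x + l) =
      Complex.arg (1 - U l ((N : ℝ) + 1) n ((x - l : ℝ) : ℂ) /
        U l ((N : ℝ) + 1) n ((x + l : ℝ) : ℂ)) := by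
    show th l N n (x + l) + _ - th l N n (x + l) = _
    ring
  rw [e, Complex.abs_arg_lt_pi_div_two_iff]
  exact Or.inl hb

end Pool.Agent.H220CDD
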