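import Pool.Agent.H220CDD.Stm

set_option autoImplicit false

open Polynomial

namespace Pool.Agent.H220CDD

namespace TTID

theorem exp_half (z : ℂ) : Complex.exp (Real.pi * Complex.I * (z + 1 / 2))
    = Complex.I * Complex.exp (Real.pi * Complex.I * z) := by
  have : (Real.pi : ℂ) * Complex.I * (z + 1 / 2)
      = (Real.pi : ℂ) / 2 * Complex.I + Real.pi * Complex.I * z := by ring
  rw [this, Complex.exp_add, Complex.exp_pi_div_two_mul_I]

theorem exp_half' (z : ℂ) : Complex.exp (Real.pi * Complex.I * (z - 1 / 2))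
    = - Complex.I * Complex.exp (Real.pi * Complex.I * z) := by
  have h := exp_half (z - 1 / 2)
  rw [sub_add_cancel] at h
  rw [h, ← mul_assoc]
  simp

theorem G_plus (a : ℝ) (z : ℂ) (hz : z.im ≠ 0) : G a (z + 1 / 2)
    = Complex.I * ((z + ((a - 1 / 2 : ℝ) : ℂ)) * G (a - 1 / 2) z) := by
  unfold G
  have h1 : (a : ℂ) + (z + 1 / 2) = (((a - 1 / 2 : ℝ) : ℂ) + z) + 1 := by push_cast; ring
  have h2 : (a : ℂ) - (z + 1 / 2) = ((a - 1 / 2 : ℝ) : ℂ) - z := by push_cast; ring
  have h3 : (((a - 1 / 2 : ℝ) : ℂ) + z) ≠ 0 := by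
    intro h
    have := congrArg Complex.im h
    rw [Complex.add_im, Complex.ofReal_im, Complex.zero_im, zero_add] at this
    exact hz this
  rw [exp_half, h1, h2, Complex.Gamma_add_one _ h3]
  ring

theorem G_minus (a : ℝ) (z : ℂ) (hz : z.im ≠ 0) : G a (z - 1 / 2)
    = Complex.I * ((z - ((a - 1 / 2 : ℝ) : ℂ)) * G (a - 1 / 2) z) := by
  unfold G
  have h1 : (a : ℂ) - (z - 1 / 2) = (((a - 1 / 2 : ℝ) : ℂ) - z) + 1 := by push_cast; ring
  have h2 : (a : ℂ) + (z - 1 / 2) = ((a - 1 / 2 : ℝ) : ℂ) + z := by push_cast; ring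
  have h3 : (((a - 1 / 2 : ℝ) : ℂ) - z) ≠ 0 := by
    intro h
    have := congrArg Complex.im h
    rw [Complex.sub_im, Complex.ofReal_im, Complex.zero_im, zero_sub, neg_eq_zero] at this
    exact hz this
  rw [exp_half', h1, h2, Complex.Gamma_add_one _ h3]
  ring

/-- the sum of the two shifts -/
noncomputable def W (l b : ℝ) (n : ℕ) (z : ℂ) : ℂ := U l b (n - 1) (z + l) + U l b (n - 1) (z - l)

theorem W_diff (l b : ℝ) (n : ℕ) (z : ℂ) (hn : n ≠ 0) :
    W l b n (z + l) - W l b n (z - l) = U l b n (z + l) + U l b n (z - l) := by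
  obtain ⟨m, rfl⟩ := Nat.exists_eq_succ_of_ne_zero hn
  unfold W
  rw [Nat.succ_eq_add_one, Nat.add_sub_cancel]
  rw [U, U]
  rw [sub_add_cancel, add_sub_cancel_right]
  ring

theorem shift_im (z : ℂ) (l : ℝ) (hz : z.im ≠ 0) : (z + l).im ≠ 0 ∧ (z - l).im ≠ 0 := by
  constructor
  · simpa using hz
  · simpa using hz

theorem U_plus (l a : ℝ) (n : ℕ) : ∀ z : ℂ, z.im ≠ 0 → U l a n (z + 1 / 2)
    = Complex.I * ((z + ((a - 1 / 2 : ℝ) : ℂ)) * U l (a - 1 / 2) n z
      + n * l * W l (a - 1 / 2) n z) := by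
  induction n with
  | zero =>
    intro z hz
    rw [U, U, G_plus a z hz]
    push_cast
    ring
  | succ n ih =>
    intro z hz
    obtain ⟨h1, h2⟩ := shift_im z l hz
    have e1 : z + 1 / 2 + l = (z + l) + 1 / 2 := by ring
    have e2 : z + 1 / 2 - l = (z - l) + 1 / 2 := by ring
    rw [U, U, e1, e2, ih _ h1, ih _ h2]
    have e3 : (n : ℂ) * (W l (a - 1 / 2) n (z + l) - W l (a - 1 / 2) n (z - l))
        = n * (U l (a - 1 / 2) n (z + l) + U l (a - 1 / 2) n (z - l)) := by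
      rcases Nat.eq_zero_or_pos n with h | h
      · subst h; simp
      · rw [W_diff _ _ _ _ h.ne']
    have e4 : W l (a - 1 / 2) (n + 1) z
        = U l (a - 1 / 2) n (z + l) + U l (a - 1 / 2) n (z - l) := rfl
    rw [e4]
    push_cast
    linear_combination Complex.I * l * e3

theorem U_minus (l a : ℝ) (n : ℕ) : ∀ z : ℂ, z.im ≠ 0 → U l a n (z - 1 / 2)
    = Complex.I * ((z - ((a - 1 / 2 : ℝ) : ℂ)) * U l (a - 1 / 2) n z
      + n * l * W l (a - 1 / 2) n z) := by
  induction n with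
  | zero =>
    intro z hz
    rw [U, U, G_minus a z hz]
    push_cast
    ring
  | succ n ih =>
    intro z hz
    obtain ⟨h1, h2⟩ := shift_im z l hz
    have e1 : z - 1 / 2 + l = (z + l) - 1 / 2 := by ring
    have e2 : z - 1 / 2 - l = (z - l) - 1 / 2 := by ring
    rw [U, U, e1, e2, ih _ h1, ih _ h2]
    have e3 : (n : ℂ) * (W l (a - 1 / 2) n (z + l) - W l (a - 1 / 2) n (z - l))
        = n * (U l (a - 1 / 2) n (z + l) + U l (a - 1 / 2) n (z - l)) := by
      rcases Nat.eq_zero_or_pos n with h | h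
      · subst h; simp
      · rw [W_diff _ _ _ _ h.ne']
    have e4 : W l (a - 1 / 2) (n + 1) z
        = U l (a - 1 / 2) n (z + l) + U l (a - 1 / 2) n (z - l) := rfl
    rw [e4]
    push_cast
    linear_combination Complex.I * l * e3

theorem normsq_id (b : ℝ) (z X Y : ℂ) :
    ‖Complex.I * ((z + b) * X + Y)‖ ^ 2 - ‖Complex.I * ((z - b) * X + Y)‖ ^ 2
      = 4 * b * (z.re * ‖X‖ ^ 2 + (Y.re * X.re + Y.im * X.im)) := by
  simp only [norm_mul, Complex.norm_I, one_mul, Complex.sq_norm, Complex.normSq_apply,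
    Complex.add_re, Complex.add_im, Complex.mul_re, Complex.mul_im, Complex.sub_re, Complex.sub_im,
    Complex.ofReal_re, Complex.ofReal_im]
  ring

end TTID

theorem t_TID : S_TID := by
  intro l a n z hz
  rw [TTID.U_plus l a n z hz, TTID.U_minus l a n z hz, TTID.normsq_id]
  have key : ((n : ℂ) * l * TTID.W l (a - 1 / 2) n z).re * (U l (a - 1 / 2) n z).re
      + ((n : ℂ) * l * TTID.W l (a - 1 / 2) n z).im * (U l (a - 1 / 2) n z).im
      = n * l * (‖U l (a - 1 / 2) (n - 1) (z + l)‖ ^ 2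
        - ‖U l (a - 1 / 2) (n - 1) (z - l)‖ ^ 2) := by
    rcases Nat.eq_zero_or_pos n with h | h
    · subst h; simp
    · obtain ⟨m, rfl⟩ := Nat.exists_eq_succ_of_ne_zero h.ne'
      have e1 : U l (a - 1 / 2) (m + 1) z
          = U l (a - 1 / 2) m (z + l) - U l (a - 1 / 2) m (z - l) := rfl
      have e2 : TTID.W l (a - 1 / 2) (m + 1) z
        = U l (a - 1 / 2) m (z + l) + U l (a - 1 / 2) m (z - l) := rfl
      rw [Nat.succ_eq_add_one, e1, e2, Nat.add_sub_cancel]
      have e3 : (((m + 1 : ℕ) : ℂ) * (l : ℂ)) = (((m + 1 : ℕ) * l : ℝ) : ℂ) := by push_cast; ring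
      rw [e3, Complex.re_ofReal_mul, Complex.im_ofReal_mul]
      simp only [Complex.sq_norm, Complex.normSq_apply, Complex.add_re, Complex.add_im,
        Complex.sub_re, Complex.sub_im]
      ring
  rw [key]

end Pool.Agent.H220CDD
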